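import Pool.Agent.R344.LS.AE

/-!
Level sums, part 24: the levels over all cycles and divergent trajectories, main theorem.
-/

set_option autoImplicit false

namespace Pool.Agent.R344.LS

open Finset Filter Topology
open Pool.Agent.H499R2.LT
open Pool.Agent.H499R2.ND (Td Dn cop_of_not_dvd side_odd cnt cnt_eq cnt_mono tail_le dens_side one_pos one_eq_zero Inv HD)

/-- the level sums and their cells, both signs -/
theorem both_line {d : ℤ} (hd : Odd d) (hd3 : ¬ (3 : ℤ) ∣ d) (F : Finset ℤ) : ∃ δ₁ δ₂ : ℝ,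
    Dn (fun n : ℕ => ∃ k : ℕ, (Td d)^[k] (1 * n) ∈ F) δ₁ ∧
    Dn (fun n : ℕ => ∃ k : ℕ, (Td d)^[k] (-1 * n) ∈ F) δ₂ ∧
    (∀ k : ℕ, Summable (fun x : LZ d F k => (1 : ℝ) / |((x : ℤ) : ℝ)|)) ∧
    Tendsto (fun k : ℕ => ∑' x : LZ d F k, (1 : ℝ) / |((x : ℤ) : ℝ)|) atTop
      (𝓝 (Real.log (4 / 3) / 2 * (δ₁ + δ₂))) ∧
    Tendsto (fun k : ℕ => ∑ o ∈ range (k + 1),
      |∑' x : {x : ℤ | x ≠ 0 ∧ (FH d F k x ∧ od d k x = o)}, (1 : ℝ) / |((x : ℤ) : ℝ)| -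
        Real.log (4 / 3) / 2 * (δ₁ + δ₂) * ((k.choose o : ℝ) / 2 ^ k)|) atTop (𝓝 0) := by
  classical
  obtain ⟨δ₁, δ₂, a0, a1, b0, b1, h1, h2, h3, h4⟩ := both hd hd3 F
  obtain ⟨δ₁', _, _, c1, s1, _, u1, _⟩ := cell_laws hd hd3 (s := 1) (Or.inl rfl) F
  obtain ⟨δ₂', _, _, c2, s2, _, u2, _⟩ := cell_laws hd hd3 (s := -1) (Or.inr rfl) F
  have e1 : δ₁' = δ₁ := tendsto_nhds_unique c1 h1
  have e2 : δ₂' = δ₂ := tendsto_nhds_unique c2 h2
  subst e1
  subst e2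
  refine ⟨δ₁', δ₂', h1, h2, h3, h4, ?_⟩
  have key : ∀ k o : ℕ, ∑' x : {x : ℤ | x ≠ 0 ∧ (FH d F k x ∧ od d k x = o)}, (1 : ℝ) / |((x : ℤ) : ℝ)| =
      ∑' n, fX d 1 F k o n + ∑' n, fX d (-1) F k o n := by
    intro k o
    apply HasSum.tsum_eq
    apply hasSum_P (P := fun x => FH d F k x ∧ od d k x = o) _ _ _ _ (s1 k o).hasSum (s2 k o).hasSum
    · intro n hn hP
      unfold fX
      rw [one_mul, if_pos ⟨hn, hP⟩]
    · intro n hn
      unfold fX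
      rw [one_mul, if_neg hn]
    · intro n hn hP
      unfold fX
      rw [neg_one_mul, if_pos ⟨hn, hP⟩]
    · intro n hn
      unfold fX
      rw [neg_one_mul, if_neg hn]
  have h5 := u1.add u2
  rw [add_zero] at h5
  refine squeeze_zero (fun k => sum_nonneg fun _ _ => abs_nonneg _) (fun k => ?_) h5
  rw [← sum_add_distrib]
  apply sum_le_sum
  intro o _
  rw [key]
  refine le_trans (le_of_eq ?_) (abs_add_le _ _)
  congr 1
  ring

theorem Dn_mono {P Q : ℕ → Prop} {a b : ℝ} (h : ∀ n, P n → Q n) (ha : Dn P a) (hb : Dn Q b) : a ≤ b := by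
  classical
  refine le_of_tendsto_of_tendsto ha hb ?_
  filter_upwards with N
  apply div_le_div_of_nonneg_right _ (Nat.cast_nonneg N)
  rw [cnt_eq, cnt_eq]
  exact_mod_cast card_le_card fun n hn => by
    rw [mem_filter] at hn ⊢
    exact ⟨hn.1, h n hn.2⟩

theorem not_dvd_one : ¬ (3 : ℤ) ∣ 1 := by omega

/-- one sign -/
theorem one_side {s : ℤ} (hs : s = 1 ∨ s = -1) : ∃ d : ℝ, 0 ≤ d ∧ HD s {x | Dv x} d ∧
    (d = 0 ↔ ∀ x : ℤ, 0 < s * x → ¬ Dv x) ∧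
    ∃ r : ℕ → ℝ, (∀ y, 0 ≤ r y) ∧ (∀ B : ℕ, ∃ K : ℝ, 0 < K ∧ ∀ y : ℕ, 2 ≤ y → r y ≤ K / Real.log y ^ B) ∧
      ∀ y : ℕ, Dn (fun n : ℕ => s * (n : ℤ) ∈ Re y) (1 - d - r y) := by
  obtain ⟨d, hd0, _, hd⟩ := dens_side odd_one isCoprime_one_left hs Dv_inv
  have hR : ∀ y : ℕ, ∃ r : ℝ, 0 ≤ r ∧ HD s (Rs y) r := fun y => by
    obtain ⟨r, h0, _, h1⟩ := dens_side odd_one isCoprime_one_left hs (Rs_inv y)
    exact ⟨r, h0, h1⟩
  choose r hr0 hr using hR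
  refine ⟨d, hd0, hd, ?_, r, hr0, ?_, ?_⟩
  · constructor
    · rintro rfl x hx hD
      exact lt_irrefl _ (one_pos hs Dv_inv (a := x) hD hx hd)
    · intro h
      exact one_eq_zero hs (fun a ha h0 => h a h0 ha) hd
  · intro B
    obtain ⟨K, hK, h⟩ := tail_le B odd_one not_dvd_one hs
    refine ⟨K, hK, fun y hy => ?_⟩
    exact h y (by exact_mod_cast hy) (Rs y) (Rs_inv y) (fun x hx => Rs_large hx) (r y) (hr y)
  · intro y
    have hinv : Inv 1 (Re y) := by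
      intro x
      constructor
      · rintro ⟨k, hk⟩
        refine ⟨k, ?_⟩
        rw [← Function.iterate_succ_apply, Function.iterate_succ_apply']
        exact Zy_step hk
      · rintro ⟨k, hk⟩
        exact ⟨k + 1, by rw [Function.iterate_succ_apply]; exact hk⟩
    obtain ⟨e, _, _, he⟩ := dens_side odd_one isCoprime_one_left hs hinv
    have g1 : Dn (fun n : ℕ => s * (n : ℤ) ∈ Rs y) (r y) := dn_side (hr y)
    have g2 : Dn (fun n : ℕ => Dv (s * (n : ℤ))) d := by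
      have := dn_side hd
      simpa only [Set.mem_ofPred_eq] using this
    have g3 : Dn (fun n : ℕ => s * (n : ℤ) ∈ Re y) e := dn_side he
    have h3 := three_sum hs g1 g2 g3
    have : e = 1 - d - r y := by linarith
    rw [← this]
    exact dn_side he

/-- THE LEVELS OVER THE CYCLES AND DIVERGENT TRAJECTORIES -/
theorem div_main : ∃ d₁ d₂ : ℝ, 0 ≤ d₁ ∧ 0 ≤ d₂ ∧ HD 1 {x | Dv x} d₁ ∧ HD (-1) {x | Dv x} d₂ ∧
    (d₁ = 0 ↔ ∀ x : ℤ, 0 < x → ¬ Dv x) ∧ (d₂ = 0 ↔ ∀ x : ℤ, x < 0 → ¬ Dv x) ∧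
    ∃ L : ℕ → ℝ, Monotone L ∧
      (∀ y : ℕ, (∀ k : ℕ, Summable (fun x : LZ 1 (Zy_fin y).toFinset k => (1 : ℝ) / |((x : ℤ) : ℝ)|)) ∧
        Tendsto (fun k : ℕ => ∑' x : LZ 1 (Zy_fin y).toFinset k, (1 : ℝ) / |((x : ℤ) : ℝ)|) atTop (𝓝 (L y)) ∧
        Tendsto (fun k : ℕ => ∑ o ∈ range (k + 1),
          |∑' x : {x : ℤ | x ≠ 0 ∧ (FH 1 (Zy_fin y).toFinset k x ∧ od 1 k x = o)}, (1 : ℝ) / |((x : ℤ) : ℝ)| -
            L y * ((k.choose o : ℝ) / 2 ^ k)|) atTop (𝓝 0)) ∧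
      (∀ B : ℕ, ∃ K : ℝ, 0 < K ∧ ∀ y : ℕ, 2 ≤ y → 0 ≤ Real.log (4 / 3) * (1 - (d₁ + d₂) / 2) - L y ∧
        Real.log (4 / 3) * (1 - (d₁ + d₂) / 2) - L y ≤ K / Real.log y ^ B) ∧
      ((∀ x : ℤ, ¬ Dv x) ↔ Tendsto L atTop (𝓝 (Real.log (4 / 3)))) := by
  obtain ⟨d₁, a0, a1, a2, r₁, a3, a4, a5⟩ := one_side (s := 1) (Or.inl rfl)
  obtain ⟨d₂, b0, b1, b2, r₂, b3, b4, b5⟩ := one_side (s := -1) (Or.inr rfl)
  have hl := log43_pos
  have a2' : d₁ = 0 ↔ ∀ x : ℤ, 0 < x → ¬ Dv x := by simpa only [one_mul] using a2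
  have b2' : d₂ = 0 ↔ ∀ x : ℤ, x < 0 → ¬ Dv x := by
    rw [b2]
    constructor
    · intro h x hx; exact h x (by omega)
    · intro h x hx; exact h x (by omega)
  set L : ℕ → ℝ := fun y => Real.log (4 / 3) / 2 * ((1 - d₁ - r₁ y) + (1 - d₂ - r₂ y)) with hL
  have hbound : ∀ B : ℕ, ∃ K : ℝ, 0 < K ∧ ∀ y : ℕ, 2 ≤ y → 0 ≤ Real.log (4 / 3) * (1 - (d₁ + d₂) / 2) - L y ∧
        Real.log (4 / 3) * (1 - (d₁ + d₂) / 2) - L y ≤ K / Real.log y ^ B := by
    intro B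
    obtain ⟨K₁, hK₁, g1⟩ := a4 B
    obtain ⟨K₂, hK₂, g2⟩ := b4 B
    refine ⟨Real.log (4 / 3) / 2 * (K₁ + K₂), by positivity, fun y hy => ?_⟩
    have e : Real.log (4 / 3) * (1 - (d₁ + d₂) / 2) - L y = Real.log (4 / 3) / 2 * (r₁ y + r₂ y) := by
      rw [hL]; ring
    rw [e]
    have h1 := g1 y hy
    have h2 := g2 y hy
    have h3 := a3 y
    have h4 := b3 y
    refine ⟨by positivity, ?_⟩
    rw [mul_div_assoc, add_div]
    apply mul_le_mul_of_nonneg_left _ (by positivity)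
    exact add_le_add h1 h2
  have hlim : Tendsto L atTop (𝓝 (Real.log (4 / 3) * (1 - (d₁ + d₂) / 2))) := by
    obtain ⟨K, hK, g⟩ := hbound 1
    have h1 : Tendsto (fun y : ℕ => Real.log (4 / 3) * (1 - (d₁ + d₂) / 2) - K / Real.log y ^ 1) atTop
        (𝓝 (Real.log (4 / 3) * (1 - (d₁ + d₂) / 2) - 0)) := by
      apply tendsto_const_nhds.sub
      simp only [pow_one]
      exact (Real.tendsto_log_atTop.comp tendsto_natCast_atTop_atTop).const_div_atTop K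
    rw [sub_zero] at h1
    refine tendsto_of_tendsto_of_tendsto_of_le_of_le' h1 tendsto_const_nhds ?_ ?_
    · filter_upwards [eventually_ge_atTop 2] with y hy
      linarith [(g y hy).2]
    · filter_upwards [eventually_ge_atTop 2] with y hy
      linarith [(g y hy).1]
  refine ⟨d₁, d₂, a0, b0, a1, b1, a2', b2', L, ?_, ?_, hbound, ?_⟩
  · intro y y' hy
    have h1 := Dn_mono (fun n h => by
      obtain ⟨k, hk⟩ := h
      exact ⟨k, Zy_mono hy hk⟩) (a5 y) (a5 y')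
    have h2 := Dn_mono (fun n h => by
      obtain ⟨k, hk⟩ := h
      exact ⟨k, Zy_mono hy hk⟩) (b5 y) (b5 y')
    rw [hL]
    show Real.log (4 / 3) / 2 * _ ≤ Real.log (4 / 3) / 2 * _
    apply mul_le_mul_of_nonneg_left _ (by positivity)
    linarith
  · intro y
    obtain ⟨δ₁, δ₂, c1, c2, c3, c4, c5⟩ := both_line (d := 1) odd_one not_dvd_one (Zy_fin y).toFinset
    have e1 : δ₁ = 1 - d₁ - r₁ y := by
      refine tendsto_nhds_unique c1 ?_
      have := a5 y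
      have e : (fun n : ℕ => (1 : ℤ) * (n : ℤ) ∈ Re y) = fun n : ℕ => ∃ k : ℕ, (Td 1)^[k] (1 * (n : ℤ)) ∈ (Zy_fin y).toFinset := by
        funext n
        simp only [Re, Set.mem_ofPred_eq, Set.Finite.mem_toFinset]
      rwa [e] at this
    have e2 : δ₂ = 1 - d₂ - r₂ y := by
      refine tendsto_nhds_unique c2 ?_
      have := b5 y
      have e : (fun n : ℕ => (-1 : ℤ) * (n : ℤ) ∈ Re y) = fun n : ℕ => ∃ k : ℕ, (Td 1)^[k] (-1 * (n : ℤ)) ∈ (Zy_fin y).toFinset := by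
        funext n
        simp only [Re, Set.mem_ofPred_eq, Set.Finite.mem_toFinset]
      rwa [e] at this
    subst e1
    subst e2
    exact ⟨c3, c4, c5⟩
  · constructor
    · intro h
      have g1 : d₁ = 0 := a2'.2 fun x _ => h x
      have g2 : d₂ = 0 := b2'.2 fun x _ => h x
      rw [g1, g2] at hlim
      simpa using hlim
    · intro h x
      have e := tendsto_nhds_unique h hlim
      have g : d₁ + d₂ = 0 := by
        have : Real.log (4 / 3) * (d₁ + d₂) = 0 := by linarith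
        rcases mul_eq_zero.1 this with h | h
        · linarith
        · linarith
      rcases lt_trichotomy x 0 with hx | rfl | hx
      · exact b2'.1 (by linarith) x hx
      · exact not_Dv_zero
      · exact a2'.1 (by linarith) x hx

end Pool.Agent.R344.LS
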