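import Pool.Agent.H499R2.LT.C2

/-!
Level sums, part 1: unions of level sets are equidistributed modulo 3, uniformly.
-/

set_option autoImplicit false

namespace Pool.Agent.R344.LS

open Finset
open Pool.Agent.H499R2.LT
open Pool.Agent.H499R2.ND (Td wc mem_wc)

/-- the integers whose orbit meets `F` -/
def RR (d : ℤ) (F : Finset ℤ) : Set ℤ := {x : ℤ | ∃ k : ℕ, (Td d)^[k] x ∈ F}

open Classical in
/-- the first time in `F` -/
noncomputable def ht (d : ℤ) (F : Finset ℤ) (x : ℤ) : ℕ :=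
  if h : ∃ k : ℕ, (Td d)^[k] x ∈ F then Nat.find h else 0

/-- the number of odd terms before -/
noncomputable def ho (d : ℤ) (F : Finset ℤ) (x : ℤ) : ℤ := od d (ht d F x) x

theorem ht_spec {d : ℤ} {F : Finset ℤ} {x : ℤ} (h : x ∈ RR d F) :
    (Td d)^[ht d F x] x ∈ F ∧ ∀ i < ht d F x, (Td d)^[i] x ∉ F := by
  classical
  have h' : ∃ k : ℕ, (Td d)^[k] x ∈ F := h
  unfold ht
  rw [dif_pos h']
  exact ⟨Nat.find_spec h', fun i hi => Nat.find_min h' hi⟩

theorem ht_eq {d : ℤ} {F : Finset ℤ} {x : ℤ} {k : ℕ} (h1 : (Td d)^[k] x ∈ F)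
    (h2 : ∀ i < k, (Td d)^[i] x ∉ F) : ht d F x = k := by
  have h : x ∈ RR d F := ⟨k, h1⟩
  obtain ⟨g1, g2⟩ := ht_spec h
  rcases lt_trichotomy (ht d F x) k with h3 | h3 | h3
  · exact absurd g1 (h2 _ h3)
  · exact h3
  · exact absurd h1 (g2 _ h3)

theorem ht_zero_iff {d : ℤ} {F : Finset ℤ} {x : ℤ} (h : x ∈ RR d F) : ht d F x = 0 ↔ x ∈ F := by
  constructor
  · intro h0
    have := (ht_spec h).1
    rw [h0] at this
    exact this
  · intro hx
    exact ht_eq (k := 0) hx (fun i hi => absurd hi (by omega))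

theorem RR_step {d : ℤ} {F : Finset ℤ} {x : ℤ} (hx : x ∉ F) : x ∈ RR d F ↔ Td d x ∈ RR d F := by
  constructor
  · rintro ⟨k, hk⟩
    rcases Nat.eq_zero_or_pos k with rfl | h
    · exact absurd hk hx
    · obtain ⟨j, rfl⟩ : ∃ j, k = j + 1 := ⟨k - 1, by omega⟩
      exact ⟨j, by rwa [Function.iterate_succ_apply] at hk⟩
  · rintro ⟨k, hk⟩
    exact ⟨k + 1, by rwa [Function.iterate_succ_apply]⟩

theorem ht_step {d : ℤ} {F : Finset ℤ} {x : ℤ} (hx : x ∉ F) (h : x ∈ RR d F) :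
    ht d F x = ht d F (Td d x) + 1 := by
  have h1 := (RR_step hx).1 h
  obtain ⟨g1, g2⟩ := ht_spec h1
  apply ht_eq
  · rw [Function.iterate_succ_apply]; exact g1
  · intro i hi
    rcases Nat.eq_zero_or_pos i with rfl | h0
    · exact hx
    · obtain ⟨j, rfl⟩ : ∃ j, i = j + 1 := ⟨i - 1, by omega⟩
      rw [Function.iterate_succ_apply]
      exact g2 j (by omega)

theorem ho_step {d : ℤ} {F : Finset ℤ} {x : ℤ} (hx : x ∉ F) (h : x ∈ RR d F) :
    ho d F x = (if x % 2 = 0 then 0 else 1) + ho d F (Td d x) := by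
  unfold ho
  rw [ht_step hx h, od]

/-- the integers whose hitting time and number of odd terms are in `W`, shifted -/
def FW (d : ℤ) (F : Finset ℤ) (W : Set (ℤ × ℤ)) (a b : ℤ) : Set ℤ :=
  {x : ℤ | x ∈ RR d F ∧ ((ht d F x : ℤ) - a, ho d F x - b) ∈ W}

theorem GF_FW (d : ℤ) (F : Finset ℤ) (W : Set (ℤ × ℤ)) : GF d (RF d F) (FW d F W) := by
  intro k o x hx
  have hxF : x ∉ F := fun h => hx (RF_sub d h)
  unfold FW
  rw [Set.mem_ofPred_eq, Set.mem_ofPred_eq]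
  constructor
  · rintro ⟨h1, h2⟩
    refine ⟨(RR_step hxF).1 h1, ?_⟩
    rw [ht_step hxF h1, ho_step hxF h1] at h2
    push_cast at h2
    have e : ((ht d F (Td d x) : ℤ) - (k - 1), ho d F (Td d x) - (o - if x % 2 = 0 then 0 else 1)) =
        ((ht d F (Td d x) : ℤ) + 1 - k, (if x % 2 = 0 then 0 else 1) + ho d F (Td d x) - o) := by
      ext <;> simp <;> ring
    rw [e]
    exact h2
  · rintro ⟨h1, h2⟩
    have h3 := (RR_step hxF).2 h1
    refine ⟨h3, ?_⟩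
    rw [ht_step hxF h3, ho_step hxF h3]
    push_cast
    have e : ((ht d F (Td d x) : ℤ) - (k - 1), ho d F (Td d x) - (o - if x % 2 = 0 then 0 else 1)) =
        ((ht d F (Td d x) : ℤ) + 1 - k, (if x % 2 = 0 then 0 else 1) + ho d F (Td d x) - o) := by
      ext <;> simp <;> ring
    rw [e] at h2
    exact h2

/-- equidistribution modulo 3 -/
theorem equi {d : ℤ} (hd : Odd d) (hd3 : IsCoprime d 3) (F : Finset ℤ) : ∃ K : ℝ, 0 < K ∧
    ∀ (W : Set (ℤ × ℤ)) (X : ℝ), 2 ≤ X → ∀ c c' : ℤ, ((wc (FW d F W 0 0) 1 X 3 c).card : ℝ) ≤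
      (wc (FW d F W 0 0) 1 X 3 c').card + K / (Real.log X) ^ 2 * X := by
  obtain ⟨K, hK, h⟩ := C2aux.equi_sum hd hd3 (RF_FC d F) (RF_SpW hd hd3 F)
  exact ⟨K, hK, fun W X hX c c' => h _ (GF_FW d F W) X hX 0 0 c c'⟩

/-- the sizes -/
theorem size {d : ℤ} (hd : Odd d) (hd3 : IsCoprime d 3) (F : Finset ℤ) : ∃ C : ℝ, 0 < C ∧
    ∀ x : ℤ, x ≠ 0 → x ∈ RR d F →
      |Real.log (x : ℝ) + ho d F x * Real.log 3 - ht d F x * Real.log 2| ≤ C := by
  classical
  choose C hC hb using fun f => bres hd hd3 F f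
  refine ⟨∑ f ∈ F, C f + 1, by have := sum_nonneg (s := F) fun f _ => (hC f).le; linarith, ?_⟩
  intro x hx h
  obtain ⟨h1, h2⟩ := ht_spec h
  have h3 := hb _ x (ht d F x) hx ⟨rfl, h1, h2⟩
  have h4 : C ((Td d)^[ht d F x] x) ≤ ∑ f ∈ F, C f := single_le_sum (fun g _ => (hC g).le) h1
  unfold ho
  linarith

end Pool.Agent.R344.LS
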