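import Pool.Agent.R344.LS.X

/-!
Level sums, part 20: heights of the odd integers, and the negative odd integers.
-/

set_option autoImplicit false

namespace Pool.Agent.R344.LS

open Finset Filter Topology
open Pool.Agent.H499R2.LT
open Pool.Agent.H499R2.ND (Td Dn Tn Bas Bas_density Bas_inv inv_prog IsHt ht_iff bas_all_iff cop_of_not_dvd side_odd cnt cnt_eq)
open Pool.Agent.W26.HN (Sy En E)
open Pool.Agent.H363R2 (Cm)

/-- reciprocal sum -/
noncomputable def ms (A : Set ℕ) : ℝ := ∑' n : A, (1 : ℝ) / ((n : ℕ) : ℝ)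

theorem Cm_Sy (m : ℕ) : ((Cm m : ℕ) : ℤ) = Sy (m : ℤ) := by
  unfold Cm Sy
  have e : 3 * (m : ℤ) + 1 = ((3 * m + 1 : ℕ) : ℤ) := by push_cast; ring
  rw [e, padicValInt.of_nat]
  push_cast
  rfl

theorem Cm_iter (k m : ℕ) : ((Cm^[k] m : ℕ) : ℤ) = Sy^[k] (m : ℤ) := by
  induction k with
  | zero => rfl
  | succ k ih =>
    rw [Function.iterate_succ_apply', Function.iterate_succ_apply', ← ih, Cm_Sy]

/-- the height -/
def IsHeight (m h : ℕ) : Prop := IsLeast {k : ℕ | 1 ≤ k ∧ Cm^[k] m = 1} h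

/-- the sum of the exponents -/
def exps (h m : ℕ) : ℕ := ∑ i ∈ Finset.range h, padicValNat 2 (3 * Cm^[i] m + 1)

theorem exps_tot (h m : ℕ) : exps h m = tot h (m : ℤ) := by
  unfold exps tot
  apply sum_congr rfl
  intro i _
  rw [← Cm_iter]
  have e : 3 * ((Cm^[i] m : ℕ) : ℤ) + 1 = ((3 * Cm^[i] m + 1 : ℕ) : ℤ) := by push_cast; ring
  rw [e, padicValInt.of_nat]

theorem Cm_one : Cm 1 = 1 := by
  have h1 : ((Cm 1 : ℕ) : ℤ) = 1 := by
    rw [Cm_Sy]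
    exact Pool.Agent.W26.HN.Sy_eq (N := ((1 : ℕ) : ℤ)) (M := 1) (v := 2) (by norm_num) (by norm_num)
  exact_mod_cast h1

theorem height_one {h : ℕ} (hh : IsHeight 1 h) : h = 1 := by
  have h1 : h ≤ 1 := hh.2 ⟨le_rfl, Cm_one⟩
  have h2 := hh.1.1
  omega

theorem height_iff {m h : ℕ} (hm : m ≠ 1) : IsHeight m h ↔ En {1} h (m : ℤ) := by
  have key : ∀ k : ℕ, Sy^[k] (m : ℤ) ∈ ({1} : Finset ℤ) ↔ Cm^[k] m = 1 := by
    intro k
    rw [← Cm_iter, mem_singleton]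
    exact_mod_cast Iff.rfl
  unfold En
  simp only [key]
  constructor
  · rintro ⟨⟨h1, h2⟩, h3⟩
    refine ⟨h2, fun i hi hc => ?_⟩
    rcases Nat.eq_zero_or_pos i with rfl | h0
    · exact hm hc
    · have := h3 ⟨h0, hc⟩
      omega
  · rintro ⟨h1, h2⟩
    refine ⟨⟨?_, h1⟩, fun i hi => ?_⟩
    · rcases Nat.eq_zero_or_pos h with rfl | h0
      · exact absurd h1 hm
      · exact h0
    · by_contra hlt
      exact h2 i (by omega) hi.2

theorem En_one {h : ℕ} (hh : En {1} h ((1 : ℕ) : ℤ)) : h = 0 := by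
  by_contra hcon
  exact hh.2 0 (by omega) (by simp)

theorem height_set {h : ℕ} (hh : 2 ≤ h) : {m : ℕ | m % 2 = 1 ∧ IsHeight m h} =
    {n : ℕ | n % 2 = 1 ∧ En {1} h (1 * (n : ℤ))} := by
  ext m
  rw [Set.mem_ofPred_eq, Set.mem_ofPred_eq, one_mul]
  apply and_congr_right
  intro hm
  by_cases h1 : m = 1
  · subst h1
    constructor
    · intro h2
      have := height_one h2
      omega
    · intro h2
      have := En_one h2
      omega
  · exact height_iff h1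

theorem height_set' {h k : ℕ} (hh : 2 ≤ h) : {m : ℕ | m % 2 = 1 ∧ IsHeight m h ∧ exps h m = k} =
    {n : ℕ | n % 2 = 1 ∧ En {1} h (1 * (n : ℤ)) ∧ tot h (1 * (n : ℤ)) = k} := by
  ext m
  have h2 := Set.ext_iff.1 (height_set hh) m
  rw [Set.mem_ofPred_eq, Set.mem_ofPred_eq] at h2
  rw [Set.mem_ofPred_eq, Set.mem_ofPred_eq, one_mul]
  rw [one_mul] at h2
  rw [exps_tot]
  tauto

theorem isHt_iff {m h : ℕ} : IsHt m h ↔ IsHeight m h := by
  constructor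
  · rintro ⟨h1, h2, h3⟩
    refine ⟨⟨h1, h2⟩, fun j hj => ?_⟩
    by_contra hlt
    exact h3 j hj.1 (by omega) hj.2
  · rintro ⟨⟨h1, h2⟩, h3⟩
    refine ⟨h1, h2, fun j hj1 hj2 hj3 => ?_⟩
    have := h3 ⟨hj1, hj3⟩
    omega

/-- THE LAW OF THE HEIGHTS -/
theorem heights : ∃ δ : ℝ, 0 < δ ∧ δ ≤ 1 ∧ (δ = 1 ↔ ∀ m : ℕ, Odd m → ∃ h : ℕ, IsHeight m h) ∧
    Tendsto (fun M : ℕ => 2 / (M : ℝ) * ({m : ℕ | m ≤ M ∧ Odd m ∧ ∃ h : ℕ, IsHeight m h}.ncard : ℝ)) atTop (𝓝 δ) ∧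
    (∀ h : ℕ, Summable (fun m : {m : ℕ | m % 2 = 1 ∧ IsHeight m h} => (1 : ℝ) / ((m : ℕ) : ℝ))) ∧
    Tendsto (fun h : ℕ => ∑' m : {m : ℕ | m % 2 = 1 ∧ IsHeight m h}, (1 : ℝ) / ((m : ℕ) : ℝ)) atTop
      (𝓝 (Real.log (4 / 3) / 2 * δ)) ∧
    (∀ ε : ℝ, 0 < ε → ∃ h0 : ℕ, ∀ h : ℕ, h0 ≤ h → ∀ K : ℕ, ∑ k ∈ range K,
      |∑' m : {m : ℕ | m % 2 = 1 ∧ IsHeight m h ∧ exps h m = k + 1}, (1 : ℝ) / ((m : ℕ) : ℝ) -
        Real.log (4 / 3) / 2 * δ * ((k.choose (h - 1) : ℝ) / 2 ^ (k + 1))| ≤ ε) := by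
  classical
  obtain ⟨δ, _, _, hD, h1, h2, h3⟩ := syr_law (s := 1) (Or.inl rfl) (F := {1}) (by
    intro y hy
    rw [mem_singleton] at hy
    subst hy
    norm_num)
  obtain ⟨g0, g1, g2, g3⟩ := dens_Tn hD
  obtain ⟨δ', _, _, _, hB⟩ := Bas_density
  have hDB : Dn Bas δ := by
    have e : (fun n : ℕ => ∃ k : ℕ, (Td 1)^[k] (1 * (n : ℤ)) ∈ ({1} : Finset ℤ)) = Bas :=
      funext fun n => propext (exists_congr fun k => hit_one k n)
    rwa [e] at hD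
  refine ⟨δ, g0, g1, ?_, ?_, ?_, ?_, ?_⟩
  · rw [g2]
    have := bas_all_iff
    unfold Bas at this
    rw [this]
    exact forall_congr' fun m => forall_congr' fun _ => exists_congr fun h => isHt_iff
  · have h4 := inv_prog Bas_inv hDB (q := 2) (by norm_num) 1
    have h5 := h4.const_mul 2
    have e2 : 2 * (δ / ((2 : ℕ) : ℝ)) = δ := by push_cast; ring
    rw [e2] at h5
    refine h5.congr fun M => ?_
    have e : {m : ℕ | 1 ≤ m ∧ m ≤ M ∧ (m % 2 = 1 % 2 ∧ Bas m)} = {m : ℕ | m ≤ M ∧ Odd m ∧ ∃ h : ℕ, IsHeight m h} := by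
      ext m
      rw [Set.mem_ofPred_eq, Set.mem_ofPred_eq]
      constructor
      · rintro ⟨g1, g2, g3, g4⟩
        have hm : Odd m := Nat.odd_iff.2 g3
        obtain ⟨h, hh⟩ := (ht_iff hm).1 g4
        exact ⟨g2, hm, h, isHt_iff.1 hh⟩
      · rintro ⟨g2, g3, h, hh⟩
        exact ⟨g3.pos, g2, Nat.odd_iff.1 g3, (ht_iff g3).2 ⟨h, isHt_iff.2 hh⟩⟩
    unfold cnt
    rw [e]
    ring
  · intro h
    rcases Nat.lt_or_ge h 2 with hlt | hge
    · rcases Nat.eq_zero_or_pos h with rfl | h0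
      · apply summable_cell (f := fun _ => 0)
        · rintro n ⟨_, hn⟩
          exact absurd hn.1.1 (by omega)
        · intro n _
          rfl
        · exact summable_zero
      · have : h = 1 := by omega
        subst this
        have hs := h1 1
        rw [← Function.comp_def (fun n : ℕ => (1 : ℝ) / (n : ℝ)) (fun n : {n : ℕ | n % 2 = 1 ∧ En {1} 1 (1 * (n : ℤ))} => (n : ℕ)),
          summable_subtype_iff_indicator] at hs
        have hs2 : Summable (fun n : ℕ => if n = 1 then (1 : ℝ) else 0) :=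
          (hasSum_ite_eq 1 (1 : ℝ)).summable
        apply summable_cell _ _ (hs.add hs2)
        · rintro n ⟨g4, g5⟩
          by_cases hn : n = 1
          · subst hn
            rw [Set.indicator_of_notMem, if_pos rfl]
            · norm_num
            · rintro ⟨_, g6⟩
              rw [one_mul] at g6
              exact absurd (En_one g6) (by norm_num)
          · rw [Set.indicator_of_mem, if_neg hn, add_zero]
            exact ⟨g4, by rw [one_mul]; exact (height_iff hn).1 g5⟩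
        · intro n hn
          have hn1 : n ≠ 1 := by
            rintro rfl
            apply hn
            exact ⟨by norm_num, ⟨le_rfl, Cm_one⟩, fun i hi => hi.1⟩
          rw [if_neg hn1, add_zero, Set.indicator_of_notMem]
          rintro ⟨g4, g5⟩
          rw [one_mul] at g5
          exact hn ⟨g4, (height_iff hn1).2 g5⟩
    · rw [height_set hge]
      exact h1 h
  · refine h2.congr' ?_
    filter_upwards [eventually_ge_atTop 2] with h hh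
    exact congrArg ms (height_set hh).symm
  · intro ε hε
    obtain ⟨j0, hj⟩ := h3 ε hε
    refine ⟨max j0 2, fun h hh K => ?_⟩
    refine le_trans (le_of_eq ?_) (hj h ((le_max_left _ _).trans hh) K)
    apply sum_congr rfl
    intro k _
    have e := congrArg ms (height_set' (k := k + 1) ((le_max_right j0 2).trans hh))
    unfold ms at e
    rw [e]

/-- THE LAW FOR THE NEGATIVE ODD INTEGERS -/
theorem neg_law {F : Finset ℤ} (hne : F.Nonempty) (hF : ∀ y ∈ F, y < 0 ∧ y % 2 = 1) (hS : ∀ y ∈ F, Sy y ∈ F) :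
    ∃ δ : ℝ, 0 < δ ∧ δ ≤ 1 ∧
    (δ = 1 ↔ ∀ N : ℤ, N < 0 → N % 2 = 1 → ∃ k : ℕ, Sy^[k] N ∈ F) ∧
    Dn (fun n : ℕ => n % 2 = 1 ∧ ∃ k : ℕ, Sy^[k] (-(n : ℤ)) ∈ F) (δ / 2) ∧
    (∀ j : ℕ, Summable (fun n : {n : ℕ | n % 2 = 1 ∧ En F j (-(n : ℤ))} => (1 : ℝ) / ((n : ℕ) : ℝ))) ∧
    Tendsto (fun j : ℕ => ∑' n : {n : ℕ | n % 2 = 1 ∧ En F j (-(n : ℤ))}, (1 : ℝ) / ((n : ℕ) : ℝ)) atTop
      (𝓝 (Real.log (4 / 3) / 2 * δ)) ∧
    (∀ ε : ℝ, 0 < ε → ∃ j0 : ℕ, ∀ j : ℕ, j0 ≤ j → ∀ K : ℕ, ∑ k ∈ range K,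
      |∑' n : {n : ℕ | n % 2 = 1 ∧ En F j (-(n : ℤ)) ∧ tot j (-(n : ℤ)) = k + 1}, (1 : ℝ) / ((n : ℕ) : ℝ) -
        Real.log (4 / 3) / 2 * δ * ((k.choose (j - 1) : ℝ) / 2 ^ (k + 1))| ≤ ε) := by
  have hFo : ∀ y ∈ F, y % 2 = 1 := fun y hy => (hF y hy).2
  obtain ⟨δ, _, hpos, h2, h4, h5, h6⟩ := syr_law (s := -1) (Or.inr rfl) hFo
  have hδ : 0 < δ := by
    obtain ⟨y, hy⟩ := hne
    apply hpos
    have h8 := hF _ (hS y hy)
    exact ⟨Sy y, hS y hy, by omega, Pool.Agent.W26.HN.Sy_three (hFo y hy)⟩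
  have hodd : Dn (fun n : ℕ => n % 2 = 1 ∧ ∃ k : ℕ, (Td 1)^[k] (-1 * (n : ℤ)) ∈ F) (δ / 2) := by
    refine Pool.Agent.H499R2.HL.dn_odd h2 ?_
    have e0 : (fun n : ℕ => ∃ k : ℕ, (Td 1)^[k] (-1 * ((2 * n : ℕ) : ℤ)) ∈ F) =
        fun n : ℕ => ∃ k : ℕ, (Td 1)^[k] (-1 * (n : ℤ)) ∈ F := by
      funext n
      apply propext
      have e : -1 * ((2 * n : ℕ) : ℤ) = 2 * (-1 * (n : ℤ)) := by push_cast; ring
      rw [e]
      constructor
      · rintro ⟨k, hk⟩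
        cases k with
        | zero =>
          have h8 := hFo _ hk
          simp only [Function.iterate_zero, id_eq] at h8
          omega
        | succ k =>
          rw [Function.iterate_succ_apply, Pool.Agent.W26.HN.Td_two] at hk
          exact ⟨k, hk⟩
      · rintro ⟨k, hk⟩
        exact ⟨k + 1, by rw [Function.iterate_succ_apply, Pool.Agent.W26.HN.Td_two]; exact hk⟩
    rw [e0]
    exact h2
  have hodd' : Dn (fun n : ℕ => n % 2 = 1 ∧ ∃ k : ℕ, Sy^[k] (-(n : ℤ)) ∈ F) (δ / 2) := by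
    have e0 : (fun n : ℕ => n % 2 = 1 ∧ ∃ k : ℕ, (Td 1)^[k] (-1 * (n : ℤ)) ∈ F) =
        fun n : ℕ => n % 2 = 1 ∧ ∃ k : ℕ, Sy^[k] (-(n : ℤ)) ∈ F := by
      funext n
      apply propext
      apply and_congr_right
      intro hn
      rw [neg_one_mul]
      exact Pool.Agent.W26.HN.hit_iff (by omega) hFo
    rwa [e0] at hodd
  obtain ⟨d, _, hd1, _, hd2, _, hd3⟩ := Pool.Agent.W26.HN.inv_density
    (S := Pool.Agent.W26.HN.Ba F) (fun N _ _ => Pool.Agent.W26.HN.Ba_inv hS N)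
  have hdδ : d = δ := by
    have := tendsto_nhds_unique hd2 hodd'
    linarith
  subst hdδ
  have e1 : ∀ j : ℕ, {n : ℕ | n % 2 = 1 ∧ En F j (-1 * (n : ℤ))} = {n : ℕ | n % 2 = 1 ∧ En F j (-(n : ℤ))} := by
    intro j
    ext n
    rw [Set.mem_ofPred_eq, Set.mem_ofPred_eq, neg_one_mul]
  have e2 : ∀ j k : ℕ, {n : ℕ | n % 2 = 1 ∧ En F j (-1 * (n : ℤ)) ∧ tot j (-1 * (n : ℤ)) = k + 1} =
      {n : ℕ | n % 2 = 1 ∧ En F j (-(n : ℤ)) ∧ tot j (-(n : ℤ)) = k + 1} := by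
    intro j k
    ext n
    rw [Set.mem_ofPred_eq, Set.mem_ofPred_eq, neg_one_mul]
  refine ⟨d, hδ, hd1, hd3, hodd', fun j => ?_, ?_, fun ε hε => ?_⟩
  · have := h4 j
    rwa [e1] at this
  · refine h5.congr fun j => ?_
    exact congrArg ms (e1 j)
  · obtain ⟨j0, hj0⟩ := h6 ε hε
    refine ⟨j0, fun j hj K => ?_⟩
    refine le_trans (le_of_eq ?_) (hj0 j hj K)
    apply sum_congr rfl
    intro k _
    have e := congrArg ms (e2 j k)
    unfold ms at e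
    rw [e]

end Pool.Agent.R344.LS
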