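import Pool.Agent.H499R2.LT.F3a

/-!
Level sums, part 6: logarithmic sums over sets with natural density, and Cesaro means.
-/

set_option autoImplicit false

namespace Pool.Agent.R344.LS

open Finset Filter Topology
open Pool.Agent.H499R2.LT.F3 (abel)

theorem harm_bd (N : ℕ) (hN : 1 ≤ N) : Real.log N ≤ ∑ n ∈ Icc 1 N, (1 : ℝ) / n ∧
    ∑ n ∈ Icc 1 N, (1 : ℝ) / n ≤ 1 + Real.log N := by
  have e : ∑ n ∈ Icc 1 N, (1 : ℝ) / n = ((harmonic N : ℚ) : ℝ) := by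
    rw [harmonic_eq_sum_Icc]
    push_cast
    apply sum_congr rfl
    intro n _
    rw [one_div]
  rw [e]
  constructor
  · refine le_trans ?_ (log_add_one_le_harmonic N)
    apply Real.log_le_log (by exact_mod_cast hN)
    push_cast
    linarith
  · exact harmonic_le_one_add_log N

open Classical in
/-- the sum of the reciprocals of the `n ≤ N` with the property `P` -/
noncomputable def LB (P : ℕ → Prop) (N : ℕ) : ℝ := ∑ n ∈ (Icc 1 N).filter P, (1 : ℝ) / n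

open Classical in
theorem logd {P : ℕ → Prop} {l : ℝ} (hl : 0 ≤ l)
    (hP : Tendsto (fun N : ℕ => (((Icc 1 N).filter P).card : ℝ) / N) atTop (𝓝 l)) {ε : ℝ} (hε : 0 < ε) :
    ∃ A : ℝ, 0 ≤ A ∧ ∀ N : ℕ, 1 ≤ N → |LB P N - l * Real.log N| ≤ ε * Real.log N + A := by
  obtain ⟨f, hf⟩ : ∃ f : ℕ → ℝ, f = fun n => (if P n then 1 else 0) - l := ⟨_, rfl⟩
  obtain ⟨D, hDd⟩ : ∃ D : ℕ → ℝ, D = fun N => (((Icc 1 N).filter P).card : ℝ) - l * N := ⟨_, rfl⟩
  have hD : ∀ n, D (n + 1) = D n + f (n + 1) := by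
    intro n
    rw [hDd, hf]
    have e1 : Icc 1 (n + 1) = insert (n + 1) (Icc 1 n) := by
      ext x
      simp only [mem_Icc, mem_insert]
      omega
    dsimp only
    rw [e1, filter_insert]
    by_cases h : P (n + 1)
    · rw [if_pos h, if_pos h, card_insert_of_notMem (by simp)]
      push_cast
      ring
    · rw [if_neg h, if_neg h]
      push_cast
      ring
  obtain ⟨a, ha⟩ : ∃ a : ℕ, 1 ≤ a ∧ ∀ n, a ≤ n → |D n| ≤ ε * n := by
    rw [Metric.tendsto_atTop] at hP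
    obtain ⟨a, ha⟩ := hP ε hε
    refine ⟨max a 1, le_max_right _ _, fun n hn => ?_⟩
    have h1 := ha n ((le_max_left _ _).trans hn)
    have hn0 : (0 : ℝ) < n := by exact_mod_cast (le_max_right a 1).trans hn
    rw [Real.dist_eq] at h1
    rw [hDd]
    simp only
    have e : (((Icc 1 n).filter P).card : ℝ) - l * n = ((((Icc 1 n).filter P).card : ℝ) / n - l) * n := by
      field_simp
    rw [e, abs_mul, abs_of_pos hn0]
    exact mul_le_mul_of_nonneg_right h1.le hn0.le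
  obtain ⟨ha1, ha2⟩ := ha
  have hLB : ∀ N : ℕ, LB P N = l * ∑ n ∈ Icc 1 N, (1 : ℝ) / n + ∑ n ∈ Icc 1 N, f n / n := by
    intro N
    unfold LB
    rw [sum_filter, mul_sum, ← sum_add_distrib]
    apply sum_congr rfl
    intro n _
    rw [hf]
    simp only
    split_ifs <;> ring
  set A0 : ℝ := ∑ n ∈ Icc 1 a, |f n / n| with hA0
  have hA00 : 0 ≤ A0 := sum_nonneg fun _ _ => abs_nonneg _
  refine ⟨l + A0 + 3 * ε, by positivity, ?_⟩
  intro N hN
  obtain ⟨h1, h2⟩ := harm_bd N hN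
  have hlN : 0 ≤ Real.log N := Real.log_nonneg (by exact_mod_cast hN)
  have h3 : |∑ n ∈ Icc 1 N, f n / n| ≤ A0 + ε * (3 + Real.log N) := by
    rcases le_or_gt N a with h | h
    · have h4 : |∑ n ∈ Icc 1 N, f n / n| ≤ A0 := by
        refine (abs_sum_le_sum_abs _ _).trans ?_
        exact sum_le_sum_of_subset_of_nonneg (Icc_subset_Icc_right h) fun _ _ _ => abs_nonneg _
      have : 0 ≤ ε * (3 + Real.log N) := by positivity
      linarith
    · have e1 : Icc 1 N = Icc 1 a ∪ Ioc a N := by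
        ext n
        simp only [mem_union, mem_Icc, mem_Ioc]
        omega
      have hdis : Disjoint (Icc 1 a) (Ioc a N) := by
        rw [disjoint_left]
        intro n h1 h2
        rw [mem_Icc] at h1
        rw [mem_Ioc] at h2
        omega
      have h4 := abel f D hD ha1 ha2 N h.le
      have h5 : ∑ n ∈ Ioc a N, (1 : ℝ) / n ≤ ∑ n ∈ Icc 1 N, (1 : ℝ) / n := by
        rw [e1]
        exact sum_le_sum_of_subset_of_nonneg subset_union_right fun _ _ _ => by positivity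
      rw [e1, sum_union hdis]
      refine (abs_add_le _ _).trans ?_
      have h6 : |∑ n ∈ Icc 1 a, f n / n| ≤ A0 := abs_sum_le_sum_abs _ _
      have h7 : ε * (2 + ∑ n ∈ Ioc a N, (1 : ℝ) / n) ≤ ε * (3 + Real.log N) :=
        mul_le_mul_of_nonneg_left (by linarith) hε.le
      linarith
  rw [hLB N]
  have e : l * ∑ n ∈ Icc 1 N, (1 : ℝ) / n + ∑ n ∈ Icc 1 N, f n / n - l * Real.log N =
      l * (∑ n ∈ Icc 1 N, (1 : ℝ) / n - Real.log N) + ∑ n ∈ Icc 1 N, f n / n := by ring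
  rw [e]
  refine (abs_add_le _ _).trans ?_
  have h8 : |l * (∑ n ∈ Icc 1 N, (1 : ℝ) / n - Real.log N)| ≤ l := by
    rw [abs_mul, abs_of_nonneg hl, abs_of_nonneg (by linarith)]
    calc l * (∑ n ∈ Icc 1 N, (1 : ℝ) / n - Real.log N) ≤ l * 1 :=
        mul_le_mul_of_nonneg_left (by linarith) hl
      _ = l := mul_one l
  linarith

theorem LB_mono_N {P : ℕ → Prop} {N M : ℕ} (h : N ≤ M) : LB P N ≤ LB P M := by
  classical
  unfold LB
  apply sum_le_sum_of_subset_of_nonneg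
  · intro n hn
    rw [mem_filter, mem_Icc] at hn ⊢
    exact ⟨⟨hn.1.1, by omega⟩, hn.2⟩
  · intro n _ _
    positivity

open Classical in
/-- CESARO MEANS -/
theorem ces {P : ℕ → Prop} {l : ℝ} (hl : 0 ≤ l)
    (hP : Tendsto (fun N : ℕ => (((Icc 1 N).filter P).card : ℝ) / N) atTop (𝓝 l))
    {c C : ℝ} (hc : 0 < c) (hC : 0 < C) (S : ℕ → Finset ℕ)
    (hS : ∀ J, ∀ n ∈ S J, 1 ≤ n ∧ P n ∧ Real.log n ≤ C * (J + 1))
    (hE : ∀ ε : ℝ, 0 < ε → ε ≤ 1 → ∃ E : ℕ → Prop,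
      Tendsto (fun N : ℕ => (((Icc 1 N).filter E).card : ℝ) / N) atTop (𝓝 0) ∧
      ∀ (J n : ℕ), 1 ≤ n → P n → ¬ E n → (Real.log n ≤ (1 - ε) * (c * J) → n ∈ S J) ∧
        (n ∈ S J → Real.log n ≤ (1 + ε) * (c * J))) :
    Tendsto (fun J : ℕ => (∑ n ∈ S J, (1 : ℝ) / n) / J) atTop (𝓝 (l * c)) := by
  rw [Metric.tendsto_atTop]
  intro η hη
  set K1 : ℝ := l * c + 2 * c + C with hK1
  have hK10 : 0 < K1 := by positivity
  set ε : ℝ := min 1 (η / (4 * K1)) with hε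
  have hε0 : 0 < ε := lt_min one_pos (by positivity)
  have hε1 : ε ≤ 1 := min_le_left _ _
  have hε2 : ε * K1 ≤ η / 4 := by
    calc ε * K1 ≤ η / (4 * K1) * K1 := mul_le_mul_of_nonneg_right (min_le_right _ _) hK10.le
      _ = η / 4 := by field_simp
  obtain ⟨E, hE0, hE1⟩ := hE ε hε0 hε1
  obtain ⟨A, hA0, hA⟩ := logd hl hP hε0
  obtain ⟨A', hA0', hA'⟩ := logd le_rfl hE0 hε0
  set A2 : ℝ := l + A + A' + C + 1 with hA2
  have hA20 : 0 < A2 := by positivity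
  obtain ⟨J0, hJ0⟩ : ∃ J0 : ℕ, 1 ≤ J0 ∧ A2 / J0 ≤ η / 4 := by
    have h1 : Tendsto (fun J : ℕ => A2 / (J : ℝ)) atTop (𝓝 0) :=
      tendsto_const_nhds.div_atTop tendsto_natCast_atTop_atTop
    obtain ⟨J0, hJ0⟩ := eventually_atTop.1 ((eventually_ge_atTop 1).and
      (h1.eventually (ge_mem_nhds (show 0 < η / 4 by positivity))))
    exact ⟨J0, (hJ0 J0 le_rfl).1, (hJ0 J0 le_rfl).2⟩
  refine ⟨J0, fun J hJ => ?_⟩
  have hJ1 : 1 ≤ J := hJ0.1.trans hJ
  have hJR : (1 : ℝ) ≤ J := by exact_mod_cast hJ1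
  have hJp : (0 : ℝ) < J := by linarith
  have hfl : ∀ t : ℝ, 0 ≤ t → 1 ≤ ⌊Real.exp t⌋₊ ∧ Real.log (⌊Real.exp t⌋₊ : ℝ) ≤ t ∧
      t - 1 ≤ Real.log (⌊Real.exp t⌋₊ : ℝ) := by
    intro t ht
    have h1 : 1 ≤ Real.exp t := Real.one_le_exp ht
    have h2 : 1 ≤ ⌊Real.exp t⌋₊ := Nat.one_le_floor_iff _ |>.2 h1
    have h2' : (1 : ℝ) ≤ (⌊Real.exp t⌋₊ : ℝ) := by exact_mod_cast h2
    have h3 := Nat.floor_le (Real.exp_pos t).le
    have h4 := Nat.lt_floor_add_one (Real.exp t)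
    refine ⟨h2, ?_, ?_⟩
    · rw [Real.log_le_iff_le_exp (by linarith)]; exact h3
    · rw [Real.le_log_iff_exp_le (by linarith), Real.exp_sub, div_le_iff₀ (Real.exp_pos 1)]
      have := Real.exp_one_gt_d9
      nlinarith
  -- membership in the sums
  have hle : ∀ (n : ℕ) (t : ℝ), 1 ≤ n → (n ≤ ⌊Real.exp t⌋₊ ↔ Real.log n ≤ t) := by
    intro n t hn
    rw [Nat.le_floor_iff (Real.exp_pos t).le, Real.log_le_iff_le_exp (by exact_mod_cast hn)]
  -- upper bound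
  have hcJ : 0 < c * J := by positivity
  have hup : ∑ n ∈ S J, (1 : ℝ) / n ≤ LB P ⌊Real.exp ((1 + ε) * (c * J))⌋₊ + LB E ⌊Real.exp (C * (J + 1))⌋₊ := by
    have hsub : S J ⊆ (Icc 1 ⌊Real.exp ((1 + ε) * (c * J))⌋₊).filter P ∪
        (Icc 1 ⌊Real.exp (C * (J + 1))⌋₊).filter E := by
      intro n hn
      obtain ⟨h1, h2, h3⟩ := hS J n hn
      rw [mem_union, mem_filter, mem_filter, mem_Icc, mem_Icc]
      by_cases hEn : E n
      · exact Or.inr ⟨⟨h1, (hle n _ h1).2 h3⟩, hEn⟩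
      · exact Or.inl ⟨⟨h1, (hle n _ h1).2 ((hE1 J n h1 h2 hEn).2 hn)⟩, h2⟩
    unfold LB
    refine (sum_le_sum_of_subset_of_nonneg hsub fun _ _ _ => by positivity).trans ?_
    rw [← sum_union_inter]
    have : 0 ≤ ∑ n ∈ (Icc 1 ⌊Real.exp ((1 + ε) * (c * J))⌋₊).filter P ∩
        (Icc 1 ⌊Real.exp (C * (J + 1))⌋₊).filter E, (1 : ℝ) / n := sum_nonneg fun _ _ => by positivity
    linarith
  have hlow : LB P ⌊Real.exp ((1 - ε) * (c * J))⌋₊ - LB E ⌊Real.exp ((1 - ε) * (c * J))⌋₊ ≤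
      ∑ n ∈ S J, (1 : ℝ) / n := by
    have hsub : (Icc 1 ⌊Real.exp ((1 - ε) * (c * J))⌋₊).filter P ⊆ S J ∪
        (Icc 1 ⌊Real.exp ((1 - ε) * (c * J))⌋₊).filter E := by
      intro n hn
      rw [mem_filter, mem_Icc] at hn
      obtain ⟨⟨h1, h2⟩, h3⟩ := hn
      rw [mem_union, mem_filter, mem_Icc]
      by_cases hEn : E n
      · exact Or.inr ⟨⟨h1, h2⟩, hEn⟩
      · exact Or.inl ((hE1 J n h1 h3 hEn).1 ((hle n _ h1).1 h2))
    have h1 : LB P ⌊Real.exp ((1 - ε) * (c * J))⌋₊ ≤ ∑ n ∈ S J ∪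
        (Icc 1 ⌊Real.exp ((1 - ε) * (c * J))⌋₊).filter E, (1 : ℝ) / n := by
      unfold LB
      exact sum_le_sum_of_subset_of_nonneg hsub fun _ _ _ => by positivity
    have h2 := sum_union_inter (s₁ := S J) (s₂ := (Icc 1 ⌊Real.exp ((1 - ε) * (c * J))⌋₊).filter E)
      (f := fun n : ℕ => (1 : ℝ) / n)
    have h3 : 0 ≤ ∑ n ∈ S J ∩ (Icc 1 ⌊Real.exp ((1 - ε) * (c * J))⌋₊).filter E, (1 : ℝ) / n :=
      sum_nonneg fun _ _ => by positivity
    unfold LB at h1 ⊢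
    linarith
  obtain ⟨a1, a2, a3⟩ := hfl ((1 + ε) * (c * J)) (by positivity)
  obtain ⟨b1, b2, b3⟩ := hfl (C * (J + 1)) (by positivity)
  obtain ⟨c1, c2, c3⟩ := hfl ((1 - ε) * (c * J)) (mul_nonneg (by linarith) hcJ.le)
  have u1 := (abs_le.1 (hA _ a1)).2
  have u2 := (abs_le.1 (hA' _ b1)).2
  have v1 := (abs_le.1 (hA _ c1)).1
  have v2 := (abs_le.1 (hA' _ c1)).2
  rw [zero_mul, sub_zero] at u2 v2
  have hupper : ∑ n ∈ S J, (1 : ℝ) / n ≤ l * c * J + ε * K1 * J + A2 := by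
    have g1 : l * Real.log (⌊Real.exp ((1 + ε) * (c * J))⌋₊ : ℝ) ≤ l * ((1 + ε) * (c * J)) :=
      mul_le_mul_of_nonneg_left a2 hl
    have g2 : ε * Real.log (⌊Real.exp ((1 + ε) * (c * J))⌋₊ : ℝ) ≤ ε * (2 * (c * J)) :=
      mul_le_mul_of_nonneg_left (a2.trans (mul_le_mul_of_nonneg_right (by linarith) hcJ.le)) hε0.le
    have g3 : ε * Real.log (⌊Real.exp (C * (J + 1))⌋₊ : ℝ) ≤ ε * (C * J) + C := by
      refine (mul_le_mul_of_nonneg_left b2 hε0.le).trans ?_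
      have : ε * C ≤ 1 * C := mul_le_mul_of_nonneg_right hε1 hC.le
      nlinarith
    have e : l * c * J + ε * K1 * J + A2 = l * ((1 + ε) * (c * J)) + ε * (2 * (c * J)) + (ε * (C * J) + C) +
        (l + A + A' + 1) := by rw [hK1, hA2]; ring
    rw [e]
    linarith
  have hlower : l * c * J - ε * K1 * J - A2 ≤ ∑ n ∈ S J, (1 : ℝ) / n := by
    have g1 : l * ((1 - ε) * (c * J) - 1) ≤ l * Real.log (⌊Real.exp ((1 - ε) * (c * J))⌋₊ : ℝ) :=
      mul_le_mul_of_nonneg_left c3 hl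
    have g2 : ε * Real.log (⌊Real.exp ((1 - ε) * (c * J))⌋₊ : ℝ) ≤ ε * (c * J) :=
      mul_le_mul_of_nonneg_left (c2.trans (by nlinarith)) hε0.le
    have e : l * c * J - ε * K1 * J - A2 = l * ((1 - ε) * (c * J) - 1) - 2 * (ε * (c * J)) - A - A' -
        (ε * (C * J) + C + 1) := by rw [hK1, hA2]; ring
    have g3 : 0 ≤ ε * (C * J) := by positivity
    rw [e]
    linarith
  rw [Real.dist_eq]
  have e : (∑ n ∈ S J, (1 : ℝ) / n) / J - l * c = (∑ n ∈ S J, (1 : ℝ) / n - l * c * J) / J := by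
    field_simp
  rw [e, abs_div, abs_of_pos hJp, div_lt_iff₀ hJp]
  have h1 : |∑ n ∈ S J, (1 : ℝ) / n - l * c * J| ≤ ε * K1 * J + A2 := by
    rw [abs_le]; constructor <;> linarith
  have h2 : A2 ≤ η / 4 * J := by
    have h3 := hJ0.2
    have h4 : (0 : ℝ) < J0 := by exact_mod_cast hJ0.1
    rw [div_le_iff₀ h4] at h3
    have h5 : (J0 : ℝ) ≤ J := by exact_mod_cast hJ
    have : η / 4 * (J0 : ℝ) ≤ η / 4 * J := mul_le_mul_of_nonneg_left h5 (by positivity)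
    linarith
  have h3 : ε * K1 * J ≤ η / 4 * J := mul_le_mul_of_nonneg_right hε2 hJp.le
  have h4 : 0 < η * J := by positivity
  linarith

end Pool.Agent.R344.LS
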