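import Pool.Agent.R344.LS.E
import Pool.Agent.R344.LS.F
import Pool.Agent.H499R2.LT.R1
import Pool.Agent.H499R2.NDCol

/-!
Level sums, part 7: the law of large numbers for the three statistics.
-/

set_option autoImplicit false

namespace Pool.Agent.R344.LS

open Finset Filter Topology
open Pool.Agent.H499R2.LT
open Pool.Agent.H499R2.ND (Td Dn cnt cnt_eq cnt_or cnt_mono zd_iff zd_mono zd_or zd_log mu_pos' cop_of_not_dvd sg Phi)
open Pool.Agent.H319R2.Lln (mu)

theorem Phi_top : Tendsto Phi atTop (𝓝 1) := by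
  have h := ProbabilityTheory.tendsto_cdf_atTop (ProbabilityTheory.gaussianReal 0 1)
  refine h.congr fun x => ?_
  rw [ProbabilityTheory.cdf_eq_real]
  rfl

theorem Phi_bot : Tendsto Phi atBot (𝓝 0) := by
  have h := ProbabilityTheory.tendsto_cdf_atBot (ProbabilityTheory.gaussianReal 0 1)
  refine h.congr fun x => ?_
  rw [ProbabilityTheory.cdf_eq_real]
  rfl

theorem cnt_diff {P Q : ℕ → Prop} (h : ∀ n, Q n → P n) (N : ℕ) :
    cnt (fun n => P n ∧ ¬ Q n) N = cnt P N - cnt Q N := by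
  classical
  rw [cnt_eq, cnt_eq, cnt_eq]
  have h1 : (Icc 1 N).filter P = (Icc 1 N).filter (fun n => P n ∧ ¬ Q n) ∪ (Icc 1 N).filter Q := by
    ext n
    simp only [mem_filter, mem_union]
    by_cases hQ : Q n
    · have := h n hQ
      tauto
    · tauto
  have h2 : Disjoint ((Icc 1 N).filter (fun n => P n ∧ ¬ Q n)) ((Icc 1 N).filter Q) := by
    rw [disjoint_left]
    intro n h3 h4
    exact (mem_filter.1 h3).2.2 (mem_filter.1 h4).2
  rw [h1, card_union_of_disjoint h2]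
  push_cast
  ring

theorem lln_ht {d : ℤ} (hd : Odd d) (hd3 : ¬ (3 : ℤ) ∣ d) (F : Finset ℤ) : ∃ δ : ℝ, 0 ≤ δ ∧
    ((∃ a ∈ F, 0 < a ∧ ¬ (3 : ℤ) ∣ a) → 0 < δ) ∧
    Dn (fun n : ℕ => (n : ℤ) ∈ RR d F) δ ∧
    ∀ ε : ℝ, 0 < ε → Dn (fun n : ℕ => (n : ℤ) ∈ RR d F ∧
      ε * Real.log n < |(ht d F n : ℝ) * mu - Real.log n|) 0 := by
  obtain ⟨δ, c, hδ0, _, _, hpos, hden, hclt, _⟩ := laws_side hd hd3 (s := 1) (Or.inl rfl) F
  simp only [one_mul] at hpos hden hclt
  refine ⟨δ, hδ0, hpos, hden, ?_⟩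
  intro ε hε
  have hmu := mu_pos'
  rw [zd_iff]
  intro η hη
  -- the point
  have ht1 : Tendsto (fun x : ℝ => δ - δ * Phi x) atTop (𝓝 (δ - δ * 1)) :=
    tendsto_const_nhds.sub (Phi_top.const_mul δ)
  have ht2 : Tendsto (fun x : ℝ => δ * Phi (-x)) atTop (𝓝 (δ * 0)) :=
    (Phi_bot.comp tendsto_neg_atTop_atBot).const_mul δ
  rw [mul_one, sub_self] at ht1
  rw [mul_zero] at ht2
  obtain ⟨x, hx⟩ := ((ht1.eventually (gt_mem_nhds (show 0 < η / 8 by positivity))).and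
    ((ht2.eventually (gt_mem_nhds (show 0 < η / 8 by positivity))).and (eventually_ge_atTop 0))).exists
  obtain ⟨hx1, hx2, hx0⟩ := hx
  set Q : ℝ → ℕ → Prop := fun x n => ∃ k : ℕ, (k : ℝ) ≤ Real.log n / mu + x * sg * Real.sqrt (Real.log n) ∧
    (Td d)^[k] (n : ℤ) ∈ F with hQ
  have hQ1 : ∀ (x : ℝ) (n : ℕ), Q x n → (n : ℤ) ∈ RR d F ∧
      (ht d F n : ℝ) ≤ Real.log n / mu + x * sg * Real.sqrt (Real.log n) := by
    rintro x n ⟨k, hk1, hk2⟩
    have h1 : (n : ℤ) ∈ RR d F := ⟨k, hk2⟩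
    refine ⟨h1, le_trans ?_ hk1⟩
    have h2 := (ht_spec h1).2
    by_contra hcon
    push Not at hcon
    exact h2 k (by exact_mod_cast hcon) hk2
  have hQ2 : ∀ (x : ℝ) (n : ℕ), (n : ℤ) ∈ RR d F →
      (ht d F n : ℝ) ≤ Real.log n / mu + x * sg * Real.sqrt (Real.log n) → Q x n :=
    fun x n h1 h2 => ⟨ht d F n, h2, (ht_spec h1).1⟩
  set L0 : ℝ := (x * sg * mu / ε) ^ 2 with hL0
  have hz := zd_iff.1 (zd_log L0) (η / 4) (by positivity)
  have e1 : ∀ᶠ N : ℕ in atTop, cnt (fun n : ℕ => (n : ℤ) ∈ RR d F) N / N - cnt (Q x) N / N < η / 4 := by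
    have h1 : Tendsto (fun N : ℕ => cnt (fun n : ℕ => (n : ℤ) ∈ RR d F) N / N - cnt (Q x) N / N) atTop
        (𝓝 (δ - δ * Phi x)) := by
      have h2 := hclt x
      exact Tendsto.sub hden h2
    exact h1.eventually (gt_mem_nhds (by linarith))
  have e2 : ∀ᶠ N : ℕ in atTop, cnt (Q (-x)) N / N < η / 4 := by
    have h2 : Tendsto (fun N : ℕ => cnt (Q (-x)) N / N) atTop (𝓝 (δ * Phi (-x))) := hclt (-x)
    exact h2.eventually (gt_mem_nhds (by linarith))
  filter_upwards [e1, e2, hz, eventually_ge_atTop 1] with N h1 h2 h3 h4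
  have hN : (0 : ℝ) < N := by exact_mod_cast h4
  rw [← sub_div, div_lt_iff₀ hN] at h1
  rw [div_lt_iff₀ hN] at h2
  have h5 : cnt (fun n : ℕ => (n : ℤ) ∈ RR d F ∧ ε * Real.log n < |(ht d F n : ℝ) * mu - Real.log n|) N ≤
      cnt (fun n : ℕ => (n : ℤ) ∈ RR d F ∧ ¬ Q x n) N + cnt (fun n => Q (-x) n ∨ Real.log n ≤ L0) N := by
    apply cnt_or
    intro n hn _ ⟨g1, g2⟩
    by_cases hL : Real.log n ≤ L0
    · exact Or.inr (Or.inr hL)
    · push Not at hL
      have hl0 : 0 ≤ Real.log n := Real.log_nonneg (by exact_mod_cast hn)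
      have hsq : x * sg * mu / ε ≤ Real.sqrt (Real.log n) := by
        apply Real.le_sqrt_of_sq_le
        exact hL.le
      have hkey : x * sg * Real.sqrt (Real.log n) ≤ ε * Real.log n / mu := by
        rw [div_le_iff₀ hε] at hsq
        rw [le_div_iff₀ hmu]
        have h6 := mul_le_mul_of_nonneg_right hsq (Real.sqrt_nonneg (Real.log n))
        have h7 : Real.sqrt (Real.log n) * ε * Real.sqrt (Real.log n) = ε * Real.log n := by
          rw [mul_right_comm, Real.mul_self_sqrt hl0, mul_comm]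
        rw [h7] at h6
        calc x * sg * Real.sqrt (Real.log n) * mu = x * sg * mu * Real.sqrt (Real.log n) := by ring
          _ ≤ _ := h6
      rcases lt_abs.1 g2 with g3 | g3
      · left
        refine ⟨g1, fun hq => ?_⟩
        have h6 := (hQ1 x n hq).2
        have h7 : (ht d F n : ℝ) ≤ Real.log n / mu + ε * Real.log n / mu := h6.trans (by linarith)
        rw [← add_div, le_div_iff₀ hmu] at h7
        linarith
      · right
        left
        apply hQ2 _ _ g1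
        have h7 : (ht d F n : ℝ) * mu ≤ Real.log n - ε * Real.log n := by linarith
        rw [← le_div_iff₀ hmu, sub_div] at h7
        linarith
  have h6 : cnt (fun n => Q (-x) n ∨ Real.log n ≤ L0) N ≤ cnt (Q (-x)) N + cnt (fun n : ℕ => Real.log n ≤ L0) N :=
    cnt_or N fun n _ _ h => h
  rw [cnt_diff (fun n hn => (hQ1 x n hn).1)] at h5
  have h8 : 0 ≤ η * (N : ℝ) := by positivity
  linarith

/-- the number of odd terms is half of the number of steps -/
theorem lln_all {d : ℤ} (hd : Odd d) (hd3 : ¬ (3 : ℤ) ∣ d) (F : Finset ℤ) : ∃ δ : ℝ, 0 ≤ δ ∧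
    ((∃ a ∈ F, 0 < a ∧ ¬ (3 : ℤ) ∣ a) → 0 < δ) ∧
    Dn (fun n : ℕ => (n : ℤ) ∈ RR d F) δ ∧
    ∀ ε : ℝ, 0 < ε → ∃ E : ℕ → Prop, Dn E 0 ∧ ∀ n : ℕ, 1 ≤ n → (n : ℤ) ∈ RR d F → ¬ E n →
      0 < Real.log n ∧ |(ht d F n : ℝ) * mu - Real.log n| ≤ ε * Real.log n ∧
      |(ho d F n : ℝ) * (2 * mu) - Real.log n| ≤ ε * Real.log n ∧
      |((ht d F n : ℝ) + ho d F n) * (2 / 3 * mu) - Real.log n| ≤ ε * Real.log n := by
  obtain ⟨δ, h0, h1, h2, h3⟩ := lln_ht hd hd3 F
  obtain ⟨C, hC, hs⟩ := size hd (cop_of_not_dvd hd3) F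
  refine ⟨δ, h0, h1, h2, ?_⟩
  intro ε hε
  set ε1 : ℝ := ε / 8 with hε1
  have hε1' : 0 < ε1 := by positivity
  refine ⟨fun n => ((n : ℤ) ∈ RR d F ∧ ε1 * Real.log n < |(ht d F n : ℝ) * mu - Real.log n|) ∨
    Real.log n ≤ C / ε1, zd_or (h3 ε1 hε1') (zd_log (C / ε1)) fun n _ h => h, ?_⟩
  intro n hn hR hE
  push Not at hE
  obtain ⟨hE1, hE2⟩ := hE
  have hE1' := hE1 hR
  have hCl : C ≤ ε1 * Real.log n := by
    rw [div_lt_iff₀ hε1'] at hE2
    linarith
  have hlog : 0 < Real.log n := lt_trans (by positivity) hE2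
  have hsz := hs n (by omega) hR
  have hn0 : ((n : ℤ) : ℝ) = n := by simp
  rw [hn0] at hsz
  have hmu : mu = Real.log 2 - Real.log 3 / 2 := by
    unfold mu
    have : Real.log (4 / 3) = 2 * Real.log 2 - Real.log 3 := by
      rw [Real.log_div (by norm_num) (by norm_num), show (4 : ℝ) = 2 ^ 2 by norm_num, Real.log_pow]
      push_cast; ring
    rw [this]
    ring
  have hl3 : 1 ≤ Real.log 3 := by
    rw [Real.le_log_iff_exp_le (by norm_num)]
    linarith [Real.exp_one_lt_d9]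
  have hmu0 := mu_pos'
  have hmu1 : mu ≤ 1 / 2 := by
    rw [hmu]
    have := Real.log_two_lt_d9
    linarith
  set h : ℝ := (ht d F n : ℝ) with hh
  set o : ℝ := (ho d F n : ℝ) with hho
  obtain ⟨a1, a2⟩ := abs_le.1 hE1'
  obtain ⟨b1, b2⟩ := abs_le.1 hsz
  -- `(2 o - h) log 3 / 2 = h mu - log n + O(C)`
  have hid : (2 * o - h) * (Real.log 3 / 2) = (Real.log n + o * Real.log 3 - h * Real.log 2) +
      (h * mu - Real.log n) := by
    rw [hmu]; ring
  have hdev : |2 * o - h| ≤ 4 * (ε1 * Real.log n) := by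
    have e : |2 * o - h| * (Real.log 3 / 2) ≤ 2 * (ε1 * Real.log n) := by
      rw [← abs_of_pos (show 0 < Real.log 3 / 2 by linarith), ← abs_mul, hid]
      rw [abs_le]
      constructor <;> linarith
    have := abs_nonneg (2 * o - h)
    nlinarith
  obtain ⟨c1, c2⟩ := abs_le.1 hdev
  have hel : 0 < ε1 * Real.log n := by positivity
  have hd1 : |(2 * o - h) * mu| ≤ 2 * (ε1 * Real.log n) := by
    rw [abs_mul, abs_of_pos hmu0]
    have := abs_nonneg (2 * o - h)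
    nlinarith
  obtain ⟨d1, d2⟩ := abs_le.1 hd1
  have hfin : ε * Real.log n = 8 * (ε1 * Real.log n) := by rw [hε1]; ring
  rw [hfin]
  refine ⟨hlog, by linarith, ?_, ?_⟩
  · rw [abs_le]
    constructor <;> nlinarith
  · rw [abs_le]
    constructor <;> nlinarith

end Pool.Agent.R344.LS
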