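import Pool.Agent.R344.LS.V
import Pool.Agent.R344.LS.G

/-!
Level sums, part 20: the theorem of de Moivre and Laplace.
-/

set_option autoImplicit false

namespace Pool.Agent.R344.LS

open Finset Filter Topology MeasureTheory ProbabilityTheory
open Pool.Agent.H499R2.ND (Phi)

theorem cos_pow (t : ℝ) :
    Tendsto (fun n : ℕ => Real.cos (t / Real.sqrt n) ^ n) atTop (𝓝 (Real.exp (-(t ^ 2 / 2)))) := by
  have h : Tendsto (fun n : ℕ => (1 + (Real.cos (t / Real.sqrt n) - 1)) ^ n) atTop
      (𝓝 (Real.exp (-(t ^ 2 / 2)))) := by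
    apply Real.tendsto_one_add_pow_exp_of_tendsto
    rw [tendsto_iff_norm_sub_tendsto_zero]
    have h0 : Tendsto (fun n : ℕ => (t ^ 4 * (5 / 96)) * (1 / (n : ℝ))) atTop (𝓝 0) := by
      have := (tendsto_one_div_atTop_nhds_zero_nat (𝕜 := ℝ)).const_mul (t ^ 4 * (5 / 96))
      simpa using this
    apply squeeze_zero' (Eventually.of_forall fun n => norm_nonneg _) _ h0
    obtain ⟨N, hN⟩ := exists_nat_ge (t ^ 2)
    filter_upwards [eventually_ge_atTop (max N 1)] with n hn
    have hn1 : (1 : ℝ) ≤ n := by exact_mod_cast (le_max_right N 1).trans hn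
    have hnN : t ^ 2 ≤ n := hN.trans (by exact_mod_cast (le_max_left N 1).trans hn)
    have hsq : Real.sqrt n ^ 2 = n := Real.sq_sqrt (by positivity)
    have hs0 : 0 < Real.sqrt n := by positivity
    have h1 : |t / Real.sqrt n| ≤ 1 := by
      rw [abs_div, abs_of_pos hs0, div_le_one hs0]
      apply abs_le_of_sq_le_sq _ hs0.le
      rw [hsq]; exact hnN
    have h2 := Real.cos_bound h1
    have h3 : (t / Real.sqrt n) ^ 2 = t ^ 2 / n := by rw [div_pow, hsq]
    have h4 : |t / Real.sqrt n| ^ 4 = t ^ 4 / n ^ 2 := by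
      have : |t / Real.sqrt n| ^ 4 = ((t / Real.sqrt n) ^ 2) ^ 2 := by
        rw [← sq_abs (t / Real.sqrt n)]; ring
      rw [this, h3]; field_simp
    rw [h3, h4] at h2
    rw [Real.norm_eq_abs]
    have h5 : (n : ℝ) * (Real.cos (t / Real.sqrt n) - 1) - -(t ^ 2 / 2) =
        n * (Real.cos (t / Real.sqrt n) - (1 - t ^ 2 / n / 2)) := by
      field_simp
      ring
    rw [h5, abs_mul, abs_of_pos (show (0 : ℝ) < n by linarith)]
    calc (n : ℝ) * |Real.cos (t / Real.sqrt n) - (1 - t ^ 2 / n / 2)| ≤ n * (t ^ 4 / n ^ 2 * (5 / 96)) :=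
          mul_le_mul_of_nonneg_left h2 (by positivity)
      _ = t ^ 4 * (5 / 96) * (1 / n) := by field_simp
  simpa using h

/-- the law of the normalised walk -/
noncomputable def bw (k : ℕ) : Measure ℝ :=
  ∑ o ∈ range (k + 1), ENNReal.ofReal (G k (o : ℤ)) • Measure.dirac ((2 * (o : ℝ) - k) / Real.sqrt k)

theorem sum_G (k : ℕ) : ∑ o ∈ range (k + 1), G k (o : ℤ) = 1 := (mom k).1

instance bw_prob (k : ℕ) : IsProbabilityMeasure (bw k) := by
  constructor
  unfold bw
  rw [Measure.finsetSum_apply]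
  simp only [Measure.smul_apply, measure_univ, smul_eq_mul, mul_one]
  rw [← ENNReal.ofReal_sum_of_nonneg (f := fun o : ℕ => G k (o : ℤ)) (fun o _ => G_nonneg k _), sum_G,
    ENNReal.ofReal_one]

theorem bw_charFun (k : ℕ) (t : ℝ) : charFun (bw k) t = ((Real.cos (t / Real.sqrt k) ^ k : ℝ) : ℂ) := by
  rw [charFun_apply_real]
  unfold bw
  rw [integral_finsetSum_measure]
  · have h1 : ∀ o ∈ range (k + 1), ∫ x, Complex.exp (t * x * Complex.I) ∂(ENNReal.ofReal (G k (o : ℤ)) •
        Measure.dirac ((2 * (o : ℝ) - k) / Real.sqrt k)) =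
        Complex.exp ((t / Real.sqrt k : ℝ) * Complex.I) ^ o * Complex.exp (-((t / Real.sqrt k : ℝ) * Complex.I)) ^ (k - o) *
          (k.choose o : ℂ) / 2 ^ k := by
      intro o ho
      rw [mem_range] at ho
      rw [integral_smul_measure, integral_dirac, ENNReal.toReal_ofReal (G_nonneg k o), G_nat, ← Complex.exp_nat_mul,
        ← Complex.exp_nat_mul, ← Complex.exp_add]
      rw [Complex.real_smul]
      push_cast [Nat.cast_sub (show o ≤ k by omega)]
      have e : (t : ℂ) * ((2 * (o : ℂ) - k) / (Real.sqrt k : ℝ)) * Complex.I = (o : ℂ) * ((t : ℂ) / (Real.sqrt k : ℝ) * Complex.I)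
          + ((k : ℂ) - o) * -((t : ℂ) / (Real.sqrt k : ℝ) * Complex.I) := by ring
      rw [e]
      ring
    rw [sum_congr rfl h1, ← sum_div, ← add_pow, ← div_pow]
    rw [Complex.ofReal_pow]
    congr 1
    rw [Complex.ofReal_cos, Complex.cos]
    push_cast
    ring_nf
  · intro o _
    apply Integrable.smul_measure _ ENNReal.ofReal_ne_top
    apply integrable_dirac
    exact enorm_lt_top

theorem no_atom (x : ℝ) : (gaussianReal 0 1) {x} = 0 := by
  have : NullSingletonClass (gaussianReal 0 1) :=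
    nullSingletonClass_gaussianReal (μ := 0) (v := 1) one_ne_zero
  exact measure_singleton x

/-- the law of the normalised walk, as a probability measure -/
noncomputable def bwP (k : ℕ) : ProbabilityMeasure ℝ := ⟨bw k, bw_prob k⟩

/-- the normal law, as a probability measure -/
noncomputable def gaP : ProbabilityMeasure ℝ := ⟨gaussianReal 0 1, inferInstance⟩

theorem bw_lim (x : ℝ) : Tendsto (fun k : ℕ => (bw k).real (Set.Iic x)) atTop (𝓝 (Phi x)) := by
  have h : Tendsto bwP atTop (𝓝 gaP) := by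
    rw [ProbabilityMeasure.tendsto_iff_tendsto_charFun]
    intro t
    have e1 : charFun (gaussianReal 0 1) t = ((Real.exp (-(t ^ 2 / 2)) : ℝ) : ℂ) := by
      rw [charFun_gaussianReal]
      push_cast
      congr 1
      simp
    show Tendsto (fun k => charFun (bw k) t) atTop (𝓝 (charFun (gaussianReal 0 1) t))
    rw [e1]
    simp only [bw_charFun]
    exact (Complex.continuous_ofReal.tendsto _).comp (cos_pow t)
  have h1 : Tendsto (fun k => (bw k) (Set.Iic x)) atTop (𝓝 ((gaussianReal 0 1) (Set.Iic x))) := by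
    refine ProbabilityMeasure.tendsto_measure_of_null_frontier_of_tendsto' h (E := Set.Iic x) ?_
    rw [frontier_Iic]
    exact no_atom x
  exact (ENNReal.tendsto_toReal (measure_ne_top (gaussianReal 0 1) _)).comp h1

theorem bw_real (k : ℕ) (x : ℝ) : (bw k).real (Set.Iic x) =
    ∑ o ∈ (range (k + 1)).filter (fun o : ℕ => (2 * (o : ℝ) - k) / Real.sqrt k ≤ x), G k (o : ℤ) := by
  classical
  unfold bw
  rw [measureReal_def, Measure.finsetSum_apply, ENNReal.toReal_sum, sum_filter]
  · apply sum_congr rfl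
    intro o _
    rw [Measure.smul_apply, Measure.dirac_apply' _ measurableSet_Iic, smul_eq_mul, ENNReal.toReal_mul,
      ENNReal.toReal_ofReal (G_nonneg k o)]
    by_cases h : (2 * (o : ℝ) - k) / Real.sqrt k ≤ x
    · rw [if_pos h, Set.indicator_of_mem (by exact h)]; simp
    · rw [if_neg h, Set.indicator_of_notMem (by exact h)]; simp
  · intro o _
    rw [Measure.smul_apply, smul_eq_mul]
    exact ENNReal.mul_ne_top ENNReal.ofReal_ne_top (measure_ne_top _ _)

end Pool.Agent.R344.LS
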