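import Pool.Agent.R344.LS.AB

/-!
Level sums, part 21: the normal law on the levels.
-/

set_option autoImplicit false

namespace Pool.Agent.R344.LS

open Finset Filter Topology
open Pool.Agent.H499R2.LT
open Pool.Agent.H499R2.ND (Td Dn Tn Bas Bas_density cop_of_not_dvd side_odd cnt cnt_eq Phi Phi_mono Phi_continuous)

open Classical in
/-- the members of the level `k` -/
noncomputable def Lv (k : ℕ) : Finset ℕ := (range (2 ^ k + 1)).filter fun n => 1 ≤ n ∧ Stops k n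

theorem mem_Lv {k n : ℕ} : n ∈ Lv k ↔ 1 ≤ n ∧ Stops k n := by
  classical
  unfold Lv
  rw [mem_filter, mem_range]
  refine ⟨fun h => h.2, fun h => ⟨?_, h⟩⟩
  have := le_two_pow k n h.2.1
  omega

open Classical in
theorem tsum_Lv (k : ℕ) (P : ℕ → Prop) :
    ∑' n : {n : ℕ | 1 ≤ n ∧ Stops k n ∧ P n}, (1 : ℝ) / ((n : ℕ) : ℝ) = ∑ n ∈ (Lv k).filter P, (1 : ℝ) / (n : ℝ) := by
  have e : {n : ℕ | 1 ≤ n ∧ Stops k n ∧ P n} = (((Lv k).filter P : Finset ℕ) : Set ℕ) := by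
    ext n
    simp only [Set.mem_ofPred_eq, coe_filter, mem_Lv]
    tauto
  rw [e]
  exact Finset.tsum_subtype' ((Lv k).filter P) fun n : ℕ => (1 : ℝ) / (n : ℝ)

open Classical in
/-- the law of the levels for sets of numbers of odd terms -/
theorem sets_law {c : ℝ} (hT : Tendsto (fun k : ℕ => ∑ o ∈ range (k + 1),
      |∑' n : {n : ℕ | 1 ≤ n ∧ Stops k n ∧ odds k n = o}, (1 : ℝ) / ((n : ℕ) : ℝ) -
        c * ((k.choose o : ℝ) / 2 ^ k)|) atTop (𝓝 0)) (B : ℕ → ℕ → Prop) :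
    Tendsto (fun k : ℕ => ∑ n ∈ (Lv k).filter (fun n => B k (odds k n)), (1 : ℝ) / (n : ℝ) -
      c * ∑ o ∈ (range (k + 1)).filter (B k), G k (o : ℤ)) atTop (𝓝 0) := by
  rw [tendsto_zero_iff_abs_tendsto_zero]
  refine squeeze_zero (fun k => abs_nonneg _) (fun k => ?_) hT
  have h1 : ∑ n ∈ (Lv k).filter (fun n => B k (odds k n)), (1 : ℝ) / (n : ℝ) =
      ∑ o ∈ (range (k + 1)).filter (B k), ∑ n ∈ (Lv k).filter (fun n => odds k n = o), (1 : ℝ) / (n : ℝ) := by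
    rw [← Finset.sum_fiberwise_of_maps_to (s := (Lv k).filter (fun n => B k (odds k n)))
      (t := (range (k + 1)).filter (B k)) (g := fun n => odds k n)]
    · apply sum_congr rfl
      intro o ho
      rw [mem_filter] at ho
      congr 1
      ext n
      simp only [mem_filter]
      constructor
      · rintro ⟨⟨h1, h2⟩, h3⟩
        exact ⟨h1, h3⟩
      · rintro ⟨h1, h3⟩
        exact ⟨⟨h1, by rw [h3]; exact ho.2⟩, h3⟩
    · intro n hn
      rw [mem_filter] at hn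
      rw [mem_filter, mem_range]
      exact ⟨by have := odds_le k n; omega, hn.2⟩
  show |∑ n ∈ (Lv k).filter (fun n => B k (odds k n)), (1 : ℝ) / (n : ℝ) -
      c * ∑ o ∈ (range (k + 1)).filter (B k), G k (o : ℤ)| ≤ _
  rw [h1, mul_sum, ← sum_sub_distrib]
  refine (abs_sum_le_sum_abs _ _).trans ?_
  refine (sum_le_sum_of_subset_of_nonneg (filter_subset _ _) fun _ _ _ => abs_nonneg _).trans ?_
  apply le_of_eq
  apply sum_congr rfl
  intro o _
  rw [tsum_Lv, G_nat]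
  congr!

open Classical in
/-- the normal law on the levels, in terms of the number of odd terms -/
theorem odds_law {c : ℝ} (hT : Tendsto (fun k : ℕ => ∑ o ∈ range (k + 1),
      |∑' n : {n : ℕ | 1 ≤ n ∧ Stops k n ∧ odds k n = o}, (1 : ℝ) / ((n : ℕ) : ℝ) -
        c * ((k.choose o : ℝ) / 2 ^ k)|) atTop (𝓝 0)) (x : ℝ) :
    Tendsto (fun k : ℕ => ∑ n ∈ (Lv k).filter (fun n => (2 * (odds k n : ℝ) - k) / Real.sqrt k ≤ x),
      (1 : ℝ) / (n : ℝ)) atTop (𝓝 (c * Phi x)) := by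
  have h1 := sets_law hT fun k o => (2 * (o : ℝ) - k) / Real.sqrt k ≤ x
  have h2 : Tendsto (fun k : ℕ => c * ∑ o ∈ (range (k + 1)).filter
      (fun o : ℕ => (2 * (o : ℝ) - k) / Real.sqrt k ≤ x), G k (o : ℤ)) atTop (𝓝 (c * Phi x)) := by
    apply Tendsto.const_mul
    refine (bw_lim x).congr fun k => ?_
    rw [bw_real]
  have h3 := h1.add h2
  rw [zero_add] at h3
  refine h3.congr fun k => ?_
  ring

open Classical in
/-- the normal law on the levels -/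
theorem gauss_law {c : ℝ} (hT : Tendsto (fun k : ℕ => ∑ o ∈ range (k + 1),
      |∑' n : {n : ℕ | 1 ≤ n ∧ Stops k n ∧ odds k n = o}, (1 : ℝ) / ((n : ℕ) : ℝ) -
        c * ((k.choose o : ℝ) / 2 ^ k)|) atTop (𝓝 0)) (x : ℝ) (P : ℕ → ℕ → Prop)
    (hP : ∀ ε : ℝ, 0 < ε → ∃ k1 : ℕ, ∀ k ≥ k1, ∀ n : ℕ, 1 ≤ n → Stops k n →
      ((2 * (odds k n : ℝ) - k) / Real.sqrt k ≤ x - ε → P k n) ∧
      (P k n → (2 * (odds k n : ℝ) - k) / Real.sqrt k ≤ x + ε)) :
    Tendsto (fun k : ℕ => ∑' n : {n : ℕ | 1 ≤ n ∧ Stops k n ∧ P k n}, (1 : ℝ) / ((n : ℕ) : ℝ))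
      atTop (𝓝 (c * Phi x)) := by
  have hc : Continuous fun y : ℝ => c * Phi y := Phi_continuous.const_mul c
  rw [Metric.tendsto_atTop]
  intro e he
  have hcx := hc.continuousAt (x := x)
  rw [Metric.continuousAt_iff] at hcx
  obtain ⟨η, hη, hηx⟩ := hcx (e / 2) (by positivity)
  have a1 := @hηx (x - η / 2) (by rw [Real.dist_eq, show x - η / 2 - x = -(η / 2) by ring, abs_neg, abs_of_pos (by positivity)]; linarith)
  have a2 := @hηx (x + η / 2) (by rw [Real.dist_eq, show x + η / 2 - x = η / 2 by ring, abs_of_pos (by positivity)]; linarith)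
  obtain ⟨k1, hk1⟩ := hP (η / 2) (by positivity)
  have b1 := odds_law hT (x - η / 2)
  have b2 := odds_law hT (x + η / 2)
  rw [Metric.tendsto_atTop] at b1 b2
  obtain ⟨k2, hk2⟩ := b1 (e / 2) (by positivity)
  obtain ⟨k3, hk3⟩ := b2 (e / 2) (by positivity)
  refine ⟨max k1 (max k2 k3), fun k hk => ?_⟩
  have c1 := hk1 k ((le_max_left _ _).trans hk)
  have c2 := hk2 k (((le_max_left _ _).trans (le_max_right _ _)).trans hk)
  have c3 := hk3 k (((le_max_right _ _).trans (le_max_right _ _)).trans hk)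
  rw [Real.dist_eq, abs_lt] at *
  rw [tsum_Lv]
  have d1 : ∑ n ∈ (Lv k).filter (fun n => (2 * (odds k n : ℝ) - k) / Real.sqrt k ≤ x - η / 2), (1 : ℝ) / (n : ℝ) ≤
      ∑ n ∈ (Lv k).filter (P k), (1 : ℝ) / (n : ℝ) := by
    apply sum_le_sum_of_subset_of_nonneg
    · intro n hn
      rw [mem_filter] at hn ⊢
      exact ⟨hn.1, (c1 n (mem_Lv.1 hn.1).1 (mem_Lv.1 hn.1).2).1 hn.2⟩
    · intro _ _ _
      positivity
  have d2 : ∑ n ∈ (Lv k).filter (P k), (1 : ℝ) / (n : ℝ) ≤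
      ∑ n ∈ (Lv k).filter (fun n => (2 * (odds k n : ℝ) - k) / Real.sqrt k ≤ x + η / 2), (1 : ℝ) / (n : ℝ) := by
    apply sum_le_sum_of_subset_of_nonneg
    · intro n hn
      rw [mem_filter] at hn ⊢
      exact ⟨hn.1, (c1 n (mem_Lv.1 hn.1).1 (mem_Lv.1 hn.1).2).2 hn.2⟩
    · intro _ _ _
      positivity
  constructor <;> linarith [a1.1, a1.2, a2.1, a2.2, c2.1, c2.2, c3.1, c3.2]

end Pool.Agent.R344.LS
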