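import Pool.Agent.R344.LS.AC

/-!
Level sums, part 22: the normal law of the scaled stopping times on the levels.
-/

set_option autoImplicit false

namespace Pool.Agent.R344.LS

open Finset Filter Topology
open Pool.Agent.H499R2.LT
open Pool.Agent.H499R2.ND (Td Dn Tn Bas Bas_density cop_of_not_dvd side_odd cnt cnt_eq Phi Phi_mono Phi_continuous)

/-- the threshold for the scaled stopping times on the level `k` -/
noncomputable def thr (x : ℝ) (k : ℕ) : ℝ :=
  2 / Real.log (4 / 3) + x * (2 * Real.log 3 / (Real.log (4 / 3) ^ 2 * Real.sqrt k))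

theorem thr_iff {C : ℝ} (hC : 0 < C) (x ε : ℝ) (hε : 0 < ε) : ∃ k1 : ℕ, ∀ k ≥ k1, ∀ o L : ℝ, 0 < L →
    |L + o * Real.log 3 - k * Real.log 2| ≤ C →
    ((2 * o - k) / Real.sqrt k ≤ x - ε → (k : ℝ) / L ≤ thr x k) ∧
    ((k : ℝ) / L ≤ thr x k → (2 * o - k) / Real.sqrt k ≤ x + ε) := by
  set lam := Real.log (4 / 3) with hlam
  have hl : 0 < lam := Real.log_pos (by norm_num)
  have hl3 : 0 < Real.log 3 := Real.log_pos (by norm_num)
  set a : ℝ := Real.log 3 / lam with ha
  set b : ℝ := Real.log 3 ^ 2 / lam ^ 2 with hb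
  set K : ℝ := C * (2 / lam + |x| * (2 * Real.log 3 / lam ^ 2)) with hK
  have ha0 : 0 < a := by positivity
  have hb0 : 0 < b := by positivity
  have hK0 : 0 < K := by
    rw [hK]
    have : 0 ≤ |x| * (2 * Real.log 3 / lam ^ 2) := by positivity
    have : 0 < 2 / lam := by positivity
    positivity
  obtain ⟨k1, hk1⟩ := exists_nat_ge (((2 * |x| * b / a) + (|x| * (|x| + ε) * b + K + 1) / (ε * a) + 1) ^ 2)
  refine ⟨k1, fun k hk o L hL hs => ?_⟩
  have hkk : ((2 * |x| * b / a) + (|x| * (|x| + ε) * b + K + 1) / (ε * a) + 1) ^ 2 ≤ k :=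
    hk1.trans (by exact_mod_cast hk)
  set r := Real.sqrt k with hr
  have hr1 : (2 * |x| * b / a) + (|x| * (|x| + ε) * b + K + 1) / (ε * a) + 1 ≤ r := by
    rw [hr]
    exact Real.le_sqrt_of_sq_le hkk
  have p1 : 0 ≤ 2 * |x| * b / a := by positivity
  have p2 : 0 ≤ (|x| * (|x| + ε) * b + K + 1) / (ε * a) := by positivity
  have hr0 : 1 ≤ r := by linarith
  have hrr : r ^ 2 = k := Real.sq_sqrt (by positivity)
  have q1 : 2 * |x| * b ≤ r * a := by
    have : 2 * |x| * b / a ≤ r := by linarith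
    rwa [div_le_iff₀ ha0] at this
  have q2 : |x| * (|x| + ε) * b + K + 1 ≤ r * (ε * a) := by
    have : (|x| * (|x| + ε) * b + K + 1) / (ε * a) ≤ r := by linarith
    rwa [div_le_iff₀ (by positivity)] at this
  set y : ℝ := (2 * o - k) / r with hy
  have ho : o = (r ^ 2 + y * r) / 2 := by
    rw [hy, hrr]
    field_simp
    ring
  set e : ℝ := L + o * Real.log 3 - k * Real.log 2 with he
  have hLe : L = lam / 2 * r ^ 2 - y * r / 2 * Real.log 3 + e := by
    rw [he, ho, hlam, mu_log, hrr]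
    ring
  have hE : |e * (2 / lam + x * (2 * Real.log 3 / (lam ^ 2 * r)))| ≤ K := by
    rw [abs_mul, hK]
    apply mul_le_mul hs _ (abs_nonneg _) hC.le
    refine (abs_add_le _ _).trans ?_
    rw [abs_of_pos (show 0 < 2 / lam by positivity), abs_mul,
      abs_of_pos (show 0 < 2 * Real.log 3 / (lam ^ 2 * r) by positivity)]
    have : 2 * Real.log 3 / (lam ^ 2 * r) ≤ 2 * Real.log 3 / lam ^ 2 := by
      apply div_le_div_of_nonneg_left (by positivity) (by positivity)
      nlinarith [sq_nonneg lam, pow_pos hl 2]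
    nlinarith [mul_le_mul_of_nonneg_left this (abs_nonneg x)]
  set E : ℝ := e * (2 / lam + x * (2 * Real.log 3 / (lam ^ 2 * r))) with hEd
  have hP : (k : ℝ) / L ≤ thr x k ↔ 0 ≤ (x - y) * r * a - x * y * b + E := by
    rw [div_le_iff₀ hL]
    have e1 : thr x k * L = (k : ℝ) + ((x - y) * r * a - x * y * b + E) := by
      unfold thr
      rw [← hlam, ← hr, ← hrr, hEd, ha, hb]
      have hL' := hLe
      rw [hL']
      field_simp
      ring
    rw [e1]
    constructor <;> intro h <;> linarith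
  have hx1 : |x * b| = |x| * b := by rw [abs_mul, abs_of_pos hb0]
  have hsl : 0 ≤ r * a + x * b := by
    have := neg_abs_le (x * b)
    rw [hx1] at this
    nlinarith [abs_nonneg x]
  have hE1 := abs_le.1 hE
  rw [hP]
  constructor
  · intro h
    have h1 : 0 ≤ (x - ε - y) * (r * a + x * b) := mul_nonneg (by linarith) hsl
    have h2 : x * (x - ε) * b ≤ |x| * (|x| + ε) * b := by
      apply mul_le_mul_of_nonneg_right _ hb0.le
      have := le_abs_self (x * (x - ε))
      rw [abs_mul] at this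
      refine this.trans (mul_le_mul_of_nonneg_left ?_ (abs_nonneg x))
      refine (abs_sub _ _).trans ?_
      rw [abs_of_pos hε]
    nlinarith
  · intro h
    by_contra hc
    rw [not_le] at hc
    have h1 : 0 ≤ (y - (x + ε)) * (r * a + x * b) := mul_nonneg (by linarith) hsl
    have h2 : -(x * (x + ε)) * b ≤ |x| * (|x| + ε) * b := by
      apply mul_le_mul_of_nonneg_right _ hb0.le
      have := neg_abs_le (x * (x + ε))
      rw [abs_mul] at this
      have h3 : |x| * |x + ε| ≤ |x| * (|x| + ε) := by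
        refine mul_le_mul_of_nonneg_left ?_ (abs_nonneg x)
        refine (abs_add_le _ _).trans ?_
        rw [abs_of_pos hε]
      linarith
    nlinarith

/-- THE NORMAL LAW ON THE LEVELS -/
theorem main_G : ∃ δ : ℝ, 0 < δ ∧ δ ≤ 1 ∧ (δ = 1 ↔ ∀ n : ℕ, 1 ≤ n → ∃ k : ℕ, Tn^[k] n = 1) ∧
    Tendsto (fun N : ℕ => ({n : ℕ | 1 ≤ n ∧ n ≤ N ∧ ∃ k : ℕ, Tn^[k] n = 1}.ncard : ℝ) / N) atTop (𝓝 δ) ∧
    (∀ k : ℕ, {n : ℕ | 1 ≤ n ∧ Stops k n}.Finite) ∧
    Tendsto (fun k : ℕ => ∑' n : {n : ℕ | 1 ≤ n ∧ Stops k n}, (1 : ℝ) / ((n : ℕ) : ℝ)) atTop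
      (𝓝 (Real.log (4 / 3) / 2 * δ)) ∧
    ∀ x : ℝ, Tendsto (fun k : ℕ => ∑' n : {n : ℕ | 1 ≤ n ∧ Stops k n ∧ (k : ℝ) / Real.log n ≤ thr x k},
      (1 : ℝ) / ((n : ℕ) : ℝ)) atTop (𝓝 (Real.log (4 / 3) / 2 * δ * Phi x)) := by
  obtain ⟨δ, h0, h1, h2, h3, h4, h5, h6⟩ := main_T
  refine ⟨δ, h0, h1, h2, h3, h4, h6, fun x => ?_⟩
  apply gauss_law h5 x
  intro ε hε
  obtain ⟨C, hC, hsz⟩ := size_T
  obtain ⟨k1, hk1⟩ := thr_iff hC x ε hε
  refine ⟨max k1 1, fun k hk n hn hS => ?_⟩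
  have hn2 : 1 < n := by
    rcases Nat.lt_or_ge 1 n with h | h
    · exact h
    · have : n = 1 := by omega
      subst this
      exact absurd rfl (hS.2 0 (lt_of_lt_of_le one_pos ((le_max_right _ _).trans hk)))
  have hL : 0 < Real.log n := Real.log_pos (by exact_mod_cast hn2)
  have := hk1 k ((le_max_left _ _).trans hk) (odds k n) (Real.log n) hL (hsz k n hn hS)
  exact this

end Pool.Agent.R344.LS
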