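import Pool.Agent.R344.LS.Z
import Pool.Agent.H499R2.NDCor
import Pool.Agent.H499R2.LT.R5

/-!
Level sums, part 23: the levels over all cycles met from a bounded set, and divergent trajectories.
-/

set_option autoImplicit false

namespace Pool.Agent.R344.LS

open Finset Filter Topology
open Pool.Agent.H499R2.LT
open Pool.Agent.H499R2.ND (Td Dn cop_of_not_dvd side_odd cnt cnt_eq tail_le dens_side one_pos Inv HD)

/-- the trajectory of `x` is divergent -/
def Dv (x : ℤ) : Prop := Tendsto (fun k : ℕ => |(Td 1)^[k] x|) atTop atTop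

/-- `x` is in a cycle -/
def Per (x : ℤ) : Prop := ∃ j : ℕ, 1 ≤ j ∧ (Td 1)^[j] x = x

theorem Dv_step (x : ℤ) : Dv x ↔ Dv (Td 1 x) := by
  unfold Dv
  rw [← tendsto_add_atTop_iff_nat 1]
  simp only [Function.iterate_succ_apply]

theorem Per_step {x : ℤ} (h : Per x) : Per (Td 1 x) := by
  obtain ⟨j, h1, h2⟩ := h
  exact ⟨j, h1, by rw [← Function.iterate_succ_apply, Function.iterate_succ_apply', h2]⟩

theorem per_of_not_Dv {x : ℤ} (h : ¬ Dv x) : ∃ k : ℕ, Per ((Td 1)^[k] x) := by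
  unfold Dv at h
  rw [tendsto_atTop] at h
  push Not at h
  obtain ⟨b, hb⟩ := h
  have hb' : ∃ᶠ k in atTop, |(Td 1)^[k] x| < b := by
    simpa only [not_eventually, not_le] using hb
  have hinf : {k : ℕ | |(Td 1)^[k] x| < b}.Infinite := Nat.frequently_atTop_iff_infinite.1 hb'
  have hfin : (Set.Ioo (-b) b).Finite := Set.finite_Ioo _ _
  have key : ∀ k1 k2 : ℕ, k1 < k2 → (Td 1)^[k1] x = (Td 1)^[k2] x → ∃ k : ℕ, Per ((Td 1)^[k] x) := by
    intro k1 k2 hk he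
    refine ⟨k1, k2 - k1, by omega, ?_⟩
    rw [← Function.iterate_add_apply, show k2 - k1 + k1 = k2 by omega, he]
  obtain ⟨k1, _, k2, _, hne, he⟩ := hinf.exists_ne_map_eq_of_mapsTo (f := fun k => (Td 1)^[k] x)
    (fun k hk => by rw [Set.mem_ofPred_eq, abs_lt] at hk; exact hk) hfin
  rcases lt_or_gt_of_ne hne with h | h
  · exact key k1 k2 h he
  · exact key k2 k1 h he.symm

theorem not_Dv_of_per {x : ℤ} {k : ℕ} (h : Per ((Td 1)^[k] x)) : ¬ Dv x := by
  obtain ⟨j, h1, h2⟩ := h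
  intro hD
  have h3 : ∀ m : ℕ, (Td 1)^[m * j + k] x = (Td 1)^[k] x := by
    intro m
    induction m with
    | zero => rw [zero_mul, zero_add]
    | succ m ih =>
      rw [show (m + 1) * j + k = j + (m * j + k) by ring, Function.iterate_add_apply, ih, h2]
  unfold Dv at hD
  rw [tendsto_atTop] at hD
  obtain ⟨N, hN⟩ := eventually_atTop.1 (hD (|(Td 1)^[k] x| + 1))
  have h4 := hN (N * j + k) (by nlinarith)
  rw [h3] at h4
  omega

theorem Td_ne {x : ℤ} (h : x ≠ 0) : Td 1 x ≠ 0 := by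
  unfold Td
  split_ifs <;> omega

theorem Td_iter_ne {x : ℤ} (h : x ≠ 0) (k : ℕ) : (Td 1)^[k] x ≠ 0 := by
  induction k with
  | zero => exact h
  | succ k ih => rw [Function.iterate_succ_apply']; exact Td_ne ih

/-- the nonzero terms of cycles which are met from `[-y, y]` -/
def Zy (y : ℕ) : Set ℤ := {x : ℤ | x ≠ 0 ∧ Per x ∧ ∃ m : ℤ, |m| ≤ y ∧ ∃ k : ℕ, (Td 1)^[k] m = x}

theorem per_fin (m : ℤ) : {x : ℤ | Per x ∧ ∃ k : ℕ, (Td 1)^[k] m = x}.Finite := by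
  rcases Set.eq_empty_or_nonempty {x : ℤ | Per x ∧ ∃ k : ℕ, (Td 1)^[k] m = x} with h | ⟨x, hx, k0, rfl⟩
  · rw [h]; exact Set.finite_empty
  · obtain ⟨j, h1, h2⟩ := hx
    apply ((Set.finite_lt_nat (k0 + j)).image fun k => (Td 1)^[k] m).subset
    rintro z ⟨-, k, rfl⟩
    induction k using Nat.strong_induction_on with
    | _ k ih =>
      rcases lt_or_ge k (k0 + j) with h | h
      · exact ⟨k, h, rfl⟩
      · have e : (Td 1)^[k] m = (Td 1)^[k - j] m := by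
          conv_lhs => rw [show k = (k - k0 - j) + (j + k0) by omega, Function.iterate_add_apply,
            Function.iterate_add_apply, h2, ← Function.iterate_add_apply, show k - k0 - j + k0 = k - j by omega]
        rw [e]
        exact ih (k - j) (by omega)

theorem Zy_fin (y : ℕ) : (Zy y).Finite := by
  apply ((Set.finite_Icc (-(y : ℤ)) y).biUnion fun m _ => per_fin m).subset
  rintro x ⟨_, h1, m, hm, k, hk⟩
  rw [Set.mem_iUnion₂]
  exact ⟨m, abs_le.1 hm, h1, k, hk⟩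

theorem Zy_step {y : ℕ} {x : ℤ} (h : x ∈ Zy y) : Td 1 x ∈ Zy y := by
  obtain ⟨h0, h1, m, hm, k, hk⟩ := h
  exact ⟨Td_ne h0, Per_step h1, m, hm, k + 1, by rw [Function.iterate_succ_apply', hk]⟩

theorem Zy_mono {y y' : ℕ} (h : y ≤ y') : Zy y ⊆ Zy y' := by
  rintro x ⟨h0, h1, m, hm, h2⟩
  exact ⟨h0, h1, m, hm.trans (by exact_mod_cast h), h2⟩

/-- the nonzero integers without divergent trajectory which do not reach the cycles met from `[-y, y]` -/
def Rs (y : ℕ) : Set ℤ := {x : ℤ | x ≠ 0 ∧ ¬ Dv x ∧ ∀ k : ℕ, (Td 1)^[k] x ∉ Zy y}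

theorem Rs_inv (y : ℕ) : Inv 1 (Rs y) := by
  intro x
  constructor
  · rintro ⟨h0, h1, h2⟩
    exact ⟨Td_ne h0, by rwa [← Dv_step], fun k => by rw [← Function.iterate_succ_apply]; exact h2 _⟩
  · rintro ⟨h0, h1, h2⟩
    refine ⟨by rintro rfl; exact h0 rfl, by rwa [Dv_step], fun k => ?_⟩
    cases k with
    | zero => exact fun h => h2 0 (Zy_step h)
    | succ k => rw [Function.iterate_succ_apply]; exact h2 k

theorem Rs_large {y : ℕ} {x : ℤ} (h : x ∈ Rs y) : (y : ℝ) < |(x : ℝ)| := by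
  obtain ⟨h0, h1, h2⟩ := h
  by_contra hc
  rw [not_lt] at hc
  obtain ⟨k, hk⟩ := per_of_not_Dv h1
  refine h2 k ⟨Td_iter_ne h0 k, hk, x, ?_, k, rfl⟩
  exact_mod_cast hc

theorem Dv_inv : Inv 1 {x : ℤ | Dv x} := fun x => Dv_step x

/-- the integers which reach the cycles met from `[-y, y]` -/
def Re (y : ℕ) : Set ℤ := {x : ℤ | ∃ k : ℕ, (Td 1)^[k] x ∈ Zy y}

theorem not_Dv_zero : ¬ Dv 0 := not_Dv_of_per (x := 0) (k := 0) ⟨1, le_rfl, rfl⟩

theorem three_sum {s : ℤ} (hs : s = 1 ∨ s = -1) {y : ℕ} {r d e : ℝ} (hr : Dn (fun n : ℕ => s * (n : ℤ) ∈ Rs y) r)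
    (hd : Dn (fun n : ℕ => Dv (s * (n : ℤ))) d) (he : Dn (fun n : ℕ => s * (n : ℤ) ∈ Re y) e) : r + d + e = 1 := by
  classical
  have h1 := (hr.add hd).add he
  refine tendsto_nhds_unique h1 (tendsto_const_nhds.congr' ?_)
  filter_upwards [eventually_gt_atTop 0] with N hN
  have hN0 : (0 : ℝ) < N := by exact_mod_cast hN
  rw [← add_div, ← add_div, eq_comm, div_eq_one_iff_eq hN0.ne', cnt_eq, cnt_eq, cnt_eq]
  rw [← Nat.cast_add, ← Nat.cast_add]
  congr 1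
  have e1 : ((Icc 1 N).filter (fun n : ℕ => s * (n : ℤ) ∈ Rs y)).card + ((Icc 1 N).filter (fun n : ℕ => Dv (s * (n : ℤ)))).card =
      ((Icc 1 N).filter (fun n : ℕ => s * (n : ℤ) ∈ Rs y ∨ Dv (s * (n : ℤ)))).card := by
    rw [filter_or, card_union_of_disjoint]
    rw [disjoint_filter]
    intro n _ h2 h3
    exact h2.2.1 h3
  have e2 : ((Icc 1 N).filter (fun n : ℕ => s * (n : ℤ) ∈ Rs y ∨ Dv (s * (n : ℤ)))).card + ((Icc 1 N).filter (fun n : ℕ => s * (n : ℤ) ∈ Re y)).card =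
      ((Icc 1 N).filter (fun n : ℕ => (s * (n : ℤ) ∈ Rs y ∨ Dv (s * (n : ℤ))) ∨ s * (n : ℤ) ∈ Re y)).card := by
    rw [filter_or (p := fun n : ℕ => (s * (n : ℤ) ∈ Rs y ∨ Dv (s * (n : ℤ)))), card_union_of_disjoint]
    rw [disjoint_filter]
    rintro n _ h2 ⟨k, hk⟩
    rcases h2 with h2 | h2
    · exact h2.2.2 k hk
    · exact not_Dv_of_per hk.2.1 h2
  rw [e1, e2, filter_true_of_mem, Nat.card_Icc, Nat.add_sub_cancel]
  intro n hn
  have hn1 := (mem_Icc.1 hn).1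
  have hn0 : s * (n : ℤ) ≠ 0 := by
    rcases hs with rfl | rfl <;> omega
  by_cases h2 : Dv (s * (n : ℤ))
  · exact Or.inl (Or.inr h2)
  · by_cases h3 : s * (n : ℤ) ∈ Re y
    · exact Or.inr h3
    · refine Or.inl (Or.inl ⟨hn0, h2, fun k hk => h3 ⟨k, hk⟩⟩)

end Pool.Agent.R344.LS
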