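import Mathlib

/-!
Level sums, part 2: comparison of the sums of reciprocals of two finite sets of integers whose
counting functions are close.
-/

set_option autoImplicit false

namespace Pool.Agent.R344.LS

open Finset

theorem recip_tele (x N : ℕ) (hx : 1 ≤ x) (hN : x ≤ N) :
    (1 : ℝ) / x = 1 / N + ∑ n ∈ Ico x N, 1 / ((n : ℝ) * (n + 1)) := by
  induction N, hN using Nat.le_induction with
  | base => simp
  | succ N hN ih =>
    have hN0 : (0 : ℝ) < N := by exact_mod_cast (by omega : 0 < N)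
    rw [sum_Ico_succ_top hN, ih]
    push_cast
    field_simp
    ring

theorem recip_one (x N : ℕ) (hx : 1 ≤ x) (hN : x ≤ N) :
    (1 : ℝ) / x = 1 / N + ∑ n ∈ Ico 1 N, if x ≤ n then 1 / ((n : ℝ) * (n + 1)) else 0 := by
  rw [recip_tele x N hx hN, ← sum_filter]
  congr 1
  apply sum_congr _ fun _ _ => rfl
  ext n
  simp only [mem_Ico, mem_filter]
  omega

theorem recip_sum (U : Finset ℤ) (N : ℕ) (hU : ∀ x ∈ U, 1 ≤ x ∧ x ≤ N) :
    ∑ x ∈ U, (1 : ℝ) / x = (U.card : ℝ) / N +
      ∑ n ∈ Ico 1 N, ((U.filter (fun x => x ≤ (n : ℤ))).card : ℝ) * (1 / ((n : ℝ) * (n + 1))) := by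
  have h1 : ∀ x ∈ U, (1 : ℝ) / x = 1 / N + ∑ n ∈ Ico 1 N, if x ≤ (n : ℤ) then 1 / ((n : ℝ) * (n + 1)) else 0 := by
    intro x hx
    obtain ⟨h1, h2⟩ := hU x hx
    obtain ⟨y, rfl⟩ : ∃ y : ℕ, x = y := ⟨x.toNat, by omega⟩
    have := recip_one y N (by omega) (by omega)
    simp only [Int.cast_natCast, Nat.cast_le]
    exact this
  rw [sum_congr rfl h1, sum_add_distrib, sum_const, nsmul_eq_mul, sum_comm]
  congr 1
  · ring
  · apply sum_congr rfl
    intro n _
    rw [← sum_filter, sum_const, nsmul_eq_mul]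

/-- the tail of the series `∑ 1 / (n log² (n+1))` -/
theorem log_tail (a : ℕ) (ha : 2 ≤ a) (N : ℕ) (hN : a ≤ N) :
    ∑ n ∈ Ico a N, (1 : ℝ) / (n * (Real.log (n + 1)) ^ 2) ≤ 2 * (1 / Real.log a - 1 / Real.log N) := by
  induction N, hN using Nat.le_induction with
  | base => simp
  | succ N hN ih =>
    have hN2 : (2 : ℝ) ≤ N := by exact_mod_cast (by omega : 2 ≤ N)
    have hN0 : (0 : ℝ) < N := by linarith
    rw [sum_Ico_succ_top hN]
    push_cast
    have hl1 : 0 < Real.log N := Real.log_pos (by linarith)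
    have hl2 : Real.log N ≤ Real.log (N + 1) := Real.log_le_log hN0 (by linarith)
    have hl3 : 0 < Real.log ((N : ℝ) + 1) := by linarith
    have h1 : 1 / ((N : ℝ) + 1) ≤ Real.log (N + 1) - Real.log N := by
      rw [← Real.log_div (by positivity) (by positivity)]
      have h2 := Real.one_sub_inv_le_log_of_pos (show (0 : ℝ) < (N + 1) / N by positivity)
      have e : 1 - (((N : ℝ) + 1) / N)⁻¹ = 1 / (N + 1) := by field_simp; ring
      rw [e] at h2
      exact h2
    have h2 : 1 / ((N : ℝ) * (Real.log (N + 1)) ^ 2) ≤ 2 * (1 / Real.log N - 1 / Real.log (N + 1)) := by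
      have e : 1 / Real.log N - 1 / Real.log (N + 1) =
          (Real.log (N + 1) - Real.log N) / (Real.log N * Real.log (N + 1)) := by
        field_simp
      rw [e]
      have h3 : 1 / ((N : ℝ) + 1) / (Real.log (N + 1) * Real.log (N + 1)) ≤
          (Real.log (N + 1) - Real.log N) / (Real.log N * Real.log (N + 1)) := by
        apply div_le_div₀ (by linarith [sub_nonneg.2 hl2]) h1 (by positivity)
        exact mul_le_mul_of_nonneg_right hl2 hl3.le
      have h4 : 1 / ((N : ℝ) * (Real.log (N + 1)) ^ 2) ≤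
          2 * (1 / ((N : ℝ) + 1) / (Real.log (N + 1) * Real.log (N + 1))) := by
        rw [div_div, ← pow_two, mul_one_div, div_le_div_iff₀ (by positivity) (by positivity)]
        have : 0 ≤ (Real.log ((N : ℝ) + 1)) ^ 2 := by positivity
        nlinarith
      linarith
    linarith

/-- comparison of two finite sets -/
theorem cmp {K : ℝ} (hK : 0 ≤ K) {X0 : ℕ} (hX0 : 3 ≤ X0) {U V : Finset ℤ} (hU : ∀ x ∈ U, (X0 : ℤ) ≤ x)
    (hV : ∀ x ∈ V, (X0 : ℤ) ≤ x)
    (h : ∀ X : ℝ, 2 ≤ X → ((U.filter (fun x : ℤ => (x : ℝ) < X)).card : ℝ) ≤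
      (V.filter (fun x : ℤ => (x : ℝ) < X)).card + K / (Real.log X) ^ 2 * X) :
    ∑ x ∈ U, (1 : ℝ) / x ≤ ∑ x ∈ V, (1 : ℝ) / x + 5 * K / Real.log X0 := by
  classical
  -- a common bound
  obtain ⟨N, hN0, hNU, hNV⟩ : ∃ N : ℕ, X0 ≤ N ∧ (∀ x ∈ U, x ≤ N) ∧ (∀ x ∈ V, x ≤ N) := by
    refine ⟨X0 + U.sup Int.natAbs + V.sup Int.natAbs, by omega, fun x hx => ?_, fun x hx => ?_⟩
    · have : x.natAbs ≤ U.sup Int.natAbs := Finset.le_sup (f := Int.natAbs) hx
      omega
    · have : x.natAbs ≤ V.sup Int.natAbs := Finset.le_sup (f := Int.natAbs) hx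
      omega
  have hN3 : (3 : ℝ) ≤ N := by exact_mod_cast (by omega : 3 ≤ N)
  have hX3 : (3 : ℝ) ≤ X0 := by exact_mod_cast hX0
  have hlX : 1 ≤ Real.log X0 := by
    rw [Real.le_log_iff_exp_le (by linarith)]
    linarith [Real.exp_one_lt_d9]
  have hlN : Real.log X0 ≤ Real.log N := Real.log_le_log (by linarith) (by exact_mod_cast hN0)
  rw [recip_sum U N fun x hx => ⟨by have := hU x hx; omega, hNU x hx⟩,
    recip_sum V N fun x hx => ⟨by have := hV x hx; omega, hNV x hx⟩]
  -- the end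
  have hend : (U.card : ℝ) / N ≤ (V.card : ℝ) / N + 2 * K / Real.log X0 := by
    have h1 := h (N + 1) (by linarith)
    have e1 : U.filter (fun x : ℤ => (x : ℝ) < (N : ℝ) + 1) = U := by
      apply filter_true_of_mem
      intro x hx
      have : (x : ℝ) ≤ N := by exact_mod_cast hNU x hx
      linarith
    have e2 : V.filter (fun x : ℤ => (x : ℝ) < (N : ℝ) + 1) = V := by
      apply filter_true_of_mem
      intro x hx
      have : (x : ℝ) ≤ N := by exact_mod_cast hNV x hx
      linarith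
    rw [e1, e2] at h1
    have h2 : Real.log N ≤ Real.log (N + 1) := Real.log_le_log (by linarith) (by linarith)
    have h3 : K / (Real.log (N + 1)) ^ 2 * (N + 1) ≤ K / Real.log X0 * (2 * N) := by
      apply mul_le_mul _ (by linarith) (by positivity) (by positivity)
      apply div_le_div_of_nonneg_left hK (by linarith)
      calc Real.log X0 ≤ Real.log (N + 1) * 1 := by linarith
        _ ≤ (Real.log (N + 1)) ^ 2 := by
          rw [pow_two]
          exact mul_le_mul_of_nonneg_left (by linarith) (by linarith)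
    have hN0' : (0 : ℝ) < N := by linarith
    rw [div_add' _ _ _ hN0'.ne', div_le_div_iff_of_pos_right hN0']
    calc (U.card : ℝ) ≤ V.card + K / Real.log X0 * (2 * N) := by linarith
      _ = V.card + 2 * K / Real.log X0 * N := by ring
  -- the sum
  have hsum : ∑ n ∈ Ico 1 N, ((U.filter (fun x => x ≤ (n : ℤ))).card : ℝ) * (1 / ((n : ℝ) * (n + 1))) ≤
      ∑ n ∈ Ico 1 N, ((V.filter (fun x => x ≤ (n : ℤ))).card : ℝ) * (1 / ((n : ℝ) * (n + 1))) +
        ∑ n ∈ Ico X0 N, K * (1 / ((n : ℝ) * (Real.log (n + 1)) ^ 2)) := by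
    have e : ∑ n ∈ Ico X0 N, K * (1 / ((n : ℝ) * (Real.log (n + 1)) ^ 2)) =
        ∑ n ∈ Ico 1 N, if X0 ≤ n then K * (1 / ((n : ℝ) * (Real.log (n + 1)) ^ 2)) else 0 := by
      rw [← sum_filter]
      apply sum_congr _ fun _ _ => rfl
      ext n
      simp only [mem_Ico, mem_filter]
      omega
    rw [e, ← sum_add_distrib]
    apply sum_le_sum
    intro n hn
    rw [mem_Ico] at hn
    have hn0 : (0 : ℝ) < n := by exact_mod_cast (by omega : 0 < n)
    by_cases hXn : X0 ≤ n
    · rw [if_pos hXn]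
      have hn3 : (3 : ℝ) ≤ n := by exact_mod_cast (by omega : 3 ≤ n)
      have h1 := h (n + 1) (by linarith)
      have e1 : ∀ W : Finset ℤ, W.filter (fun x : ℤ => (x : ℝ) < (n : ℝ) + 1) = W.filter (fun x => x ≤ (n : ℤ)) := by
        intro W
        apply filter_congr
        intro x _
        constructor
        · intro hx
          have : x < (n : ℤ) + 1 := by exact_mod_cast hx
          omega
        · intro hx
          have : (x : ℝ) ≤ n := by exact_mod_cast hx
          linarith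
      rw [e1, e1] at h1
      have hl : 0 < Real.log ((n : ℝ) + 1) := Real.log_pos (by linarith)
      calc _ ≤ ((V.filter (fun x => x ≤ (n : ℤ))).card + K / (Real.log (n + 1)) ^ 2 * (n + 1)) *
          (1 / ((n : ℝ) * (n + 1))) := mul_le_mul_of_nonneg_right h1 (by positivity)
        _ = _ := by
          field_simp
    · rw [if_neg hXn, add_zero]
      have : U.filter (fun x => x ≤ (n : ℤ)) = ∅ := by
        rw [filter_eq_empty_iff]
        intro x hx hc
        have := hU x hx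
        omega
      rw [this, card_empty, Nat.cast_zero, zero_mul]
      positivity
  have ht := log_tail X0 (by omega) N hN0
  have ht2 : ∑ n ∈ Ico X0 N, K * (1 / ((n : ℝ) * (Real.log (n + 1)) ^ 2)) ≤ 2 * K / Real.log X0 := by
    rw [← mul_sum]
    calc _ ≤ K * (2 * (1 / Real.log X0 - 1 / Real.log N)) := mul_le_mul_of_nonneg_left ht hK
      _ ≤ K * (2 * (1 / Real.log X0)) := by
        apply mul_le_mul_of_nonneg_left _ hK
        have : 0 ≤ 1 / Real.log (N : ℝ) := by positivity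
        linarith
      _ = _ := by ring
  have h5 : 2 * K / Real.log X0 + 2 * K / Real.log X0 ≤ 5 * K / Real.log X0 := by
    rw [← add_div]
    apply div_le_div_of_nonneg_right _ (by linarith)
    linarith
  linarith

/-- the sum of `1 / y²` from `X0` on -/
theorem sq_tail {X0 : ℕ} (hX0 : 2 ≤ X0) {U : Finset ℤ} (hU : ∀ x ∈ U, (X0 : ℤ) ≤ x) :
    ∑ x ∈ U, (1 : ℝ) / (x : ℝ) ^ 2 ≤ 2 / X0 := by
  classical
  obtain ⟨N, hN0, hNU⟩ : ∃ N : ℕ, X0 ≤ N ∧ (∀ x ∈ U, x < N) := by
    refine ⟨X0 + U.sup Int.natAbs + 1, by omega, fun x hx => ?_⟩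
    have : x.natAbs ≤ U.sup Int.natAbs := Finset.le_sup (f := Int.natAbs) hx
    omega
  have h1 : ∑ x ∈ U, (1 : ℝ) / (x : ℝ) ^ 2 ≤ ∑ n ∈ Ico X0 N, (1 : ℝ) / (n : ℝ) ^ 2 := by
    have hsub : U ⊆ (Ico X0 N).image (fun n : ℕ => (n : ℤ)) := by
      intro x hx
      rw [mem_image]
      have h2 := hU x hx
      have h3 := hNU x hx
      exact ⟨x.toNat, mem_Ico.2 ⟨by omega, by omega⟩, by omega⟩
    calc _ ≤ ∑ x ∈ (Ico X0 N).image (fun n : ℕ => (n : ℤ)), (1 : ℝ) / (x : ℝ) ^ 2 :=
        sum_le_sum_of_subset_of_nonneg hsub fun _ _ _ => by positivity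
      _ = _ := by
        rw [sum_image fun a _ b _ h => by exact_mod_cast h]
        simp
  have h2 : ∑ n ∈ Ico X0 N, (1 : ℝ) / (n : ℝ) ^ 2 ≤ ∑ n ∈ Ico X0 N, 2 * (1 / ((n : ℝ) * (n + 1))) := by
    apply sum_le_sum
    intro n hn
    rw [mem_Ico] at hn
    have hn0 : (1 : ℝ) ≤ n := by exact_mod_cast (by omega : 1 ≤ n)
    rw [mul_one_div, div_le_div_iff₀ (by positivity) (by positivity)]
    nlinarith
  have h3 := recip_tele X0 N (by omega) hN0
  have h4 : (0 : ℝ) ≤ 1 / N := by positivity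
  rw [← mul_sum] at h2
  have e : (2 : ℝ) / X0 = 2 * (1 / X0) := by ring
  rw [e]
  linarith

end Pool.Agent.R344.LS
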