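import Pool.Agent.R344.LS.A
import Pool.Agent.R344.LS.B

/-!
Level sums, part 3: the cells (hitting time `k`, number of odd terms `o`) and the harmonic relation of
their sums of reciprocals, with an error summable over all cells.
-/

set_option autoImplicit false

namespace Pool.Agent.R344.LS

open Finset
open Pool.Agent.H499R2.LT
open Pool.Agent.H499R2.ND (Td wc mem_wc)

theorem od_bd (d : ℤ) (j : ℕ) (x : ℤ) : 0 ≤ od d j x ∧ od d j x ≤ j := by
  induction j generalizing x with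
  | zero => simp [od]
  | succ j ih =>
    obtain ⟨h1, h2⟩ := ih (Td d x)
    rw [od]
    push_cast
    split_ifs <;> constructor <;> omega

theorem ho_bd (d : ℤ) (F : Finset ℤ) (x : ℤ) : 0 ≤ ho d F x ∧ ho d F x ≤ ht d F x := od_bd _ _ _

/-- all elements of a cell -/
def cellA (d : ℤ) (F : Finset ℤ) (k o : ℕ) : Set ℤ := {x : ℤ | x ∈ RR d F ∧ ht d F x = k ∧ ho d F x = o}

theorem Td_even {d x : ℤ} (h : x % 2 = 0) : 2 * Td d x = x := by
  unfold Td; rw [if_pos h]; omega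

theorem Td_odd {d x : ℤ} (hd : Odd d) (h : ¬ x % 2 = 0) : 2 * Td d x = 3 * x + d := by
  obtain ⟨t, rfl⟩ := hd
  unfold Td; rw [if_neg h]; omega

theorem cellA_card {d : ℤ} (hd : Odd d) (F : Finset ℤ) (k : ℕ) : ∀ o : ℕ,
    (cellA d F k o).Finite ∧ (cellA d F k o).ncard ≤ F.card * k.choose o := by
  classical
  induction k with
  | zero =>
    intro o
    have hsub : cellA d F 0 o ⊆ (F : Set ℤ) := by
      rintro x ⟨h1, h2, _⟩
      exact (ht_zero_iff h1).1 h2
    have hfin := F.finite_toSet.subset hsub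
    refine ⟨hfin, ?_⟩
    rcases Nat.eq_zero_or_pos o with rfl | ho'
    · rw [Nat.choose_self, mul_one, ← Set.ncard_coe_finset]
      exact Set.ncard_le_ncard hsub F.finite_toSet
    · have : cellA d F 0 o = ∅ := by
        ext x
        constructor
        · rintro ⟨_, h2, h3⟩
          have := (ho_bd d F x).2
          omega
        · exact fun h => absurd h (Set.notMem_empty _)
      rw [this, Set.ncard_empty]
      exact Nat.zero_le _
  | succ k ih =>
    intro o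
    rcases Nat.eq_zero_or_pos o with rfl | ho'
    · obtain ⟨h1, h2⟩ := ih 0
      have hsub : cellA d F (k + 1) 0 ⊆ (fun y => 2 * y) '' cellA d F k 0 := by
        rintro x ⟨g1, g2, g3⟩
        have hxF : x ∉ F := fun h => by
          have := (ht_zero_iff g1).2 h
          omega
        have e1 := ht_step hxF g1
        have e2 := ho_step hxF g1
        have e3 := (ho_bd d F (Td d x)).1
        have hx : x % 2 = 0 := by
          by_contra hcon
          rw [if_neg hcon] at e2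
          push_cast at g3
          omega
        rw [if_pos hx] at e2
        refine ⟨Td d x, ⟨(RR_step hxF).1 g1, by omega, by push_cast at g3 ⊢; omega⟩, Td_even hx⟩
      have hfin := h1.image (fun y : ℤ => 2 * y)
      refine ⟨hfin.subset hsub, ?_⟩
      calc _ ≤ ((fun y : ℤ => 2 * y) '' cellA d F k 0).ncard := Set.ncard_le_ncard hsub hfin
        _ ≤ (cellA d F k 0).ncard := Set.ncard_image_le h1
        _ ≤ _ := by simpa using h2
    · obtain ⟨p, rfl⟩ : ∃ p, o = p + 1 := ⟨o - 1, by omega⟩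
      obtain ⟨h1, h2⟩ := ih (p + 1)
      obtain ⟨h3, h4⟩ := ih p
      have hsub : cellA d F (k + 1) (p + 1) ⊆ (fun y => 2 * y) '' cellA d F k (p + 1) ∪
          (fun y => (2 * y - d) / 3) '' cellA d F k p := by
        rintro x ⟨g1, g2, g3⟩
        have hxF : x ∉ F := fun h => by
          have := (ht_zero_iff g1).2 h
          omega
        have e1 := ht_step hxF g1
        have e2 := ho_step hxF g1
        by_cases hx : x % 2 = 0
        · left
          rw [if_pos hx] at e2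
          exact ⟨Td d x, ⟨(RR_step hxF).1 g1, by omega, by omega⟩, Td_even hx⟩
        · right
          rw [if_neg hx] at e2
          have e4 := Td_odd hd hx
          refine ⟨Td d x, ⟨(RR_step hxF).1 g1, by omega, by push_cast at g3 ⊢; omega⟩, ?_⟩
          show (2 * Td d x - d) / 3 = x
          omega
      have f1 := h1.image (fun y : ℤ => 2 * y)
      have f2 := h3.image (fun y : ℤ => (2 * y - d) / 3)
      refine ⟨(f1.union f2).subset hsub, ?_⟩
      calc _ ≤ ((fun y : ℤ => 2 * y) '' cellA d F k (p + 1) ∪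
          (fun y => (2 * y - d) / 3) '' cellA d F k p).ncard := Set.ncard_le_ncard hsub (f1.union f2)
        _ ≤ ((fun y : ℤ => 2 * y) '' cellA d F k (p + 1)).ncard +
          ((fun y => (2 * y - d) / 3) '' cellA d F k p).ncard := Set.ncard_union_le _ _
        _ ≤ (cellA d F k (p + 1)).ncard + (cellA d F k p).ncard :=
          Nat.add_le_add (Set.ncard_image_le h1) (Set.ncard_image_le h3)
        _ ≤ F.card * k.choose (p + 1) + F.card * k.choose p := Nat.add_le_add h2 h4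
        _ = _ := by rw [Nat.choose_succ_succ]; ring

/-- the positive elements of a cell -/
def cell (d : ℤ) (F : Finset ℤ) (k : ℕ) (o : ℤ) : Set ℤ :=
  {x : ℤ | 0 < x ∧ x ∈ RR d F ∧ ht d F x = k ∧ ho d F x = o}

theorem cell_sub {d : ℤ} {F : Finset ℤ} {k : ℕ} {o : ℤ} : cell d F k o ⊆ cellA d F k o.toNat := by
  rintro x ⟨_, h1, h2, h3⟩
  have := (ho_bd d F x).1
  exact ⟨h1, h2, by omega⟩

theorem cell_finite {d : ℤ} (hd : Odd d) (F : Finset ℤ) (k : ℕ) (o : ℤ) : (cell d F k o).Finite :=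
  (cellA_card hd F k _).1.subset cell_sub

open Classical in
/-- the positive elements of a cell -/
noncomputable def LC (d : ℤ) (F : Finset ℤ) (k : ℕ) (o : ℤ) : Finset ℤ :=
  if h : (cell d F k o).Finite then h.toFinset else ∅

theorem mem_LC {d : ℤ} (hd : Odd d) {F : Finset ℤ} {k : ℕ} {o x : ℤ} :
    x ∈ LC d F k o ↔ 0 < x ∧ x ∈ RR d F ∧ ht d F x = k ∧ ho d F x = o := by
  unfold LC
  rw [dif_pos (cell_finite hd F k o), Set.Finite.mem_toFinset]
  exact Iff.rfl

theorem LC_card {d : ℤ} (hd : Odd d) (F : Finset ℤ) (k o : ℕ) :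
    (LC d F k (o : ℤ)).card ≤ F.card * k.choose o := by
  obtain ⟨h1, h2⟩ := cellA_card hd F k o
  refine le_trans ?_ h2
  rw [← Set.ncard_coe_finset]
  apply Set.ncard_le_ncard _ h1
  intro x hx
  rw [mem_coe, mem_LC hd] at hx
  exact ⟨hx.2.1, hx.2.2.1, hx.2.2.2⟩

/-- the sum of the reciprocals of the elements of a cell -/
noncomputable def mm (d : ℤ) (F : Finset ℤ) (k : ℕ) (o : ℤ) : ℝ := ∑ x ∈ LC d F k o, (1 : ℝ) / x

theorem mm_nonneg {d : ℤ} (hd : Odd d) (F : Finset ℤ) (k : ℕ) (o : ℤ) : 0 ≤ mm d F k o := by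
  unfold mm
  apply sum_nonneg
  intro x hx
  have : 0 < x := ((mem_LC hd).1 hx).1
  have : (0 : ℝ) < x := by exact_mod_cast this
  positivity

theorem LC_empty {d : ℤ} (hd : Odd d) (F : Finset ℤ) {k : ℕ} {o : ℤ} (h : o < 0 ∨ (k : ℤ) < o) :
    LC d F k o = ∅ := by
  rw [eq_empty_iff_forall_notMem]
  intro x hx
  rw [mem_LC hd] at hx
  have := ho_bd d F x
  omega

theorem mm_zero {d : ℤ} (hd : Odd d) (F : Finset ℤ) {k : ℕ} {o : ℤ} (h : o < 0 ∨ (k : ℤ) < o) :
    mm d F k o = 0 := by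
  unfold mm
  rw [LC_empty hd F h, sum_empty]

/-- the part of a cell in a residue class modulo 3 -/
noncomputable def sc (d : ℤ) (F : Finset ℤ) (c : ℤ) (w : ℕ × ℤ) : ℝ :=
  ∑ x ∈ (LC d F w.1 w.2).filter (fun x => 3 ∣ x - c), (1 : ℝ) / x

theorem biU_sum {d : ℤ} (hd : Odd d) (F : Finset ℤ) (c : ℤ) (W : Finset (ℕ × ℤ)) :
    ∑ w ∈ W, sc d F c w =
      ∑ x ∈ W.biUnion (fun w => (LC d F w.1 w.2).filter (fun x => 3 ∣ x - c)), (1 : ℝ) / x := by
  classical
  rw [sum_biUnion]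
  · rfl
  · intro w _ w' _ hne
    rw [Function.onFun, disjoint_left]
    intro x hx hx'
    rw [mem_filter, mem_LC hd] at hx hx'
    apply hne
    ext
    · rw [← hx.1.2.2.1, ← hx'.1.2.2.1]
    · rw [← hx.1.2.2.2, ← hx'.1.2.2.2]

/-- one-sided comparison -/
theorem one_sided {d : ℤ} (hd : Odd d) {F : Finset ℤ} {K : ℝ} (hK : 0 < K)
    (hE : ∀ (W : Set (ℤ × ℤ)) (X : ℝ), 2 ≤ X → ∀ c c' : ℤ, ((wc (FW d F W 0 0) 1 X 3 c).card : ℝ) ≤
      (wc (FW d F W 0 0) 1 X 3 c').card + K / (Real.log X) ^ 2 * X)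
    {X0 : ℕ} (hX0 : 3 ≤ X0) (W : Finset (ℕ × ℤ)) (hW : ∀ w ∈ W, ∀ y ∈ LC d F w.1 w.2, (X0 : ℤ) ≤ y)
    (c c' : ℤ) : ∑ w ∈ W, sc d F c w ≤ ∑ w ∈ W, sc d F c' w + 5 * K / Real.log X0 := by
  classical
  rw [biU_sum hd, biU_sum hd]
  have hcard : ∀ (c : ℤ) (X : ℝ), (W.biUnion (fun w => (LC d F w.1 w.2).filter (fun x => 3 ∣ x - c))).filter
      (fun x : ℤ => (x : ℝ) < X) = wc (FW d F {p | ∃ w ∈ W, p = ((w.1 : ℤ), w.2)} 0 0) 1 X 3 c := by
    intro c X
    ext x
    rw [mem_filter, mem_biUnion, mem_wc]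
    unfold FW
    rw [Set.mem_ofPred_eq, Set.mem_ofPred_eq]
    constructor
    · rintro ⟨⟨w, hw, hx⟩, hX⟩
      rw [mem_filter, mem_LC hd] at hx
      obtain ⟨⟨h1, h2, h3, h4⟩, h5⟩ := hx
      refine ⟨⟨by exact_mod_cast (by omega : 1 ≤ x), hX⟩, ⟨h2, w, hw, ?_⟩, h5⟩
      rw [h3, h4, sub_zero, sub_zero]
    · rintro ⟨⟨h1, hX⟩, ⟨h2, w, hw, h3⟩, h5⟩
      rw [sub_zero, sub_zero, Prod.mk.injEq] at h3
      have h1' : 1 ≤ x := by exact_mod_cast h1
      refine ⟨⟨w, hw, ?_⟩, hX⟩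
      rw [mem_filter, mem_LC hd]
      exact ⟨⟨by omega, h2, by exact_mod_cast h3.1, h3.2⟩, h5⟩
  apply cmp hK.le hX0
  · intro x hx
    rw [mem_biUnion] at hx
    obtain ⟨w, hw, hx⟩ := hx
    exact hW w hw x (mem_filter.1 hx).1
  · intro x hx
    rw [mem_biUnion] at hx
    obtain ⟨w, hw, hx⟩ := hx
    exact hW w hw x (mem_filter.1 hx).1
  · intro X hX
    rw [hcard, hcard]
    exact hE _ X hX c c'

/-- two-sided comparison, with absolute values -/
theorem two_sided {d : ℤ} (hd : Odd d) {F : Finset ℤ} {K : ℝ} (hK : 0 < K)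
    (hE : ∀ (W : Set (ℤ × ℤ)) (X : ℝ), 2 ≤ X → ∀ c c' : ℤ, ((wc (FW d F W 0 0) 1 X 3 c).card : ℝ) ≤
      (wc (FW d F W 0 0) 1 X 3 c').card + K / (Real.log X) ^ 2 * X)
    {X0 : ℕ} (hX0 : 3 ≤ X0) (W : Finset (ℕ × ℤ)) (hW : ∀ w ∈ W, ∀ y ∈ LC d F w.1 w.2, (X0 : ℤ) ≤ y)
    (c c' : ℤ) : ∑ w ∈ W, |sc d F c w - sc d F c' w| ≤ 10 * K / Real.log X0 := by
  classical
  rw [← sum_filter_add_sum_filter_not W (fun w => 0 ≤ sc d F c w - sc d F c' w)]
  have h1 := one_sided hd hK hE hX0 (W.filter (fun w => 0 ≤ sc d F c w - sc d F c' w))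
    (fun w hw => hW w (mem_filter.1 hw).1) c c'
  have h2 := one_sided hd hK hE hX0 (W.filter (fun w => ¬ 0 ≤ sc d F c w - sc d F c' w))
    (fun w hw => hW w (mem_filter.1 hw).1) c' c
  have e1 : ∑ w ∈ W.filter (fun w => 0 ≤ sc d F c w - sc d F c' w), |sc d F c w - sc d F c' w| =
      ∑ w ∈ W.filter (fun w => 0 ≤ sc d F c w - sc d F c' w), sc d F c w -
      ∑ w ∈ W.filter (fun w => 0 ≤ sc d F c w - sc d F c' w), sc d F c' w := by
    rw [← sum_sub_distrib]
    apply sum_congr rfl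
    intro w hw
    rw [abs_of_nonneg (mem_filter.1 hw).2]
  have e2 : ∑ w ∈ W.filter (fun w => ¬ 0 ≤ sc d F c w - sc d F c' w), |sc d F c w - sc d F c' w| =
      ∑ w ∈ W.filter (fun w => ¬ 0 ≤ sc d F c w - sc d F c' w), sc d F c' w -
      ∑ w ∈ W.filter (fun w => ¬ 0 ≤ sc d F c w - sc d F c' w), sc d F c w := by
    rw [← sum_sub_distrib]
    apply sum_congr rfl
    intro w hw
    rw [abs_of_neg (not_le.1 (mem_filter.1 hw).2)]
    ring
  rw [e1, e2]
  have e3 : 10 * K / Real.log X0 = 5 * K / Real.log X0 + 5 * K / Real.log X0 := by ring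
  rw [e3]
  linarith

/-- a bound for the exceptional integers -/
def M0 (d : ℤ) (F : Finset ℤ) : ℕ := 3 * F.sup Int.natAbs + d.natAbs + 10

theorem M0_F {d : ℤ} {F : Finset ℤ} {x : ℤ} (hx : x ∈ F) : 3 * x.natAbs + d.natAbs + 10 ≤ M0 d F := by
  have : x.natAbs ≤ F.sup Int.natAbs := Finset.le_sup (f := Int.natAbs) hx
  unfold M0
  omega

/-- the recursion for the cells of large integers -/
theorem mm_step {d : ℤ} (hd : Odd d) {F : Finset ℤ} {k : ℕ} {o : ℤ}
    (h1 : ∀ y ∈ LC d F k o, (M0 d F : ℤ) ≤ y) (h2 : ∀ y ∈ LC d F k (o - 1), (M0 d F : ℤ) ≤ y)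
    (h3 : ∀ y ∈ LC d F (k + 1) o, (M0 d F : ℤ) ≤ y) :
    mm d F (k + 1) o = mm d F k o / 2 +
      ∑ y ∈ (LC d F k (o - 1)).filter (fun x => 3 ∣ x - 2 * d), (3 : ℝ) / (2 * y - d) := by
  classical
  have hd2 : d % 2 = 1 := Int.odd_iff.1 hd
  have hM : d.natAbs + 10 ≤ M0 d F := by unfold M0; omega
  unfold mm
  rw [← sum_filter_add_sum_filter_not (LC d F (k + 1) o) (fun x => x % 2 = 0)]
  congr 1
  · rw [sum_div]
    symm
    apply sum_nbij' (fun y => 2 * y) (fun x => x / 2)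
    · intro y hy
      have hy1 := h1 y hy
      rw [mem_LC hd] at hy
      obtain ⟨g1, g2, g3, g4⟩ := hy
      have hyF : (2 * y) ∉ F := fun h => by
        have := M0_F (d := d) h
        omega
      have hT : Td d (2 * y) = y := by
        have := Td_even (d := d) (x := 2 * y) (by omega)
        omega
      have hR : (2 * y) ∈ RR d F := (RR_step hyF).2 (by rw [hT]; exact g2)
      rw [mem_filter, mem_LC hd]
      refine ⟨⟨by omega, hR, ?_, ?_⟩, by omega⟩
      · rw [ht_step hyF hR, hT, g3]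
      · rw [ho_step hyF hR, hT, if_pos (by omega), g4, zero_add]
    · intro x hx
      rw [mem_filter, mem_LC hd] at hx
      obtain ⟨⟨g1, g2, g3, g4⟩, g5⟩ := hx
      have hxF : x ∉ F := fun h => by
        have := (ht_zero_iff g2).2 h
        omega
      have hT : Td d x = x / 2 := by
        have := Td_even (d := d) g5
        omega
      have e1 := ht_step hxF g2
      have e2 := ho_step hxF g2
      rw [if_pos g5, hT] at e2
      rw [hT] at e1
      rw [mem_LC hd]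
      refine ⟨by omega, by rw [← hT]; exact (RR_step hxF).1 g2, by omega, by omega⟩
    · intro y _
      show 2 * y / 2 = y
      omega
    · intro x hx
      have := (mem_filter.1 hx).2
      show 2 * (x / 2) = x
      omega
    · intro y hy
      have hy0 : (0 : ℝ) < y := by exact_mod_cast ((mem_LC hd).1 hy).1
      push_cast
      field_simp
  · symm
    apply sum_nbij' (fun y => (2 * y - d) / 3) (fun x => (3 * x + d) / 2)
    · intro y hy
      rw [mem_filter] at hy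
      obtain ⟨hy, hy3⟩ := hy
      have hy1 := h2 y hy
      rw [mem_LC hd] at hy
      obtain ⟨g1, g2, g3, g4⟩ := hy
      obtain ⟨x, hx⟩ : ∃ x, x = (2 * y - d) / 3 := ⟨_, rfl⟩
      have hx3 : 3 * x = 2 * y - d := by omega
      show (2 * y - d) / 3 ∈ _
      rw [← hx]
      have hxo : ¬ x % 2 = 0 := by omega
      have hxF : x ∉ F := fun h => by
        have := M0_F (d := d) h
        omega
      have hT : Td d x = y := by
        have := Td_odd hd hxo
        omega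
      have hR : x ∈ RR d F := (RR_step hxF).2 (by rw [hT]; exact g2)
      rw [mem_filter, mem_LC hd]
      refine ⟨⟨by omega, hR, ?_, ?_⟩, hxo⟩
      · rw [ht_step hxF hR, hT, g3]
      · rw [ho_step hxF hR, hT, if_neg hxo, g4]; ring
    · intro x hx
      rw [mem_filter] at hx
      obtain ⟨hx, g5⟩ := hx
      have hx3 := h3 x hx
      rw [mem_LC hd] at hx
      obtain ⟨g1, g2, g3, g4⟩ := hx
      have hxF : x ∉ F := fun h => by
        have := (ht_zero_iff g2).2 h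
        omega
      have hT2 := Td_odd hd g5
      have hT : Td d x = (3 * x + d) / 2 := by omega
      have e1 := ht_step hxF g2
      have e2 := ho_step hxF g2
      rw [if_neg g5] at e2
      show (3 * x + d) / 2 ∈ _
      rw [← hT, mem_filter, mem_LC hd]
      exact ⟨⟨by omega, (RR_step hxF).1 g2, by omega, by omega⟩, by omega⟩
    · intro y hy
      rw [mem_filter] at hy
      obtain ⟨hy, hy3⟩ := hy
      show (3 * ((2 * y - d) / 3) + d) / 2 = y
      omega
    · intro x hx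
      have := (mem_filter.1 hx).2
      show (2 * ((3 * x + d) / 2) - d) / 3 = x
      omega
    · intro y hy
      rw [mem_filter] at hy
      obtain ⟨hy, hy3⟩ := hy
      have hy1 := h2 y hy
      obtain ⟨x, hx⟩ : ∃ x, x = (2 * y - d) / 3 := ⟨_, rfl⟩
      have hx3 : 3 * x = 2 * y - d := by omega
      have hx0 : 0 < x := by omega
      have hx0' : (0 : ℝ) < x := by exact_mod_cast hx0
      show (3 : ℝ) / (2 * y - d) = 1 / (((2 * y - d) / 3 : ℤ) : ℝ)
      rw [← hx]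
      have : (2 : ℝ) * y - d = 3 * x := by exact_mod_cast hx3.symm
      rw [this]
      field_simp

/-- the error of the harmonic relation -/
noncomputable def er (d : ℤ) (F : Finset ℤ) (w : ℕ × ℤ) : ℝ :=
  mm d F (w.1 + 1) w.2 - mm d F w.1 w.2 / 2 - mm d F w.1 (w.2 - 1) / 2

theorem mm_three (d : ℤ) (F : Finset ℤ) (k : ℕ) (o c : ℤ) :
    mm d F k o = sc d F c (k, o) + sc d F (c + 1) (k, o) + sc d F (c + 2) (k, o) := by
  classical
  unfold mm sc
  simp only
  rw [sum_filter, sum_filter, sum_filter, ← sum_add_distrib, ← sum_add_distrib]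
  apply sum_congr rfl
  intro x _
  have h : (3 ∣ x - c ∧ ¬ 3 ∣ x - (c + 1) ∧ ¬ 3 ∣ x - (c + 2)) ∨
      (¬ 3 ∣ x - c ∧ 3 ∣ x - (c + 1) ∧ ¬ 3 ∣ x - (c + 2)) ∨
      (¬ 3 ∣ x - c ∧ ¬ 3 ∣ x - (c + 1) ∧ 3 ∣ x - (c + 2)) := by omega
  rcases h with ⟨a, b, e⟩ | ⟨a, b, e⟩ | ⟨a, b, e⟩
  · rw [if_pos a, if_neg b, if_neg e]; ring
  · rw [if_neg a, if_pos b, if_neg e]; ring
  · rw [if_neg a, if_neg b, if_pos e]; ring

theorem er_le {d : ℤ} (hd : Odd d) {F : Finset ℤ} {k : ℕ} {o : ℤ}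
    (h1 : ∀ y ∈ LC d F k o, (M0 d F : ℤ) ≤ y) (h2 : ∀ y ∈ LC d F k (o - 1), (M0 d F : ℤ) ≤ y)
    (h3 : ∀ y ∈ LC d F (k + 1) o, (M0 d F : ℤ) ≤ y) :
    |er d F (k, o)| ≤ |sc d F (2 * d) (k, o - 1) - sc d F (2 * d + 1) (k, o - 1)| +
      |sc d F (2 * d) (k, o - 1) - sc d F (2 * d + 2) (k, o - 1)| +
      3 * |(d : ℝ)| * ∑ y ∈ LC d F k (o - 1), 1 / (y : ℝ) ^ 2 := by
  classical
  unfold er
  simp only
  rw [mm_step hd h1 h2 h3, mm_three d F k (o - 1) (2 * d)]
  have hM : d.natAbs + 10 ≤ M0 d F := by unfold M0; omega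
  have hcorr : |∑ y ∈ (LC d F k (o - 1)).filter (fun x => 3 ∣ x - 2 * d), (3 : ℝ) / (2 * y - d) -
      3 / 2 * sc d F (2 * d) (k, o - 1)| ≤ 3 * |(d : ℝ)| * ∑ y ∈ LC d F k (o - 1), 1 / (y : ℝ) ^ 2 := by
    unfold sc
    simp only
    rw [mul_sum, ← sum_sub_distrib, mul_sum]
    refine (abs_sum_le_sum_abs _ _).trans ?_
    refine (sum_le_sum (g := fun y : ℤ => 3 * |(d : ℝ)| * (1 / (y : ℝ) ^ 2)) ?_).trans
      (sum_le_sum_of_subset_of_nonneg (filter_subset _ _) fun y _ _ => by positivity)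
    intro y hy
    have hy1 := h2 y (mem_filter.1 hy).1
    have hyd : (d.natAbs : ℤ) + 10 ≤ y := by omega
    have hyd' : |(d : ℝ)| + 10 ≤ y := by
      have e : |(d : ℝ)| = ((d.natAbs : ℤ) : ℝ) := by
        rw [Int.natCast_natAbs, Int.cast_abs]
      rw [e]
      exact_mod_cast hyd
    have hd0 := abs_nonneg (d : ℝ)
    have hd1 := le_abs_self (d : ℝ)
    have hy0 : (0 : ℝ) < y := by linarith
    have hy2 : (y : ℝ) ≤ 2 * y - d := by linarith
    have hy3 : (0 : ℝ) < 2 * y - d := by linarith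
    have e : (3 : ℝ) / (2 * y - d) - 3 / 2 * (1 / y) = 3 * d / (2 * y * (2 * y - d)) := by
      field_simp
      ring
    rw [e, abs_div, abs_mul, abs_of_pos (show (0 : ℝ) < 3 by norm_num),
      abs_of_pos (show 0 < 2 * (y : ℝ) * (2 * y - d) by positivity), mul_one_div]
    apply div_le_div_of_nonneg_left (by positivity) (by positivity)
    nlinarith
  have ha := abs_nonneg (sc d F (2 * d) (k, o - 1) - sc d F (2 * d + 1) (k, o - 1))
  have hb := abs_nonneg (sc d F (2 * d) (k, o - 1) - sc d F (2 * d + 2) (k, o - 1))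
  have ha1 := le_abs_self (sc d F (2 * d) (k, o - 1) - sc d F (2 * d + 1) (k, o - 1))
  have hb1 := le_abs_self (sc d F (2 * d) (k, o - 1) - sc d F (2 * d + 2) (k, o - 1))
  have ha2 := neg_abs_le (sc d F (2 * d) (k, o - 1) - sc d F (2 * d + 1) (k, o - 1))
  have hb2 := neg_abs_le (sc d F (2 * d) (k, o - 1) - sc d F (2 * d + 2) (k, o - 1))
  obtain ⟨c1, c2⟩ := abs_le.1 hcorr
  rw [abs_le]
  constructor <;> linarith

/-- THE SUMMABLE ERROR -/
theorem er_sum {d : ℤ} (hd : Odd d) (hd3 : IsCoprime d 3) (F : Finset ℤ) : ∃ C : ℝ, 0 < C ∧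
    ∀ X0 : ℕ, M0 d F ≤ X0 → ∀ W : Finset (ℕ × ℤ),
      (∀ w ∈ W, (∀ y ∈ LC d F w.1 w.2, (X0 : ℤ) ≤ y) ∧ (∀ y ∈ LC d F w.1 (w.2 - 1), (X0 : ℤ) ≤ y) ∧
        (∀ y ∈ LC d F (w.1 + 1) w.2, (X0 : ℤ) ≤ y)) →
      ∑ w ∈ W, |er d F w| ≤ C / Real.log X0 := by
  classical
  obtain ⟨K, hK, hE⟩ := equi hd hd3 F
  refine ⟨20 * K + 6 * |(d : ℝ)|, by positivity, ?_⟩
  intro X0 hX0 W hW
  have hM : 10 ≤ M0 d F := by unfold M0; omega
  have hX3 : 3 ≤ X0 := by omega
  have hXR : (3 : ℝ) ≤ X0 := by exact_mod_cast hX3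
  have hinj : ∀ a ∈ W, ∀ b ∈ W, ((fun w : ℕ × ℤ => (w.1, w.2 - 1)) a = (fun w : ℕ × ℤ => (w.1, w.2 - 1)) b) → a = b := by
    intro a _ b _ h
    simp only [Prod.mk.injEq] at h
    ext
    · exact h.1
    · omega
  set W' : Finset (ℕ × ℤ) := W.image (fun w => (w.1, w.2 - 1)) with hW'
  have hWW : ∀ w ∈ W', ∀ y ∈ LC d F w.1 w.2, (X0 : ℤ) ≤ y := by
    intro w hw
    rw [hW', mem_image] at hw
    obtain ⟨v, hv, rfl⟩ := hw
    exact (hW v hv).2.1
  have h1 := two_sided hd hK hE hX3 W' hWW (2 * d) (2 * d + 1)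
  have h2 := two_sided hd hK hE hX3 W' hWW (2 * d) (2 * d + 2)
  have h3 : ∑ w ∈ W', ∑ y ∈ LC d F w.1 w.2, (1 : ℝ) / (y : ℝ) ^ 2 ≤ (2 : ℝ) / (X0 : ℝ) := by
    rw [← sum_biUnion]
    · apply sq_tail (by omega)
      intro x hx
      rw [mem_biUnion] at hx
      obtain ⟨w, hw, hx⟩ := hx
      exact hWW w hw x hx
    · intro w _ w' _ hne
      rw [Function.onFun, disjoint_left]
      intro x hx hx'
      rw [mem_LC hd] at hx hx'
      apply hne
      ext
      · rw [← hx.2.2.1, ← hx'.2.2.1]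
      · rw [← hx.2.2.2, ← hx'.2.2.2]
  rw [hW', sum_image hinj] at h1 h2 h3
  have h4 : ∑ w ∈ W, |er d F w| ≤ ∑ w ∈ W, (|sc d F (2 * d) (w.1, w.2 - 1) - sc d F (2 * d + 1) (w.1, w.2 - 1)| +
      |sc d F (2 * d) (w.1, w.2 - 1) - sc d F (2 * d + 2) (w.1, w.2 - 1)| +
      3 * |(d : ℝ)| * ∑ y ∈ LC d F w.1 (w.2 - 1), 1 / (y : ℝ) ^ 2) := by
    apply sum_le_sum
    intro w hw
    obtain ⟨g1, g2, g3⟩ := hW w hw
    have hX0' : (M0 d F : ℤ) ≤ X0 := by exact_mod_cast hX0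
    exact er_le hd (fun y hy => hX0'.trans (g1 y hy)) (fun y hy => hX0'.trans (g2 y hy))
      (fun y hy => hX0'.trans (g3 y hy))
  rw [sum_add_distrib, sum_add_distrib, ← mul_sum] at h4
  have hlog : 0 < Real.log X0 := Real.log_pos (by linarith)
  have hlog2 : Real.log X0 ≤ X0 := (Real.log_le_sub_one_of_pos (by linarith)).trans (by linarith)
  have h5 : 3 * |(d : ℝ)| * (2 / X0) ≤ 6 * |(d : ℝ)| / Real.log X0 := by
    rw [← mul_div_assoc]
    have e : 3 * |(d : ℝ)| * 2 = 6 * |(d : ℝ)| := by ring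
    rw [e]
    exact div_le_div_of_nonneg_left (by positivity) hlog hlog2
  have h6 := mul_le_mul_of_nonneg_left h3 (show 0 ≤ 3 * |(d : ℝ)| by positivity)
  have e : (20 * K + 6 * |(d : ℝ)|) / Real.log X0 = 10 * K / Real.log X0 + 10 * K / Real.log X0 +
      6 * |(d : ℝ)| / Real.log X0 := by ring
  rw [e]
  linarith

end Pool.Agent.R344.LS
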