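import Pool.Agent.R344.LS.C

/-!
Level sums, part 4: convergence of the level sums for the three statistics.
-/

set_option autoImplicit false

namespace Pool.Agent.R344.LS

open Finset Filter Topology
open Pool.Agent.H499R2.LT
open Pool.Agent.H499R2.ND (Td)

/-- a bound for the hitting times of the integers below `X0` -/
noncomputable def HX (d : ℤ) (F : Finset ℤ) (X0 : ℕ) : ℕ := (Icc (1 : ℤ) X0).sup (fun x => ht d F x)

theorem big {d : ℤ} (hd : Odd d) {F : Finset ℤ} {X0 k : ℕ} {o : ℤ}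
    (h : HX d F X0 < k ∨ (HX d F X0 : ℤ) < o ∨ 2 * (HX d F X0 : ℤ) < k + o) :
    ∀ y ∈ LC d F k o, (X0 : ℤ) ≤ y := by
  intro y hy
  rw [mem_LC hd] at hy
  obtain ⟨h1, _, h2, h3⟩ := hy
  by_contra hcon
  have h4 : ht d F y ≤ HX d F X0 :=
    Finset.le_sup (f := fun x => ht d F x) (mem_Icc.2 ⟨by omega, by omega⟩ : y ∈ Icc (1 : ℤ) X0)
  have h5 := (ho_bd d F y).2
  omega

/-- a sequence with small increments in sum converges -/
theorem conv_of_incr {u : ℕ → ℝ} (h : ∀ ε : ℝ, 0 < ε → ∃ J : ℕ, ∀ j1 j2 : ℕ, J ≤ j1 → j1 ≤ j2 →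
    |u j2 - u j1| ≤ ε) : ∃ l : ℝ, Tendsto u atTop (𝓝 l) := by
  apply cauchySeq_tendsto_of_complete
  rw [Metric.cauchySeq_iff']
  intro ε hε
  obtain ⟨J, hJ⟩ := h (ε / 2) (by positivity)
  refine ⟨J, fun n hn => ?_⟩
  rw [Real.dist_eq]
  have := hJ J n le_rfl hn
  linarith

theorem log_large {C ε : ℝ} (hε : 0 < ε) (a : ℕ) : ∃ X0 : ℕ, a ≤ X0 ∧ C / Real.log X0 ≤ ε := by
  have h1 : Tendsto (fun X : ℕ => C / Real.log X) atTop (𝓝 0) :=
    tendsto_const_nhds.div_atTop (Real.tendsto_log_atTop.comp tendsto_natCast_atTop_atTop)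
  obtain ⟨X0, hX0⟩ := eventually_atTop.1 ((h1.eventually (ge_mem_nhds hε)).and (eventually_ge_atTop a))
  exact ⟨X0, (hX0 X0 le_rfl).2, (hX0 X0 le_rfl).1⟩

/-! ### steps -/

/-- the sum of the reciprocals over the level `k` (steps) -/
noncomputable def AT (d : ℤ) (F : Finset ℤ) (k : ℕ) : ℝ := ∑ o ∈ range (k + 1), mm d F k (o : ℤ)

theorem AT_step {d : ℤ} (hd : Odd d) (F : Finset ℤ) (k : ℕ) :
    AT d F (k + 1) = AT d F k + ∑ o ∈ range (k + 2), er d F (k, (o : ℤ)) := by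
  unfold er
  simp only
  rw [sum_sub_distrib, sum_sub_distrib, ← sum_div, ← sum_div]
  have h1 : ∑ o ∈ range (k + 2), mm d F k (o : ℤ) = AT d F k := by
    rw [sum_range_succ, mm_zero hd F (Or.inr (by push_cast; omega)), add_zero]
    rfl
  have h2 : ∑ o ∈ range (k + 2), mm d F k ((o : ℤ) - 1) = AT d F k := by
    rw [sum_range_succ', mm_zero hd F (Or.inl (by simp)), add_zero]
    unfold AT
    apply sum_congr rfl
    intro o _
    congr 1
    push_cast
    ring
  rw [h1, h2]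
  unfold AT
  ring

theorem tele (f : ℕ → ℝ) {a b : ℕ} (h : a ≤ b) :
    ∑ k ∈ Ico a b, (f (k + 1) - f k) = f b - f a := by
  induction b, h using Nat.le_induction with
  | base => simp
  | succ n hn ih =>
    rw [sum_Ico_succ_top hn, ih]
    ring

theorem AT_lim {d : ℤ} (hd : Odd d) (hd3 : IsCoprime d 3) (F : Finset ℤ) :
    ∃ l : ℝ, Tendsto (AT d F) atTop (𝓝 l) := by
  classical
  obtain ⟨C, hC, hE⟩ := er_sum hd hd3 F
  apply conv_of_incr
  intro ε hε
  obtain ⟨X0, hX0, hX1⟩ := log_large (C := C) hε (M0 d F)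
  refine ⟨HX d F X0 + 1, fun j1 j2 h1 h2 => ?_⟩
  have e : AT d F j2 - AT d F j1 = ∑ k ∈ Ico j1 j2, ∑ o ∈ range (k + 2), er d F (k, (o : ℤ)) := by
    rw [← tele (AT d F) h2]
    apply sum_congr rfl
    intro k _
    rw [AT_step hd F k]
    ring
  have h3 : |∑ k ∈ Ico j1 j2, ∑ o ∈ range (k + 2), er d F (k, (o : ℤ))| ≤
      ∑ k ∈ Ico j1 j2, ∑ o ∈ range (j2 + 2), |er d F (k, (o : ℤ))| := by
    refine (abs_sum_le_sum_abs _ _).trans (sum_le_sum fun k hk => ?_)
    refine (abs_sum_le_sum_abs _ _).trans ?_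
    apply sum_le_sum_of_subset_of_nonneg
    · rw [mem_Ico] at hk
      apply range_subset_range.2
      omega
    · intro _ _ _
      exact abs_nonneg _
  have h4 : ∑ k ∈ Ico j1 j2, ∑ o ∈ range (j2 + 2), |er d F (k, (o : ℤ))| =
      ∑ w ∈ (Ico j1 j2) ×ˢ ((range (j2 + 2)).image (fun o : ℕ => (o : ℤ))), |er d F w| := by
    rw [sum_product]
    apply sum_congr rfl
    intro k _
    rw [sum_image fun a _ b _ h => by exact_mod_cast h]
  have h5 := hE X0 hX0 ((Ico j1 j2) ×ˢ ((range (j2 + 2)).image (fun o : ℕ => (o : ℤ)))) (by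
    intro w hw
    rw [mem_product, mem_Ico] at hw
    exact ⟨big hd (Or.inl (by omega)), big hd (Or.inl (by omega)), big hd (Or.inl (by omega))⟩)
  rw [e]
  rw [h4] at h3
  linarith

/-! ### steps plus odd terms -/

/-- the sum of the reciprocals over the level `j` (steps plus odd terms) -/
noncomputable def UC (d : ℤ) (F : Finset ℤ) (j : ℕ) : ℝ := ∑ k ∈ range (j + 1), mm d F k ((j : ℤ) - k)

theorem UC_step {d : ℤ} (hd : Odd d) (F : Finset ℤ) (j : ℕ) :
    UC d F (j + 2) = UC d F (j + 1) / 2 + UC d F j / 2 +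
      ∑ k ∈ range (j + 2), er d F (k, ((j : ℤ) + 1) - k) := by
  unfold er
  simp only
  rw [sum_sub_distrib, sum_sub_distrib, ← sum_div, ← sum_div]
  have h1 : ∑ k ∈ range (j + 2), mm d F k ((j : ℤ) + 1 - k) = UC d F (j + 1) := by
    unfold UC
    apply sum_congr rfl
    intro k _
    congr 1
  have h2 : ∑ k ∈ range (j + 2), mm d F k ((j : ℤ) + 1 - k - 1) = UC d F j := by
    rw [sum_range_succ, mm_zero hd F (Or.inl (by push_cast; omega)), add_zero]
    unfold UC
    apply sum_congr rfl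
    intro k _
    congr 1
    ring
  have h3 : ∑ k ∈ range (j + 2), mm d F (k + 1) ((j : ℤ) + 1 - k) = UC d F (j + 2) := by
    unfold UC
    rw [sum_range_succ' _ (j + 2), mm_zero hd F (Or.inr (by push_cast; omega)), add_zero]
    apply sum_congr rfl
    intro k _
    congr 1
    push_cast
    ring
  rw [h1, h2, h3]
  ring

/-- removal of a contraction -/
theorem lim_of_half {u : ℕ → ℝ} {v : ℝ} (h : Tendsto (fun j => u (j + 1) + u j / 2) atTop (𝓝 v)) :
    Tendsto u atTop (𝓝 (2 / 3 * v)) := by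
  rw [Metric.tendsto_atTop]
  intro ε hε
  rw [Metric.tendsto_atTop] at h
  obtain ⟨J, hJ⟩ := h (ε / 4) (by positivity)
  have key : ∀ n : ℕ, |u (J + n) - 2 / 3 * v| ≤ |u J - 2 / 3 * v| / 2 ^ n + ε / 2 := by
    intro n
    induction n with
    | zero =>
      rw [add_zero, pow_zero, div_one]
      linarith
    | succ n ih =>
      have h1 := hJ (J + n) (by omega)
      rw [Real.dist_eq] at h1
      have e : u (J + (n + 1)) - 2 / 3 * v = (u (J + n + 1) + u (J + n) / 2 - v) -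
          (u (J + n) - 2 / 3 * v) / 2 := by
        rw [← add_assoc]; ring
      rw [e]
      refine (abs_sub _ _).trans ?_
      rw [abs_div, abs_of_pos (show (0 : ℝ) < 2 by norm_num), pow_succ, ← div_div]
      linarith
  have h2 : Tendsto (fun n : ℕ => |u J - 2 / 3 * v| / 2 ^ n) atTop (𝓝 0) :=
    tendsto_const_nhds.div_atTop (tendsto_pow_atTop_atTop_of_one_lt (by norm_num))
  obtain ⟨N, hN⟩ := eventually_atTop.1 (h2.eventually (gt_mem_nhds (show 0 < ε / 2 by positivity)))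
  refine ⟨J + N, fun m hm => ?_⟩
  obtain ⟨n, rfl⟩ : ∃ n, m = J + n := ⟨m - J, by omega⟩
  rw [Real.dist_eq]
  have h3 := key n
  have h4 := hN n (by omega)
  linarith

theorem UC_lim {d : ℤ} (hd : Odd d) (hd3 : IsCoprime d 3) (F : Finset ℤ) :
    ∃ l : ℝ, Tendsto (UC d F) atTop (𝓝 l) := by
  classical
  obtain ⟨C, hC, hE⟩ := er_sum hd hd3 F
  obtain ⟨v, hv⟩ : ∃ v : ℝ, Tendsto (fun j => UC d F (j + 1) + UC d F j / 2) atTop (𝓝 v) := by
    apply conv_of_incr
    intro ε hε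
    obtain ⟨X0, hX0, hX1⟩ := log_large (C := C) hε (M0 d F)
    refine ⟨2 * HX d F X0 + 1, fun j1 j2 h1 h2 => ?_⟩
    have e : (UC d F (j2 + 1) + UC d F j2 / 2) - (UC d F (j1 + 1) + UC d F j1 / 2) =
        ∑ j ∈ Ico j1 j2, ∑ k ∈ range (j + 2), er d F (k, ((j : ℤ) + 1) - k) := by
      rw [← tele (fun j => UC d F (j + 1) + UC d F j / 2) h2]
      apply sum_congr rfl
      intro j _
      rw [UC_step hd F j]
      ring
    have h3 : |∑ j ∈ Ico j1 j2, ∑ k ∈ range (j + 2), er d F (k, ((j : ℤ) + 1) - k)| ≤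
        ∑ j ∈ Ico j1 j2, ∑ k ∈ range (j2 + 2), |er d F (k, ((j : ℤ) + 1) - k)| := by
      refine (abs_sum_le_sum_abs _ _).trans (sum_le_sum fun k hk => ?_)
      refine (abs_sum_le_sum_abs _ _).trans ?_
      apply sum_le_sum_of_subset_of_nonneg
      · rw [mem_Ico] at hk
        apply range_subset_range.2
        omega
      · intro _ _ _
        exact abs_nonneg _
    have h4 : ∑ j ∈ Ico j1 j2, ∑ k ∈ range (j2 + 2), |er d F (k, ((j : ℤ) + 1) - k)| =
        ∑ w ∈ ((Ico j1 j2) ×ˢ (range (j2 + 2))).image (fun p : ℕ × ℕ => (p.2, ((p.1 : ℤ) + 1) - p.2)),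
          |er d F w| := by
      rw [sum_image, sum_product]
      rintro ⟨a, b⟩ _ ⟨a', b'⟩ _ h
      simp only [Prod.mk.injEq] at h
      obtain ⟨rfl, h⟩ := h
      have : a = a' := by omega
      rw [this]
    have h5 := hE X0 hX0 (((Ico j1 j2) ×ˢ (range (j2 + 2))).image (fun p : ℕ × ℕ => (p.2, ((p.1 : ℤ) + 1) - p.2))) (by
      intro w hw
      rw [mem_image] at hw
      obtain ⟨⟨a, b⟩, hp, rfl⟩ := hw
      rw [mem_product, mem_Ico] at hp
      simp only at hp ⊢
      exact ⟨big hd (Or.inr (Or.inr (by omega))), big hd (Or.inr (Or.inr (by omega))),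
        big hd (Or.inr (Or.inr (by push_cast; omega)))⟩)
    rw [e]
    rw [h4] at h3
    linarith
  exact ⟨_, lim_of_half hv⟩

end Pool.Agent.R344.LS
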