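import Pool.Agent.R344.LS.D

/-!
Level sums, part 5: the levels of the number of odd terms.
-/

set_option autoImplicit false

namespace Pool.Agent.R344.LS

open Finset Filter Topology
open Pool.Agent.H499R2.LT
open Pool.Agent.H499R2.ND (Td)

theorem choose_bd (k o : ℕ) : (k.choose o : ℝ) ≤ 3 ^ o * (4 / 3) ^ k := by
  rcases lt_or_ge k o with h | h
  · rw [Nat.choose_eq_zero_of_lt h, Nat.cast_zero]
    positivity
  · have h1 : ((1 : ℝ) / 3 + 1) ^ k = ∑ m ∈ range (k + 1), (1 / 3) ^ m * 1 ^ (k - m) * (k.choose m : ℝ) :=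
      add_pow _ _ _
    have h2 : (1 / 3 : ℝ) ^ o * 1 ^ (k - o) * (k.choose o : ℝ) ≤
        ∑ m ∈ range (k + 1), (1 / 3 : ℝ) ^ m * 1 ^ (k - m) * (k.choose m : ℝ) :=
      single_le_sum (f := fun m : ℕ => (1 / 3 : ℝ) ^ m * 1 ^ (k - m) * (k.choose m : ℝ))
        (fun m _ => by positivity) (mem_range.2 (by omega))
    rw [← h1, one_pow, mul_one, show (1 : ℝ) / 3 + 1 = 4 / 3 by norm_num, one_div, inv_pow] at h2
    rw [inv_mul_eq_div, div_le_iff₀ (by positivity)] at h2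
    linarith

theorem mm_bd {d : ℤ} (hd : Odd d) (hd3 : IsCoprime d 3) (F : Finset ℤ) : ∃ B : ℝ, 0 < B ∧
    ∀ k o : ℕ, mm d F k (o : ℤ) ≤ B * 9 ^ o * (2 / 3) ^ k := by
  obtain ⟨C, hC, hs⟩ := size hd hd3 F
  refine ⟨(F.card + 1) * Real.exp C, by positivity, ?_⟩
  intro k o
  have h1 : ∀ x ∈ LC d F k (o : ℤ), (1 : ℝ) / x ≤ Real.exp C * 3 ^ o / 2 ^ k := by
    intro x hx
    rw [mem_LC hd] at hx
    obtain ⟨g1, g2, g3, g4⟩ := hx
    have h2 := (abs_le.1 (hs x (by omega) g2)).1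
    rw [g3, g4] at h2
    have hx0 : (0 : ℝ) < x := by exact_mod_cast g1
    have e : Real.exp C * 3 ^ o / 2 ^ k = Real.exp (C + o * Real.log 3 - k * Real.log 2) := by
      rw [Real.exp_sub, Real.exp_add, mul_comm (o : ℝ), mul_comm (k : ℝ), Real.exp_mul, Real.exp_mul,
        Real.exp_log (by norm_num), Real.exp_log (by norm_num), Real.rpow_natCast, Real.rpow_natCast]
    rw [e, one_div, ← Real.exp_log hx0, ← Real.exp_neg, Real.exp_le_exp]
    push_cast at h2
    linarith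
  have h2 : mm d F k (o : ℤ) ≤ (LC d F k (o : ℤ)).card * (Real.exp C * 3 ^ o / 2 ^ k) := by
    unfold mm
    have := sum_le_card_nsmul _ _ _ h1
    rwa [nsmul_eq_mul] at this
  have h3 : ((LC d F k (o : ℤ)).card : ℝ) ≤ (F.card + 1) * (3 ^ o * (4 / 3) ^ k) := by
    have h4 : ((LC d F k (o : ℤ)).card : ℝ) ≤ F.card * (k.choose o : ℝ) := by exact_mod_cast LC_card hd F k o
    refine h4.trans ?_
    exact mul_le_mul (by linarith) (choose_bd k o) (Nat.cast_nonneg _) (by positivity)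
  refine h2.trans ((mul_le_mul_of_nonneg_right h3 (by positivity)).trans (le_of_eq ?_))
  have e1 : (9 : ℝ) ^ o = 3 ^ o * 3 ^ o := by rw [← mul_pow]; norm_num
  have e2 : ((2 : ℝ) / 3) ^ k = (4 / 3) ^ k / 2 ^ k := by rw [← div_pow]; norm_num
  rw [e1, e2]
  ring

theorem mm_summable {d : ℤ} (hd : Odd d) (hd3 : IsCoprime d 3) (F : Finset ℤ) (o : ℤ) :
    Summable fun k => mm d F k o := by
  rcases lt_or_ge o 0 with h | h
  · have : (fun k => mm d F k o) = fun _ => 0 := by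
      funext k
      exact mm_zero hd F (Or.inl h)
    rw [this]
    exact summable_zero
  · obtain ⟨p, rfl⟩ : ∃ p : ℕ, o = p := ⟨o.toNat, by omega⟩
    obtain ⟨B, hB, hb⟩ := mm_bd hd hd3 F
    refine Summable.of_nonneg_of_le (fun k => mm_nonneg hd F k _) (fun k => hb k p) ?_
    exact (summable_geometric_of_lt_one (by norm_num) (by norm_num)).mul_left _

/-- the sum of the reciprocals over the level `o` (odd terms) -/
noncomputable def UO (d : ℤ) (F : Finset ℤ) (o : ℕ) : ℝ := ∑' k : ℕ, mm d F k (o : ℤ)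

theorem er_summable {d : ℤ} (hd : Odd d) (hd3 : IsCoprime d 3) (F : Finset ℤ) (o : ℤ) :
    Summable fun k => er d F (k, o) := by
  unfold er
  simp only
  have h1 := mm_summable hd hd3 F o
  have h2 := mm_summable hd hd3 F (o - 1)
  exact (((summable_nat_add_iff 1).2 h1).sub (h1.div_const 2)).sub (h2.div_const 2)

theorem UO_step {d : ℤ} (hd : Odd d) (hd3 : IsCoprime d 3) (F : Finset ℤ) (o : ℕ) :
    UO d F (o + 1) = UO d F o + 2 * ∑' k : ℕ, er d F (k, (o : ℤ) + 1) := by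
  have h1 := mm_summable hd hd3 F ((o : ℤ) + 1)
  have h2 := mm_summable hd hd3 F (o : ℤ)
  have e : ∑' k : ℕ, er d F (k, (o : ℤ) + 1) = ∑' k : ℕ, mm d F (k + 1) ((o : ℤ) + 1) -
      (∑' k : ℕ, mm d F k ((o : ℤ) + 1)) / 2 - (∑' k : ℕ, mm d F k (o : ℤ)) / 2 := by
    unfold er
    simp only
    have e0 : ∀ k : ℕ, mm d F k ((o : ℤ) + 1 - 1) = mm d F k (o : ℤ) := by
      intro k
      congr 1
      ring
    simp only [e0]
    rw [Summable.tsum_sub (((summable_nat_add_iff 1).2 h1).sub (h1.div_const 2)) (h2.div_const 2),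
      Summable.tsum_sub ((summable_nat_add_iff 1).2 h1) (h1.div_const 2), tsum_div_const, tsum_div_const]
  have h3 : ∑' k : ℕ, mm d F k ((o : ℤ) + 1) = mm d F 0 ((o : ℤ) + 1) + ∑' k : ℕ, mm d F (k + 1) ((o : ℤ) + 1) :=
    h1.tsum_eq_zero_add
  rw [mm_zero hd F (Or.inr (by push_cast; omega)), zero_add] at h3
  have e1 : UO d F (o + 1) = ∑' k : ℕ, mm d F k ((o : ℤ) + 1) := by
    unfold UO
    push_cast
    rfl
  have e2 : UO d F o = ∑' k : ℕ, mm d F k (o : ℤ) := rfl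
  rw [e, e1, e2]
  linarith

theorem UO_lim {d : ℤ} (hd : Odd d) (hd3 : IsCoprime d 3) (F : Finset ℤ) :
    ∃ l : ℝ, Tendsto (UO d F) atTop (𝓝 l) := by
  classical
  obtain ⟨C, hC, hE⟩ := er_sum hd hd3 F
  apply conv_of_incr
  intro ε hε
  obtain ⟨X0, hX0, hX1⟩ := log_large (C := C) (show 0 < ε / 2 by positivity) (M0 d F)
  refine ⟨HX d F X0 + 1, fun j1 j2 h1 h2 => ?_⟩
  have e : UO d F j2 - UO d F j1 = ∑ o ∈ Ico j1 j2, 2 * ∑' k : ℕ, er d F (k, (o : ℤ) + 1) := by
    rw [← tele (UO d F) h2]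
    apply sum_congr rfl
    intro k _
    rw [UO_step hd hd3 F k]
    ring
  have habs : ∀ o : ℤ, Summable fun k => |er d F (k, o)| := fun o => (er_summable hd hd3 F o).abs
  have h3 : |∑ o ∈ Ico j1 j2, 2 * ∑' k : ℕ, er d F (k, (o : ℤ) + 1)| ≤
      2 * ∑' k : ℕ, ∑ o ∈ Ico j1 j2, |er d F (k, (o : ℤ) + 1)| := by
    rw [Summable.tsum_finsetSum (fun o _ => habs _), mul_sum]
    refine (abs_sum_le_sum_abs _ _).trans (sum_le_sum fun o _ => ?_)
    rw [abs_mul, abs_of_pos (show (0 : ℝ) < 2 by norm_num)]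
    apply mul_le_mul_of_nonneg_left _ (by norm_num)
    have := norm_tsum_le_tsum_norm (f := fun k : ℕ => er d F (k, (o : ℤ) + 1)) (by
      simpa only [Real.norm_eq_abs] using habs _)
    simpa only [Real.norm_eq_abs] using this
  have h4 : ∑' k : ℕ, ∑ o ∈ Ico j1 j2, |er d F (k, (o : ℤ) + 1)| ≤ C / Real.log X0 := by
    apply Real.tsum_le_of_sum_range_le
    · intro k
      exact sum_nonneg fun _ _ => abs_nonneg _
    · intro N
      have e4 : ∑ k ∈ range N, ∑ o ∈ Ico j1 j2, |er d F (k, (o : ℤ) + 1)| =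
          ∑ w ∈ (range N) ×ˢ ((Ico j1 j2).image (fun o : ℕ => (o : ℤ) + 1)), |er d F w| := by
        rw [sum_product]
        apply sum_congr rfl
        intro k _
        rw [sum_image fun a _ b _ h => by
          omega]
      rw [e4]
      apply hE X0 hX0
      intro w hw
      rw [mem_product, mem_image] at hw
      obtain ⟨_, o, ho', hw2⟩ := hw
      rw [mem_Ico] at ho'
      exact ⟨big hd (Or.inr (Or.inl (by omega))), big hd (Or.inr (Or.inl (by omega))),
        big hd (Or.inr (Or.inl (by omega)))⟩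
  rw [e]
  linarith

end Pool.Agent.R344.LS
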