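import Pool.Agent.R344.LS.G

/-!
Level sums, part 8: the values of the limits.
-/

set_option autoImplicit false

namespace Pool.Agent.R344.LS

open Finset Filter Topology
open Pool.Agent.H499R2.LT
open Pool.Agent.H499R2.ND (Td Dn cnt cnt_eq mu_pos' cop_of_not_dvd)
open Pool.Agent.H319R2.Lln (mu)

open Classical in
/-- the natural numbers of a finite union of cells -/
noncomputable def NW (d : ℤ) (F : Finset ℤ) (W : Finset (ℕ × ℤ)) : Finset ℕ :=
  (W.biUnion (fun w => LC d F w.1 w.2)).image Int.toNat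

theorem mem_NW {d : ℤ} (hd : Odd d) {F : Finset ℤ} {W : Finset (ℕ × ℤ)} {n : ℕ} :
    n ∈ NW d F W ↔ 1 ≤ n ∧ (n : ℤ) ∈ RR d F ∧ (ht d F n, ho d F n) ∈ W := by
  classical
  unfold NW
  rw [mem_image]
  constructor
  · rintro ⟨x, hx, rfl⟩
    rw [mem_biUnion] at hx
    obtain ⟨w, hw, hx⟩ := hx
    rw [mem_LC hd] at hx
    obtain ⟨h1, h2, h3, h4⟩ := hx
    have e : ((x.toNat : ℕ) : ℤ) = x := Int.toNat_of_nonneg h1.le
    rw [e, h3, h4]
    exact ⟨by omega, h2, hw⟩
  · rintro ⟨h1, h2, h3⟩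
    refine ⟨(n : ℤ), ?_, by simp⟩
    rw [mem_biUnion]
    refine ⟨_, h3, ?_⟩
    rw [mem_LC hd]
    exact ⟨by omega, h2, rfl, rfl⟩

theorem NW_sum {d : ℤ} (hd : Odd d) (F : Finset ℤ) (W : Finset (ℕ × ℤ)) :
    ∑ n ∈ NW d F W, (1 : ℝ) / n = ∑ w ∈ W, mm d F w.1 w.2 := by
  classical
  unfold NW
  rw [sum_image, sum_biUnion]
  · apply sum_congr rfl
    intro w _
    unfold mm
    apply sum_congr rfl
    intro x hx
    rw [mem_LC hd] at hx
    have e : ((x.toNat : ℕ) : ℤ) = x := Int.toNat_of_nonneg hx.1.le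
    have e2 : ((x.toNat : ℕ) : ℝ) = (x : ℝ) := by
      rw [← Int.cast_natCast, e]
    rw [e2]
  · intro w _ w' _ hne
    rw [Function.onFun, disjoint_left]
    intro x hx hx'
    rw [mem_LC hd] at hx hx'
    apply hne
    ext
    · rw [← hx.2.2.1, ← hx'.2.2.1]
    · rw [← hx.2.2.2, ← hx'.2.2.2]
  · intro x hx y hy h
    rw [mem_coe, mem_biUnion] at hx hy
    obtain ⟨w, _, hx⟩ := hx
    obtain ⟨w', _, hy⟩ := hy
    rw [mem_LC hd] at hx hy
    have := hx.1
    have := hy.1
    omega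

theorem ar1 {t s c ε J : ℝ} (ht : 0 < t) (hc : 0 < c) (hε : 0 < ε) (hε1 : ε ≤ 1)
    (h : |s * c - t| ≤ ε / 4 * t) (h2 : t ≤ (1 - ε) * (c * J)) : s < J ∧ 0 < J := by
  have h1 := (abs_le.1 h).2
  have hJ : 0 < J := by
    by_contra hcon
    push Not at hcon
    have h3 : c * J ≤ 0 := mul_nonpos_of_nonneg_of_nonpos hc.le hcon
    have h4 : (1 - ε) * (c * J) ≤ 0 := mul_nonpos_of_nonneg_of_nonpos (by linarith) h3
    linarith
  refine ⟨?_, hJ⟩
  have hcJ : 0 < c * J := by positivity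
  have h3 : s * c ≤ (1 + ε / 4) * t := by linarith
  have h4 : (1 + ε / 4) * t ≤ (1 + ε / 4) * ((1 - ε) * (c * J)) :=
    mul_le_mul_of_nonneg_left h2 (by linarith)
  have h5 : (1 + ε / 4) * ((1 - ε) * (c * J)) < c * J := by
    have g1 := mul_pos hε hcJ
    have g2 := mul_pos hε g1
    have g3 : (1 + ε / 4) * ((1 - ε) * (c * J)) = c * J - 3 / 4 * (ε * (c * J)) - 1 / 4 * (ε * (ε * (c * J))) := by ring
    linarith
  have h6 : s * c < J * c := by linarith
  exact lt_of_mul_lt_mul_right h6 hc.le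

theorem ar2 {t s c ε J : ℝ} (ht : 0 < t) (hc : 0 < c) (hε : 0 < ε) (hε1 : ε ≤ 1)
    (h : |s * c - t| ≤ ε / 4 * t) (h2 : s ≤ J) : t ≤ (1 + ε) * (c * J) := by
  have h1 := (abs_le.1 h).1
  have h3 : (1 - ε / 4) * t ≤ c * J := by
    have : s * c ≤ J * c := mul_le_mul_of_nonneg_right h2 hc.le
    linarith
  have h4 : (1 + ε) * ((1 - ε / 4) * t) ≤ (1 + ε) * (c * J) := mul_le_mul_of_nonneg_left h3 (by linarith)
  nlinarith [mul_pos hε ht, mul_nonneg (mul_pos hε ht).le (sub_nonneg.2 hε1)]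

theorem log_le_ht {d : ℤ} {F : Finset ℤ} {C : ℝ}
    (hs : ∀ x : ℤ, x ≠ 0 → x ∈ RR d F → |Real.log (x : ℝ) + ho d F x * Real.log 3 - ht d F x * Real.log 2| ≤ C)
    {n : ℕ} (hn : 1 ≤ n) (h : (n : ℤ) ∈ RR d F) : Real.log n ≤ C + ht d F n := by
  have h1 := (abs_le.1 (hs n (by omega) h)).2
  rw [Int.cast_natCast] at h1
  have h2 : (0 : ℝ) ≤ ho d F n := by exact_mod_cast (ho_bd d F n).1
  have h3 : 0 ≤ Real.log 3 := Real.log_nonneg (by norm_num)
  have h4 : Real.log 2 ≤ 1 := by linarith [Real.log_two_lt_d9]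
  have h5 : (0 : ℝ) ≤ ht d F n := Nat.cast_nonneg _
  nlinarith [mul_nonneg h2 h3]

/-! ### the cell unions -/

open Classical in
noncomputable def WT (J : ℕ) : Finset (ℕ × ℤ) := (range J) ×ˢ ((range J).image (fun o : ℕ => (o : ℤ)))

theorem WT_sum {d : ℤ} (hd : Odd d) (F : Finset ℤ) (J : ℕ) :
    ∑ w ∈ WT J, mm d F w.1 w.2 = ∑ k ∈ range J, AT d F k := by
  classical
  unfold WT
  rw [sum_product]
  apply sum_congr rfl
  intro k hk
  rw [sum_image fun a _ b _ h => by exact_mod_cast h]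
  unfold AT
  symm
  apply sum_subset
  · rw [mem_range] at hk
    exact range_subset_range.2 (by omega)
  · intro o _ ho'
    rw [mem_range] at ho'
    exact mm_zero hd F (Or.inr (by omega))

theorem mem_WT {d : ℤ} {F : Finset ℤ} {J : ℕ} {x : ℤ} : (ht d F x, ho d F x) ∈ WT J ↔ ht d F x < J := by
  classical
  unfold WT
  rw [mem_product, mem_range, mem_image]
  have := ho_bd d F x
  constructor
  · exact fun h => h.1
  · intro h
    exact ⟨h, (ho d F x).toNat, mem_range.2 (by omega), by simp only; omega⟩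

open Classical in
noncomputable def WC (J : ℕ) : Finset (ℕ × ℤ) :=
  ((range J) ×ˢ (range J)).image (fun p : ℕ × ℕ => (p.2, (p.1 : ℤ) - p.2))

theorem WC_sum {d : ℤ} (hd : Odd d) (F : Finset ℤ) (J : ℕ) :
    ∑ w ∈ WC J, mm d F w.1 w.2 = ∑ j ∈ range J, UC d F j := by
  classical
  unfold WC
  rw [sum_image, sum_product]
  · apply sum_congr rfl
    intro j hj
    unfold UC
    symm
    apply sum_subset
    · rw [mem_range] at hj
      exact range_subset_range.2 (by omega)
    · intro k _ hk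
      rw [mem_range] at hk
      exact mm_zero hd F (Or.inl (by omega))
  · rintro ⟨a, b⟩ _ ⟨a', b'⟩ _ h
    simp only [Prod.mk.injEq] at h
    obtain ⟨rfl, h⟩ := h
    have : a = a' := by omega
    rw [this]

theorem mem_WC {d : ℤ} {F : Finset ℤ} {J : ℕ} {x : ℤ} :
    (ht d F x, ho d F x) ∈ WC J ↔ (ht d F x : ℤ) + ho d F x < J := by
  classical
  unfold WC
  rw [mem_image]
  have := ho_bd d F x
  constructor
  · rintro ⟨⟨j, k⟩, h1, h2⟩
    rw [mem_product, mem_range, mem_range] at h1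
    simp only [Prod.mk.injEq] at h2 h1
    omega
  · intro h
    refine ⟨(ht d F x + (ho d F x).toNat, ht d F x), ?_, ?_⟩
    · rw [mem_product, mem_range, mem_range]
      simp only
      omega
    · simp only [Prod.mk.injEq, true_and]
      push_cast
      omega

open Classical in
noncomputable def WO (J : ℕ) : Finset (ℕ × ℤ) := (range (8 * J)) ×ˢ ((range J).image (fun o : ℕ => (o : ℤ)))

theorem WO_sum {d : ℤ} (F : Finset ℤ) (J : ℕ) :
    ∑ w ∈ WO J, mm d F w.1 w.2 = ∑ o ∈ range J, ∑ k ∈ range (8 * J), mm d F k (o : ℤ) := by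
  classical
  unfold WO
  rw [sum_product, sum_comm, sum_image fun a _ b _ h => by exact_mod_cast h]

theorem mem_WO {d : ℤ} {F : Finset ℤ} {J : ℕ} {x : ℤ} :
    (ht d F x, ho d F x) ∈ WO J ↔ ht d F x < 8 * J ∧ ho d F x < J := by
  classical
  unfold WO
  rw [mem_product, mem_range, mem_image]
  have := ho_bd d F x
  constructor
  · rintro ⟨h1, o, h2, h3⟩
    rw [mem_range] at h2
    simp only at h3 h1
    exact ⟨h1, by omega⟩
  · rintro ⟨h1, h2⟩
    exact ⟨h1, (ho d F x).toNat, mem_range.2 (by omega), by simp only; omega⟩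

/-- THE LIMITS -/
theorem limits {d : ℤ} (hd : Odd d) (hd3 : ¬ (3 : ℤ) ∣ d) (F : Finset ℤ) : ∃ δ : ℝ, 0 ≤ δ ∧
    ((∃ a ∈ F, 0 < a ∧ ¬ (3 : ℤ) ∣ a) → 0 < δ) ∧
    Dn (fun n : ℕ => (n : ℤ) ∈ RR d F) δ ∧
    Tendsto (AT d F) atTop (𝓝 (δ * mu)) ∧ Tendsto (UC d F) atTop (𝓝 (δ * (2 / 3 * mu))) ∧
    Tendsto (UO d F) atTop (𝓝 (δ * (2 * mu))) := by
  classical
  have hc3 := cop_of_not_dvd hd3
  obtain ⟨δ, h0, h1, h2, h3⟩ := lln_all hd hd3 F
  obtain ⟨C, hC, hs⟩ := size hd hc3 F
  have hmu := mu_pos'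
  have hden : Tendsto (fun N : ℕ => (((Icc 1 N).filter (fun n : ℕ => (n : ℤ) ∈ RR d F)).card : ℝ) / N) atTop (𝓝 δ) := by
    refine Tendsto.congr (fun N => ?_) h2
    rw [cnt_eq]
  refine ⟨δ, h0, h1, h2, ?_, ?_, ?_⟩
  · obtain ⟨l, hl⟩ := AT_lim hd hc3 F
    have hces := hl.cesaro
    have hval := ces h0 hden (c := mu) (C := 8 * (C + 1)) hmu (by positivity) (fun J => NW d F (WT J)) (by
      intro J n hn
      rw [mem_NW hd, mem_WT] at hn
      obtain ⟨g1, g2, g3⟩ := hn
      refine ⟨g1, g2, ?_⟩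
      have g4 := log_le_ht hs g1 g2
      have g5 : (ht d F n : ℝ) ≤ J := by exact_mod_cast g3.le
      have g6 : (0 : ℝ) ≤ J := Nat.cast_nonneg _
      nlinarith) (by
      intro ε hε hε1
      obtain ⟨E, hE0, hE⟩ := h3 (ε / 4) (by positivity)
      refine ⟨E, ?_, ?_⟩
      · refine Tendsto.congr (fun N => ?_) hE0
        rw [cnt_eq]
      · intro J n g1 g2 g3
        obtain ⟨e0, e1, _, _⟩ := hE n g1 g2 g3
        rw [mem_NW hd, mem_WT]
        constructor
        · intro g4
          have := (ar1 e0 hmu hε hε1 e1 g4).1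
          exact ⟨g1, g2, by exact_mod_cast this⟩
        · rintro ⟨_, _, g4⟩
          exact ar2 e0 hmu hε hε1 e1 (by exact_mod_cast g4.le))
    have e : (fun J : ℕ => (∑ n ∈ NW d F (WT J), (1 : ℝ) / n) / J) =
        fun J : ℕ => (J : ℝ)⁻¹ * ∑ k ∈ range J, AT d F k := by
      funext J
      rw [NW_sum hd, WT_sum hd, div_eq_inv_mul]
    rw [e] at hval
    rw [← tendsto_nhds_unique hces hval]
    exact hl
  · obtain ⟨l, hl⟩ := UC_lim hd hc3 F
    have hces := hl.cesaro
    have hval := ces h0 hden (c := 2 / 3 * mu) (C := 8 * (C + 1)) (by positivity) (by positivity)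
      (fun J => NW d F (WC J)) (by
      intro J n hn
      rw [mem_NW hd, mem_WC] at hn
      obtain ⟨g1, g2, g3⟩ := hn
      refine ⟨g1, g2, ?_⟩
      have g4 := log_le_ht hs g1 g2
      have g7 := (ho_bd d F n).1
      have g5 : (ht d F n : ℝ) ≤ J := by exact_mod_cast (by omega : (ht d F n : ℤ) ≤ J)
      have g6 : (0 : ℝ) ≤ J := Nat.cast_nonneg _
      nlinarith) (by
      intro ε hε hε1
      obtain ⟨E, hE0, hE⟩ := h3 (ε / 4) (by positivity)
      refine ⟨E, ?_, ?_⟩
      · refine Tendsto.congr (fun N => ?_) hE0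
        rw [cnt_eq]
      · intro J n g1 g2 g3
        obtain ⟨e0, _, _, e1⟩ := hE n g1 g2 g3
        rw [mem_NW hd, mem_WC]
        constructor
        · intro g4
          have := (ar1 e0 (by positivity) hε hε1 e1 g4).1
          exact ⟨g1, g2, by exact_mod_cast this⟩
        · rintro ⟨_, _, g4⟩
          refine ar2 e0 (by positivity) hε hε1 e1 ?_
          exact_mod_cast g4.le)
    have e : (fun J : ℕ => (∑ n ∈ NW d F (WC J), (1 : ℝ) / n) / J) =
        fun J : ℕ => (J : ℝ)⁻¹ * ∑ k ∈ range J, UC d F k := by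
      funext J
      rw [NW_sum hd, WC_sum hd, div_eq_inv_mul]
    rw [e] at hval
    rw [← tendsto_nhds_unique hces hval]
    exact hl
  · obtain ⟨l, hl⟩ := UO_lim hd hc3 F
    have hces := hl.cesaro
    have hval := ces h0 hden (c := 2 * mu) (C := 8 * (C + 1)) (by positivity) (by positivity)
      (fun J => NW d F (WO J)) (by
      intro J n hn
      rw [mem_NW hd, mem_WO] at hn
      obtain ⟨g1, g2, g3, _⟩ := hn
      refine ⟨g1, g2, ?_⟩
      have g4 := log_le_ht hs g1 g2
      have g5 : (ht d F n : ℝ) ≤ 8 * J := by exact_mod_cast g3.le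
      have g6 : (0 : ℝ) ≤ J := Nat.cast_nonneg _
      nlinarith) (by
      intro ε hε hε1
      obtain ⟨E, hE0, hE⟩ := h3 (ε / 4) (by positivity)
      refine ⟨E, ?_, ?_⟩
      · refine Tendsto.congr (fun N => ?_) hE0
        rw [cnt_eq]
      · intro J n g1 g2 g3
        obtain ⟨e0, e2, e1, _⟩ := hE n g1 g2 g3
        rw [mem_NW hd, mem_WO]
        constructor
        · intro g4
          obtain ⟨g5, g6⟩ := ar1 e0 (by positivity) hε hε1 e1 g4
          refine ⟨g1, g2, ?_, by exact_mod_cast g5⟩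
          have g7 := (abs_le.1 e2).2
          have g8 : (ht d F n : ℝ) * mu ≤ 5 / 4 * Real.log n := by nlinarith
          have g9 : Real.log n ≤ 2 * mu * J := by
            have : 0 ≤ 2 * mu * (J : ℝ) := by positivity
            nlinarith
          have g10 : (ht d F n : ℝ) * mu < (8 * J) * mu := by nlinarith
          have g11 := lt_of_mul_lt_mul_right g10 hmu.le
          exact_mod_cast g11
        · rintro ⟨_, _, _, g4⟩
          refine ar2 e0 (by positivity) hε hε1 e1 ?_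
          exact_mod_cast g4.le)
    -- the tail
    obtain ⟨B, hB, hb⟩ := mm_bd hd hc3 F
    have htail : Tendsto (fun J : ℕ => (∑ o ∈ range J, ∑' k : ℕ, mm d F (k + 8 * J) (o : ℤ)) / J) atTop (𝓝 0) := by
      have hg : Tendsto (fun J : ℕ => 3 * B * (1 / 2 : ℝ) ^ J) atTop (𝓝 (3 * B * 0)) :=
        (tendsto_pow_atTop_nhds_zero_of_lt_one (by norm_num) (by norm_num)).const_mul _
      rw [mul_zero] at hg
      apply squeeze_zero _ _ hg
      · intro J
        apply div_nonneg _ (Nat.cast_nonneg _)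
        exact sum_nonneg fun o _ => tsum_nonneg fun k => mm_nonneg hd F _ _
      · intro J
        rcases Nat.eq_zero_or_pos J with rfl | hJ
        · simp
          positivity
        · have hJ0 : (0 : ℝ) < J := by exact_mod_cast hJ
          rw [div_le_iff₀ hJ0]
          have hone : ∀ o ∈ range J, ∑' k : ℕ, mm d F (k + 8 * J) (o : ℤ) ≤ 3 * B * (1 / 2 : ℝ) ^ J := by
            intro o ho'
            rw [mem_range] at ho'
            have hsum : Summable fun k => mm d F (k + 8 * J) (o : ℤ) :=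
              (summable_nat_add_iff (8 * J)).2 (mm_summable hd hc3 F o)
            have hgeo : HasSum (fun k : ℕ => B * 9 ^ o * (2 / 3 : ℝ) ^ (8 * J) * (2 / 3) ^ k)
                (B * 9 ^ o * (2 / 3 : ℝ) ^ (8 * J) * (1 - 2 / 3)⁻¹) :=
              (hasSum_geometric_of_lt_one (by norm_num) (by norm_num)).mul_left _
            have h5 : ∑' k : ℕ, mm d F (k + 8 * J) (o : ℤ) ≤ B * 9 ^ o * (2 / 3 : ℝ) ^ (8 * J) * (1 - 2 / 3)⁻¹ := by
              rw [← hgeo.tsum_eq]
              apply hsum.tsum_le_tsum _ hgeo.summable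
              intro k
              refine (hb (k + 8 * J) o).trans (le_of_eq ?_)
              rw [pow_add]
              ring
            refine h5.trans ?_
            have h6 : (9 : ℝ) ^ o ≤ 9 ^ J := pow_le_pow_right₀ (by norm_num) ho'.le
            have h7 : (9 : ℝ) ^ J * (2 / 3) ^ (8 * J) ≤ (1 / 2) ^ J := by
              rw [pow_mul, ← mul_pow]
              apply pow_le_pow_left₀ (by norm_num)
              norm_num
            have h8 : B * 9 ^ o * (2 / 3 : ℝ) ^ (8 * J) ≤ B * (9 ^ J * (2 / 3) ^ (8 * J)) := by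
              rw [mul_assoc]
              apply mul_le_mul_of_nonneg_left _ hB.le
              exact mul_le_mul_of_nonneg_right h6 (by positivity)
            have h9 : B * (9 ^ J * (2 / 3) ^ (8 * J)) ≤ B * (1 / 2 : ℝ) ^ J := mul_le_mul_of_nonneg_left h7 hB.le
            have e10 : ((1 : ℝ) - 2 / 3)⁻¹ = 3 := by norm_num
            rw [e10]
            linarith
          calc _ ≤ ∑ _o ∈ range J, 3 * B * (1 / 2 : ℝ) ^ J := sum_le_sum hone
            _ = 3 * B * (1 / 2 : ℝ) ^ J * J := by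
              rw [sum_const, card_range, nsmul_eq_mul]; ring
    have e : (fun J : ℕ => (∑ n ∈ NW d F (WO J), (1 : ℝ) / n) / J +
        (∑ o ∈ range J, ∑' k : ℕ, mm d F (k + 8 * J) (o : ℤ)) / J) =
        fun J : ℕ => (J : ℝ)⁻¹ * ∑ k ∈ range J, UO d F k := by
      funext J
      rw [NW_sum hd, WO_sum, ← add_div, ← sum_add_distrib, div_eq_inv_mul]
      congr 1
      apply sum_congr rfl
      intro o _
      exact (mm_summable hd hc3 F o).sum_add_tsum_nat_add _
    have hval2 := hval.add htail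
    rw [e, add_zero] at hval2
    rw [← tendsto_nhds_unique hces hval2]
    exact hl

end Pool.Agent.R344.LS
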