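import Pool.Agent.R344.LS.H

/-!
Level sums, part 9: sums over integers, both signs.
-/

set_option autoImplicit false

namespace Pool.Agent.R344.LS

open Finset Filter Topology
open Pool.Agent.H499R2.LT
open Pool.Agent.H499R2.ND (Td Dn cnt cnt_eq mu_pos' cop_of_not_dvd side_odd)
open Pool.Agent.H319R2.Lln (mu)

/-- first hit of `F` after `k` steps -/
def FH (d : ℤ) (F : Finset ℤ) (k : ℕ) (x : ℤ) : Prop := (Td d)^[k] x ∈ F ∧ ∀ i < k, (Td d)^[i] x ∉ F

theorem FH_iff {d : ℤ} {F : Finset ℤ} {k : ℕ} {x : ℤ} : FH d F k x ↔ x ∈ RR d F ∧ ht d F x = k := by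
  constructor
  · rintro ⟨h1, h2⟩
    exact ⟨⟨k, h1⟩, ht_eq h1 h2⟩
  · rintro ⟨h1, h2⟩
    have h3 := ht_spec h1
    rw [h2] at h3
    exact h3

open Classical in
/-- steps -/
noncomputable def fT (d s : ℤ) (F : Finset ℤ) (k : ℕ) (n : ℕ) : ℝ :=
  if 1 ≤ n ∧ FH d F k (s * n) then (1 : ℝ) / n else 0

open Classical in
/-- steps plus odd terms -/
noncomputable def fC (d s : ℤ) (F : Finset ℤ) (j : ℕ) (n : ℕ) : ℝ :=
  if 1 ≤ n ∧ ∃ k : ℕ, FH d F k (s * n) ∧ (k : ℤ) + od d k (s * n) = j then (1 : ℝ) / n else 0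

open Classical in
/-- odd terms -/
noncomputable def fO (d s : ℤ) (F : Finset ℤ) (o : ℕ) (n : ℕ) : ℝ :=
  if 1 ≤ n ∧ ∃ k : ℕ, FH d F k (s * n) ∧ od d k (s * n) = o then (1 : ℝ) / n else 0

open Classical in
/-- odd terms, odd starting values -/
noncomputable def fS (d s : ℤ) (F : Finset ℤ) (o : ℕ) (n : ℕ) : ℝ :=
  if n % 2 = 1 ∧ ∃ k : ℕ, FH d F k (s * n) ∧ od d k (s * n) = o then (1 : ℝ) / n else 0

theorem hasSum_NW {d : ℤ} (hd : Odd d) {F : Finset ℤ} {W : Finset (ℕ × ℤ)} {f : ℕ → ℝ} {P : ℕ → Prop}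
    (hf : ∀ n, 1 ≤ n → P n → f n = 1 / n) (hf' : ∀ n, ¬ (1 ≤ n ∧ P n) → f n = 0)
    (hP : ∀ n : ℕ, 1 ≤ n → (P n ↔ (n : ℤ) ∈ RR d F ∧ (ht d F n, ho d F n) ∈ W)) :
    HasSum f (∑ w ∈ W, mm d F w.1 w.2) := by
  rw [← NW_sum hd]
  have e : ∑ n ∈ NW d F W, (1 : ℝ) / n = ∑ n ∈ NW d F W, f n := by
    apply sum_congr rfl
    intro n hn
    rw [mem_NW hd] at hn
    exact (hf n hn.1 ((hP n hn.1).2 hn.2)).symm
  rw [e]
  apply hasSum_sum_of_ne_finset_zero
  intro n hn
  apply hf'
  rintro ⟨h1, h2⟩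
  exact hn ((mem_NW hd).2 ⟨h1, (hP n h1).1 h2⟩)

theorem hasSum_T {d : ℤ} (hd : Odd d) (F : Finset ℤ) (k : ℕ) : HasSum (fT d 1 F k) (AT d F k) := by
  classical
  have e : AT d F k = ∑ w ∈ ({k} : Finset ℕ) ×ˢ ((range (k + 1)).image (fun o : ℕ => (o : ℤ))), mm d F w.1 w.2 := by
    rw [sum_product, sum_singleton, sum_image fun a _ b _ h => by exact_mod_cast h]
    rfl
  rw [e]
  apply hasSum_NW hd (P := fun n => FH d F k ((1 : ℤ) * n))
  · intro n h1 h2
    unfold fT
    rw [if_pos ⟨h1, h2⟩]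
  · intro n h
    unfold fT
    rw [if_neg h]
  · intro n _
    rw [one_mul, FH_iff, mem_product, mem_singleton, mem_image]
    have := ho_bd d F n
    constructor
    · rintro ⟨h1, h2⟩
      exact ⟨h1, h2, (ho d F n).toNat, mem_range.2 (by omega), by simp only; omega⟩
    · rintro ⟨h1, h2, _⟩
      exact ⟨h1, h2⟩

theorem hasSum_C {d : ℤ} (hd : Odd d) (F : Finset ℤ) (j : ℕ) : HasSum (fC d 1 F j) (UC d F j) := by
  classical
  have e : UC d F j = ∑ w ∈ (range (j + 1)).image (fun k : ℕ => (k, (j : ℤ) - k)), mm d F w.1 w.2 := by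
    rw [sum_image fun a _ b _ h => by simp only [Prod.mk.injEq] at h; exact h.1]
    rfl
  rw [e]
  apply hasSum_NW hd (P := fun n => ∃ k : ℕ, FH d F k ((1 : ℤ) * n) ∧ (k : ℤ) + od d k ((1 : ℤ) * n) = j)
  · intro n h1 h2
    unfold fC
    rw [if_pos ⟨h1, h2⟩]
  · intro n h
    unfold fC
    rw [if_neg h]
  · intro n _
    simp only [one_mul, FH_iff, mem_image, Prod.mk.injEq]
    have := ho_bd d F n
    constructor
    · rintro ⟨k, ⟨h1, rfl⟩, h3⟩
      refine ⟨h1, ht d F n, mem_range.2 ?_, rfl, ?_⟩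
      · unfold ho at this
        omega
      · unfold ho
        omega
    · rintro ⟨h1, k, _, h3, h4⟩
      refine ⟨ht d F n, ⟨h1, rfl⟩, ?_⟩
      unfold ho at h4
      omega

/-- the members of the level, odd terms -/
theorem fO_eq {d : ℤ} {F : Finset ℤ} {o n : ℕ} : fO d 1 F o n =
    (by classical exact if 1 ≤ n ∧ ((n : ℤ) ∈ RR d F ∧ ho d F n = o) then (1 : ℝ) / n else 0) := by
  classical
  unfold fO
  have : (∃ k : ℕ, FH d F k ((1 : ℤ) * n) ∧ od d k ((1 : ℤ) * n) = o) ↔ ((n : ℤ) ∈ RR d F ∧ ho d F n = o) := by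
    simp only [one_mul, FH_iff]
    constructor
    · rintro ⟨k, ⟨h1, rfl⟩, h3⟩
      exact ⟨h1, h3⟩
    · rintro ⟨h1, h2⟩
      exact ⟨ht d F n, ⟨h1, rfl⟩, h2⟩
  simp only [this]

theorem fO_nonneg {d s : ℤ} {F : Finset ℤ} {o n : ℕ} : 0 ≤ fO d s F o n := by
  unfold fO
  split_ifs
  · positivity
  · exact le_rfl

theorem hasSum_O {d : ℤ} (hd : Odd d) (hd3 : IsCoprime d 3) (F : Finset ℤ) (o : ℕ) :
    HasSum (fO d 1 F o) (UO d F o) := by
  classical
  have hsm := mm_summable hd hd3 F (o : ℤ)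
  have hfin : ∀ N : ℕ, ∑ n ∈ NW d F ((range N) ×ˢ {(o : ℤ)}), fO d 1 F o n = ∑ k ∈ range N, mm d F k (o : ℤ) := by
    intro N
    have h1 := NW_sum hd F ((range N) ×ˢ {(o : ℤ)})
    rw [sum_product] at h1
    simp only [sum_singleton] at h1
    rw [← h1]
    apply sum_congr rfl
    intro n hn
    rw [mem_NW hd, mem_product, mem_singleton] at hn
    rw [fO_eq, if_pos ⟨hn.1, hn.2.1, hn.2.2.2⟩]
  apply hasSum_of_isLUB_of_nonneg
  · intro n
    exact fO_nonneg
  · constructor
    · rintro _ ⟨t, rfl⟩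
      set N : ℕ := t.sup (fun n => ht d F n) + 1 with hN
      have h1 : ∑ n ∈ t, fO d 1 F o n ≤ ∑ n ∈ NW d F ((range N) ×ˢ {(o : ℤ)}), fO d 1 F o n := by
        rw [← sum_filter_add_sum_filter_not t (fun n => n ∈ NW d F ((range N) ×ˢ {(o : ℤ)}))]
        have h2 : ∑ n ∈ t.filter (fun n => ¬ n ∈ NW d F ((range N) ×ˢ {(o : ℤ)})), fO d 1 F o n = 0 := by
          apply sum_eq_zero
          intro n hn
          rw [mem_filter, mem_NW hd, mem_product, mem_singleton, mem_range] at hn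
          obtain ⟨h3, h4⟩ := hn
          rw [fO_eq, if_neg]
          rintro ⟨g1, g2, g3⟩
          apply h4
          refine ⟨g1, g2, ?_, g3⟩
          have : ht d F (n : ℤ) ≤ t.sup (fun n : ℕ => ht d F n) :=
            Finset.le_sup (f := fun n : ℕ => ht d F n) h3
          simp only
          omega
        rw [h2, add_zero]
        apply sum_le_sum_of_subset_of_nonneg
        · intro n hn
          exact (mem_filter.1 hn).2
        · intro n _ _
          exact fO_nonneg
      refine h1.trans ?_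
      rw [hfin]
      exact hsm.sum_le_tsum _ fun k _ => mm_nonneg hd F _ _
    · intro b hb
      apply Real.tsum_le_of_sum_range_le
      · intro k
        exact mm_nonneg hd F _ _
      · intro N
        rw [← hfin]
        exact hb ⟨_, rfl⟩

/-- the odd starting values carry one half of the sum, for large levels -/
theorem hasSum_S {d : ℤ} (hd : Odd d) (hd3 : IsCoprime d 3) (F : Finset ℤ) (o : ℕ)
    (ho' : HX d F (M0 d F) < o) : HasSum (fS d 1 F o) (UO d F o / 2) := by
  classical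
  have h1 := hasSum_O hd hd3 F o
  set g : ℕ → ℝ := fun n => if n % 2 = 0 then fO d 1 F o n else 0 with hg
  have hlarge : ∀ n : ℕ, 1 ≤ n → (n : ℤ) ∈ RR d F → ho d F n = o → (M0 d F : ℤ) ≤ n := by
    intro n hn g1 g2
    exact big hd (k := ht d F n) (o := (o : ℤ)) (Or.inr (Or.inl (by exact_mod_cast ho'))) n
      ((mem_LC hd).2 ⟨by omega, g1, rfl, g2⟩)
  have h2 : HasSum g (UO d F o / 2) := by
    have hinj : Function.Injective (fun m : ℕ => 2 * m) := fun a b h => by simp only at h; omega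
    rw [← hinj.hasSum_iff]
    · have e : g ∘ (fun m : ℕ => 2 * m) = fun m => fO d 1 F o m / 2 := by
        funext m
        rw [Function.comp_apply, hg]
        simp only
        rw [if_pos (by omega), fO_eq, fO_eq]
        rcases Nat.eq_zero_or_pos m with rfl | hm
        · simp
        have hT : Td d (((2 * m : ℕ) : ℤ)) = m := by
          have := Td_even (d := d) (x := ((2 * m : ℕ) : ℤ)) (by push_cast; omega)
          push_cast at this ⊢
          omega
        have key : (((2 * m : ℕ) : ℤ) ∈ RR d F ∧ ho d F ((2 * m : ℕ) : ℤ) = o) ↔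
            ((m : ℤ) ∈ RR d F ∧ ho d F m = o) := by
          constructor
          · rintro ⟨g1, g2⟩
            have hxF : (((2 * m : ℕ) : ℤ)) ∉ F := fun h => by
              have h5 := (ht_zero_iff g1).2 h
              have h6 := (ho_bd d F ((2 * m : ℕ) : ℤ)).2
              omega
            have g3 := (RR_step hxF).1 g1
            have g4 := ho_step hxF g1
            rw [if_pos (by push_cast; omega), hT, zero_add] at g4
            rw [hT] at g3
            exact ⟨g3, by rw [← g4]; exact g2⟩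
          · rintro ⟨g1, g2⟩
            have h5 := hlarge m hm g1 g2
            have hxF : (((2 * m : ℕ) : ℤ)) ∉ F := fun h => by
              have h6 := M0_F (d := d) h
              omega
            have g3 : ((2 * m : ℕ) : ℤ) ∈ RR d F := (RR_step hxF).2 (by rw [hT]; exact g1)
            have g4 := ho_step hxF g3
            rw [if_pos (by push_cast; omega), hT, zero_add] at g4
            exact ⟨g3, by rw [g4]; exact g2⟩
        by_cases h5 : (m : ℤ) ∈ RR d F ∧ ho d F m = o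
        · rw [if_pos ⟨by omega, key.2 h5⟩, if_pos ⟨hm, h5⟩]
          push_cast
          ring
        · rw [if_neg (fun h => h5 (key.1 h.2)), if_neg (fun h => h5 h.2), zero_div]
      rw [e]
      exact h1.div_const 2
    · intro n hn
      rw [hg]
      simp only
      rw [if_neg]
      intro h
      exact hn ⟨n / 2, by simp only; omega⟩
  have h4 := h1.sub h2
  have e : UO d F o - UO d F o / 2 = UO d F o / 2 := by ring
  rw [e] at h4
  have e2 : fS d 1 F o = fun n => fO d 1 F o n - g n := by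
    funext n
    rw [hg]
    simp only
    rcases Nat.mod_two_eq_zero_or_one n with h | h
    · rw [if_pos h, sub_self]
      unfold fS
      rw [if_neg (fun h' => by omega)]
    · rw [if_neg (by omega), sub_zero]
      unfold fS fO
      by_cases h5 : ∃ k : ℕ, FH d F k ((1 : ℤ) * n) ∧ od d k ((1 : ℤ) * n) = o
      · rw [if_pos ⟨h, h5⟩, if_pos ⟨by omega, h5⟩]
      · rw [if_neg (fun h' => h5 h'.2), if_neg (fun h' => h5 h'.2)]
  rw [e2]
  exact h4

/-! ### both signs -/

theorem FH_side {d : ℤ} (hd : Odd d) {s : ℤ} (hs : s = 1 ∨ s = -1) (F : Finset ℤ) (k : ℕ) (x : ℤ) :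
    FH (s * d) (F.image (fun a => s * a)) k x ↔ FH d F k (s * x) := by
  unfold FH
  rw [hit_side hd hs]
  apply and_congr_right
  intro _
  constructor
  · intro h i hi hc
    exact h i hi ((hit_side hd hs F i x).2 hc)
  · intro h i hi hc
    exact h i hi ((hit_side hd hs F i x).1 hc)

/-- THE LEVEL SUMS -/
theorem level_sums {d : ℤ} (hd : Odd d) (hd3 : ¬ (3 : ℤ) ∣ d) {s : ℤ} (hs : s = 1 ∨ s = -1) (F : Finset ℤ) :
    ∃ δ : ℝ, 0 ≤ δ ∧ ((∃ a ∈ F, 0 < s * a ∧ ¬ (3 : ℤ) ∣ a) → 0 < δ) ∧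
    Dn (fun n : ℕ => ∃ k : ℕ, (Td d)^[k] (s * n) ∈ F) δ ∧
    (∀ k, Summable (fT d s F k)) ∧ (∀ k, Summable (fC d s F k)) ∧ (∀ k, Summable (fO d s F k)) ∧
    (∀ k, Summable (fS d s F k)) ∧
    Tendsto (fun k => ∑' n, fT d s F k n) atTop (𝓝 (Real.log (4 / 3) / 2 * δ)) ∧
    Tendsto (fun k => ∑' n, fC d s F k n) atTop (𝓝 (Real.log (4 / 3) / 3 * δ)) ∧
    Tendsto (fun k => ∑' n, fO d s F k n) atTop (𝓝 (Real.log (4 / 3) * δ)) ∧
    Tendsto (fun k => ∑' n, fS d s F k n) atTop (𝓝 (Real.log (4 / 3) / 2 * δ)) := by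
  classical
  have hd' : Odd (s * d) := side_odd hd hs
  have hd3' : ¬ (3 : ℤ) ∣ s * d := by
    rcases hs with rfl | rfl
    · simpa using hd3
    · rw [neg_one_mul, dvd_neg]; exact hd3
  set F' : Finset ℤ := F.image (fun a => s * a) with hF'
  obtain ⟨δ, h0, h1, h2, h3, h4, h5⟩ := limits hd' hd3' F'
  have eT : ∀ k, fT d s F k = fT (s * d) 1 F' k := by
    intro k
    funext n
    unfold fT
    rw [one_mul, hF']
    simp only [FH_side hd hs]
  have eC : ∀ k, fC d s F k = fC (s * d) 1 F' k := by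
    intro k
    funext n
    unfold fC
    simp only [one_mul, hF', FH_side hd hs, od_side hd hs]
  have eO : ∀ k, fO d s F k = fO (s * d) 1 F' k := by
    intro k
    funext n
    unfold fO
    simp only [one_mul, hF', FH_side hd hs, od_side hd hs]
  have eS : ∀ k, fS d s F k = fS (s * d) 1 F' k := by
    intro k
    funext n
    unfold fS
    simp only [one_mul, hF', FH_side hd hs, od_side hd hs]
  have hc3' := cop_of_not_dvd hd3'
  have hmu : mu = Real.log (4 / 3) / 2 := rfl
  refine ⟨δ, h0, ?_, ?_, ?_, ?_, ?_, ?_, ?_, ?_, ?_, ?_⟩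
  · rintro ⟨a, ha, h6, h7⟩
    apply h1
    refine ⟨s * a, mem_image_of_mem _ ha, h6, ?_⟩
    rcases hs with rfl | rfl
    · simpa using h7
    · rw [neg_one_mul, dvd_neg]; exact h7
  · refine Tendsto.congr (fun N => ?_) h2
    have : (fun n : ℕ => (n : ℤ) ∈ RR (s * d) F') = fun n : ℕ => ∃ k : ℕ, (Td d)^[k] (s * n) ∈ F := by
      funext n
      unfold RR
      rw [Set.mem_ofPred_eq]
      exact propext (exists_congr fun k => hit_side hd hs F k n)
    rw [this]
  · intro k
    rw [eT]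
    exact (hasSum_T hd' F' k).summable
  · intro k
    rw [eC]
    exact (hasSum_C hd' F' k).summable
  · intro k
    rw [eO]
    exact (hasSum_O hd' hc3' F' k).summable
  · intro k
    rw [eS]
    refine Summable.of_nonneg_of_le (fun n => ?_) (fun n => ?_) (hasSum_O hd' hc3' F' k).summable
    · unfold fS
      split_ifs
      · positivity
      · exact le_rfl
    · unfold fS fO
      by_cases h6 : n % 2 = 1 ∧ ∃ k' : ℕ, FH (s * d) F' k' ((1 : ℤ) * n) ∧ od (s * d) k' ((1 : ℤ) * n) = k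
      · rw [if_pos h6, if_pos ⟨by omega, h6.2⟩]
      · rw [if_neg h6]
        split_ifs
        · positivity
        · exact le_rfl
  · have e : (fun k => ∑' n, fT d s F k n) = AT (s * d) F' := by
      funext k
      rw [eT]
      exact (hasSum_T hd' F' k).tsum_eq
    rw [e]
    convert h3 using 2
    rw [hmu]; ring
  · have e : (fun k => ∑' n, fC d s F k n) = UC (s * d) F' := by
      funext k
      rw [eC]
      exact (hasSum_C hd' F' k).tsum_eq
    rw [e]
    convert h4 using 2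
    rw [hmu]; ring
  · have e : (fun k => ∑' n, fO d s F k n) = UO (s * d) F' := by
      funext k
      rw [eO]
      exact (hasSum_O hd' hc3' F' k).tsum_eq
    rw [e]
    convert h5 using 2
    rw [hmu]; ring
  · have h6 : Tendsto (fun k => UO (s * d) F' k / 2) atTop (𝓝 (δ * (2 * mu) / 2)) := h5.div_const 2
    have e2 : δ * (2 * mu) / 2 = Real.log (4 / 3) / 2 * δ := by rw [hmu]; ring
    rw [e2] at h6
    refine h6.congr' ?_
    filter_upwards [eventually_gt_atTop (HX (s * d) F' (M0 (s * d) F'))] with k hk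
    rw [eS]
    exact (hasSum_S hd' hc3' F' k hk).tsum_eq.symm

end Pool.Agent.R344.LS
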