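import Pool.Agent.R344.LS.D

/-!
Level sums, part 10: binomial weights and their differences along a set of cells.
-/

set_option autoImplicit false

namespace Pool.Agent.R344.LS

open Finset Filter Topology

/-- the binomial weights -/
noncomputable def G (k : ℕ) (o : ℤ) : ℝ := if o < 0 then 0 else (k.choose o.toNat : ℝ) / 2 ^ k

theorem G_nonneg (k : ℕ) (o : ℤ) : 0 ≤ G k o := by
  unfold G
  split_ifs
  · exact le_rfl
  · positivity

theorem G_nat (k o : ℕ) : G k (o : ℤ) = (k.choose o : ℝ) / 2 ^ k := by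
  unfold G
  rw [if_neg (by omega), Int.toNat_natCast]

theorem G_supp {k : ℕ} {o : ℤ} (h : o < 0 ∨ (k : ℤ) < o) : G k o = 0 := by
  unfold G
  rcases h with h | h
  · rw [if_pos h]
  · rw [if_neg (by omega), Nat.choose_eq_zero_of_lt (by omega)]
    simp

theorem G_zero (o : ℤ) : G 0 o = if o = 0 then 1 else 0 := by
  rcases lt_trichotomy o 0 with h | rfl | h
  · rw [G_supp (Or.inl h), if_neg (by omega)]
  · rw [if_pos rfl]
    have := G_nat 0 0
    simpa using this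
  · rw [G_supp (Or.inr (by simpa using h)), if_neg (by omega)]

theorem G_succ (k : ℕ) (o : ℤ) : G (k + 1) o = G k o / 2 + G k (o - 1) / 2 := by
  rcases lt_trichotomy o 0 with h | rfl | h
  · rw [G_supp (Or.inl h), G_supp (Or.inl h), G_supp (Or.inl (by omega))]; ring
  · rw [G_supp (k := k) (o := 0 - 1) (Or.inl (by omega))]
    have h1 := G_nat (k + 1) 0
    have h2 := G_nat k 0
    rw [Nat.cast_zero, Nat.choose_zero_right] at h1 h2
    rw [h1, h2, pow_succ]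
    push_cast
    field_simp
    ring
  · obtain ⟨m, rfl⟩ : ∃ m : ℕ, o = ((m + 1 : ℕ) : ℤ) := ⟨(o - 1).toNat, by omega⟩
    have e : (((m + 1 : ℕ) : ℤ) - 1) = (m : ℤ) := by push_cast; ring
    rw [e, G_nat, G_nat, G_nat, Nat.choose_succ_succ]
    push_cast
    rw [pow_succ]
    field_simp
    ring

theorem G_up (k : ℕ) (o : ℤ) : G k o * (k + 1) = G (k + 1) o * (2 * ((k + 1) - o)) := by
  rcases lt_or_ge o 0 with h | h
  · rw [G_supp (Or.inl h), G_supp (Or.inl h)]; ring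
  · obtain ⟨m, rfl⟩ : ∃ m : ℕ, o = (m : ℤ) := ⟨o.toNat, by omega⟩
    rcases lt_or_ge (k + 1) m with h1 | h1
    · rw [G_supp (Or.inr (by omega)), G_supp (Or.inr (by push_cast; omega))]; ring
    · rw [G_nat, G_nat]
      have h2 := Nat.choose_mul_succ_eq k m
      have h3 : ((k.choose m : ℕ) : ℝ) * (k + 1) = ((k + 1).choose m : ℕ) * ((k + 1) - m) := by
        have h4 : ((k.choose m * (k + 1) : ℕ) : ℝ) = (((k + 1).choose m * (k + 1 - m) : ℕ) : ℝ) := by
          exact_mod_cast h2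
        push_cast [Nat.cast_sub h1] at h4
        exact h4
      rw [pow_succ, Int.cast_natCast]
      field_simp
      linarith

theorem G_diag (k : ℕ) (o : ℤ) : G k o * (k + 1) = G (k + 1) (o + 1) * (2 * (o + 1)) := by
  rcases lt_or_ge o 0 with h | h
  · rw [G_supp (Or.inl h)]
    rcases eq_or_ne o (-1) with rfl | h1
    · norm_num
    · rw [G_supp (Or.inl (by omega))]; ring
  · obtain ⟨m, rfl⟩ : ∃ m : ℕ, o = (m : ℤ) := ⟨o.toNat, by omega⟩
    have e : ((m : ℤ) + 1) = ((m + 1 : ℕ) : ℤ) := by push_cast; ring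
    rw [e, G_nat, G_nat]
    have h2 := Nat.add_one_mul_choose_eq k m
    have h3 : ((k : ℝ) + 1) * (k.choose m : ℕ) = ((k + 1).choose (m + 1) : ℕ) * (m + 1) := by
      exact_mod_cast h2
    rw [pow_succ]
    push_cast
    field_simp
    linarith

/-- the difference of the weights along one step -/
theorem G_back (k : ℕ) (o : ℤ) {β : ℤ} (hβ : β = 0 ∨ β = 1) :
    |G k o - G (k + 1) (o + β)| * (k + 1) = G (k + 1) (o + β) * |2 * ((o : ℝ) + β) - (k + 1)| := by
  have hk : (0 : ℝ) < k + 1 := by positivity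
  have hG := G_nonneg (k + 1) (o + β)
  rw [← abs_of_pos hk, ← abs_mul, ← abs_of_nonneg hG, ← abs_mul, abs_of_nonneg hG, abs_of_pos hk]
  rcases hβ with rfl | rfl
  · rw [add_zero] at *
    have h := G_up k o
    have e : (G k o - G (k + 1) o) * (k + 1) = -(G (k + 1) o * (2 * ((o : ℝ) + (0 : ℤ)) - (k + 1))) := by
      push_cast
      linear_combination h
    rw [e, abs_neg]
  · have h := G_diag k o
    have e : (G k o - G (k + 1) (o + 1)) * (k + 1) = G (k + 1) (o + 1) * (2 * ((o : ℝ) + (1 : ℤ)) - (k + 1)) := by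
      push_cast
      linear_combination h
    rw [e]

/-! ### moments -/

theorem mom_step (f : ℝ → ℝ) (k : ℕ) :
    ∑ o ∈ range (k + 2), G (k + 1) (o : ℤ) * f (2 * o - (k + 1)) =
      ∑ o ∈ range (k + 1), G k (o : ℤ) * ((f (2 * o - k - 1) + f (2 * o - k + 1)) / 2) := by
  have h1 : ∀ o : ℕ, G (k + 1) (o : ℤ) * f (2 * o - (k + 1)) =
      G k (o : ℤ) * (f (2 * o - k - 1) / 2) + G k ((o : ℤ) - 1) * (f (2 * ((o : ℝ) - 1) - k + 1) / 2) := by
    intro o
    rw [G_succ, show (2 * (o : ℝ) - (k + 1)) = 2 * o - k - 1 by ring,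
      show (2 * ((o : ℝ) - 1) - k + 1) = 2 * o - k - 1 by ring]
    ring
  rw [sum_congr rfl fun o _ => h1 o, sum_add_distrib]
  have h2 : ∑ o ∈ range (k + 2), G k (o : ℤ) * (f (2 * o - k - 1) / 2) =
      ∑ o ∈ range (k + 1), G k (o : ℤ) * (f (2 * o - k - 1) / 2) := by
    rw [sum_range_succ, G_supp (Or.inr (by push_cast; omega)), zero_mul, add_zero]
  have h3 : ∑ o ∈ range (k + 2), G k ((o : ℤ) - 1) * (f (2 * ((o : ℝ) - 1) - k + 1) / 2) =
      ∑ o ∈ range (k + 1), G k (o : ℤ) * (f (2 * o - k + 1) / 2) := by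
    rw [sum_range_succ', G_supp (k := k) (o := (((0 : ℕ) : ℤ) - 1)) (Or.inl (by simp)), zero_mul, add_zero]
    apply sum_congr rfl
    intro o _
    push_cast
    congr 2
    · ring
    · congr 1; ring
  rw [h2, h3, ← sum_add_distrib]
  apply sum_congr rfl
  intro o _
  ring

theorem mom (k : ℕ) : ∑ o ∈ range (k + 1), G k (o : ℤ) = 1 ∧
    ∑ o ∈ range (k + 1), G k (o : ℤ) * (2 * (o : ℝ) - (k : ℝ)) ^ 2 = (k : ℝ) ∧
    ∑ o ∈ range (k + 1), G k (o : ℤ) * (2 * (o : ℝ) - k) ^ 4 ≤ 3 * (k : ℝ) ^ 2 := by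
  induction k with
  | zero =>
    simp [G_zero]
  | succ k ih =>
    obtain ⟨i1, i2, i3⟩ := ih
    have h0 := mom_step (fun _ => 1) k
    have h2 := mom_step (fun x => x ^ 2) k
    have h4 := mom_step (fun x => x ^ 4) k
    have e0 : ∑ o ∈ range (k + 1), G k (o : ℤ) * (((1 : ℝ) + 1) / 2) = 1 := by
      refine Eq.trans ?_ i1
      apply sum_congr rfl
      intro o _
      ring
    have e2 : ∑ o ∈ range (k + 1), G k (o : ℤ) * (((2 * (o : ℝ) - (k : ℝ) - 1) ^ 2 + (2 * (o : ℝ) - (k : ℝ) + 1) ^ 2) / 2) = (k : ℝ) + 1 := by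
      have : (k : ℝ) + 1 = ∑ o ∈ range (k + 1), G k (o : ℤ) * (2 * (o : ℝ) - k) ^ 2 +
        ∑ o ∈ range (k + 1), G k (o : ℤ) := by rw [i1, i2]
      rw [this, ← sum_add_distrib]
      apply sum_congr rfl
      intro o _
      ring
    have e4 : ∑ o ∈ range (k + 1), G k (o : ℤ) * (((2 * (o : ℝ) - (k : ℝ) - 1) ^ 4 + (2 * (o : ℝ) - (k : ℝ) + 1) ^ 4) / 2) =
        ∑ o ∈ range (k + 1), G k (o : ℤ) * (2 * (o : ℝ) - (k : ℝ)) ^ 4 + 6 * (k : ℝ) + 1 := by
      have : ∑ o ∈ range (k + 1), G k (o : ℤ) * (2 * (o : ℝ) - (k : ℝ)) ^ 4 + 6 * (k : ℝ) + 1 =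
        ∑ o ∈ range (k + 1), G k (o : ℤ) * (2 * (o : ℝ) - (k : ℝ)) ^ 4 +
        6 * ∑ o ∈ range (k + 1), G k (o : ℤ) * (2 * (o : ℝ) - (k : ℝ)) ^ 2 +
        ∑ o ∈ range (k + 1), G k (o : ℤ) := by rw [i1, i2]
      rw [this, mul_sum, ← sum_add_distrib, ← sum_add_distrib]
      apply sum_congr rfl
      intro o _
      ring
    rw [e0] at h0
    rw [e2] at h2
    rw [e4] at h4
    push_cast
    refine ⟨?_, h2, ?_⟩
    · rw [← h0]
      apply sum_congr rfl
      intro o _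
      ring
    · rw [h4]
      nlinarith

theorem abs_eta {η x : ℝ} (hη : 0 < η) : |x| ≤ η + x ^ 4 / η ^ 3 := by
  rcases le_or_gt |x| η with h | h
  · have : 0 ≤ x ^ 4 / η ^ 3 := by positivity
    linarith
  · have h1 : |x| ≤ x ^ 4 / η ^ 3 := by
      rw [le_div_iff₀ (by positivity)]
      have h2 : x ^ 4 = |x| * |x| ^ 3 := by
        rw [← pow_succ', Even.pow_abs (by decide)]
      rw [h2]
      apply mul_le_mul_of_nonneg_left _ (abs_nonneg x)
      exact pow_le_pow_left₀ hη.le h.le 3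
    linarith

/-- sets of cells with a bounded potential -/
def Pot (S : Finset (ℕ × ℤ)) (B : ℝ) : Prop :=
  ∀ (a b : ℕ), ∑ v ∈ S.filter (fun v => a ≤ v.1), G (v.1 - a) (v.2 - b) ≤ B

/-- the fourth moments over the cells of large level -/
theorem quart {S : Finset (ℕ × ℤ)} {a : ℕ} {b : ℤ} {K : ℕ} (hK : 2 ≤ K) (hS : ∀ v ∈ S, a + K ≤ v.1) :
    ∑ v ∈ S, G (v.1 - a) (v.2 - b) * ((2 * ((v.2 : ℝ) - b) - ((v.1 - a : ℕ) : ℝ)) ^ 4 / ((v.1 - a : ℕ) : ℝ) ^ 4) ≤
      (6 : ℝ) / (K : ℝ) := by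
  classical
  set Q : ℕ × ℤ → ℝ := fun u => G u.1 u.2 * ((2 * (u.2 : ℝ) - (u.1 : ℝ)) ^ 4 / (u.1 : ℝ) ^ 4) with hQ
  have hQ0 : ∀ u, 0 ≤ Q u := fun u => mul_nonneg (G_nonneg _ _) (by positivity)
  have e1 : ∑ v ∈ S, G (v.1 - a) (v.2 - b) * ((2 * ((v.2 : ℝ) - b) - ((v.1 - a : ℕ) : ℝ)) ^ 4 / ((v.1 - a : ℕ) : ℝ) ^ 4) =
      ∑ u ∈ S.image (fun v => (v.1 - a, v.2 - b)), Q u := by
    rw [sum_image]
    · apply sum_congr rfl
      intro v _
      rw [hQ]
      simp only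
      push_cast
      rfl
    · rintro ⟨v1, v2⟩ hv ⟨w1, w2⟩ hw h
      have h1 := hS _ hv
      have h2 := hS _ hw
      simp only [Prod.mk.injEq] at h h1 h2
      ext
      · simp only; omega
      · simp only; omega
  rw [e1]
  set N := S.sup (fun v => v.1) + 1 with hN
  have h2 : ∑ u ∈ S.image (fun v => (v.1 - a, v.2 - b)), Q u ≤
      ∑ u ∈ (Ico K N) ×ˢ ((range N).image (fun o : ℕ => (o : ℤ))), Q u := by
    rw [← sum_filter_add_sum_filter_not (S.image (fun v => (v.1 - a, v.2 - b))) (fun u => 0 ≤ u.2 ∧ u.2 ≤ u.1)]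
    have h3 : ∑ u ∈ (S.image (fun v => (v.1 - a, v.2 - b))).filter (fun u => ¬ (0 ≤ u.2 ∧ u.2 ≤ u.1)), Q u = 0 := by
      apply sum_eq_zero
      intro u hu
      rw [mem_filter] at hu
      rw [hQ]
      simp only
      rw [G_supp (by have := hu.2; omega), zero_mul]
    rw [h3, add_zero]
    apply sum_le_sum_of_subset_of_nonneg
    · intro u hu
      rw [mem_filter, mem_image] at hu
      obtain ⟨⟨v, hv, rfl⟩, h4, h5⟩ := hu
      simp only at h4 h5
      have h6 := hS v hv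
      have h7 : v.1 ≤ S.sup (fun v => v.1) := Finset.le_sup (f := fun v : ℕ × ℤ => v.1) hv
      rw [mem_product, mem_Ico, mem_image]
      refine ⟨⟨by simp only; omega, by simp only; omega⟩, (v.2 - b).toNat, mem_range.2 (by omega), by simp only; omega⟩
    · intro u _ _
      exact hQ0 u
  refine h2.trans ?_
  rw [sum_product]
  have h3 : ∀ k ∈ Ico K N, ∑ o ∈ (range N).image (fun o : ℕ => (o : ℤ)), Q (k, o) ≤ 3 * (1 / (k : ℝ) ^ 2) := by
    intro k hk
    rw [mem_Ico] at hk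
    have hk0 : (0 : ℝ) < k := by
      have : 0 < k := by omega
      exact_mod_cast this
    rw [sum_image fun a _ b _ h => by exact_mod_cast h]
    have e2 : ∑ o ∈ range N, Q (k, (o : ℤ)) = ∑ o ∈ range (k + 1), Q (k, (o : ℤ)) := by
      symm
      apply sum_subset (range_subset_range.2 (by omega))
      intro o _ ho'
      rw [mem_range] at ho'
      rw [hQ]
      simp only
      rw [G_supp (Or.inr (by omega)), zero_mul]
    rw [e2]
    have e3 : ∑ o ∈ range (k + 1), Q (k, (o : ℤ)) =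
        (∑ o ∈ range (k + 1), G k (o : ℤ) * (2 * (o : ℝ) - k) ^ 4) / (k : ℝ) ^ 4 := by
      rw [sum_div]
      apply sum_congr rfl
      intro o _
      rw [hQ]
      simp only
      rw [Int.cast_natCast]
      ring
    rw [e3]
    calc _ ≤ (3 * (k : ℝ) ^ 2) / (k : ℝ) ^ 4 := div_le_div_of_nonneg_right (mom k).2.2 (by positivity)
      _ = _ := by field_simp
  refine (sum_le_sum h3).trans ?_
  rw [← mul_sum]
  have h4 : ∑ k ∈ Ico K N, (1 : ℝ) / (k : ℝ) ^ 2 ≤ (2 : ℝ) / (K : ℝ) := by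
    have h5 := sq_tail (X0 := K) (U := (Ico K N).image (fun k : ℕ => (k : ℤ))) hK (by
      intro x hx
      rw [mem_image] at hx
      obtain ⟨k, hk, rfl⟩ := hx
      rw [mem_Ico] at hk
      omega)
    rw [sum_image fun a _ b _ h => by exact_mod_cast h] at h5
    simpa using h5
  calc 3 * ∑ k ∈ Ico K N, (1 : ℝ) / (k : ℝ) ^ 2 ≤ 3 * ((2 : ℝ) / (K : ℝ)) := mul_le_mul_of_nonneg_left h4 (by norm_num)
    _ = (6 : ℝ) / (K : ℝ) := by ring

/-- one step of the shift -/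
theorem shift_one {S : Finset (ℕ × ℤ)} {B η : ℝ} (hη : 0 < η) (hB : Pot S B) {a b : ℕ} {K : ℕ}
    (hK : 2 ≤ K) (hS : ∀ v ∈ S, a + K ≤ v.1) {β : ℤ} (hβ : β = 0 ∨ β = 1) :
    ∑ v ∈ S, |G (v.1 - (a + 1)) (v.2 - (b + β)) - G (v.1 - a) (v.2 - b)| ≤
      η * B + 1 / η ^ 3 * ((6 : ℝ) / (K : ℝ)) := by
  classical
  have h1 : ∀ v ∈ S, |G (v.1 - (a + 1)) (v.2 - (b + β)) - G (v.1 - a) (v.2 - b)| ≤
      η * G (v.1 - a) (v.2 - b) + 1 / η ^ 3 *
        (G (v.1 - a) (v.2 - b) * ((2 * ((v.2 : ℝ) - b) - ((v.1 - a : ℕ) : ℝ)) ^ 4 / ((v.1 - a : ℕ) : ℝ) ^ 4)) := by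
    intro v hv
    have h2 := hS v hv
    obtain ⟨k, hk⟩ : ∃ k : ℕ, v.1 - a = k + 1 := ⟨v.1 - a - 1, by omega⟩
    have hk' : v.1 - (a + 1) = k := by omega
    rw [hk', hk]
    have h3 := G_back k (v.2 - (b + β)) hβ
    have e : v.2 - (b + β) + β = v.2 - b := by ring
    rw [e] at h3
    have e2 : (2 * (((v.2 - (b + β) : ℤ) : ℝ) + β) - (k + 1)) = 2 * ((v.2 : ℝ) - b) - (k + 1) := by push_cast; ring
    rw [e2] at h3
    have hk0 : (0 : ℝ) < k + 1 := by positivity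
    have h4 := abs_eta (η := η) (x := (2 * ((v.2 : ℝ) - b) - (k + 1)) / (k + 1)) hη
    have h5 : |G k (v.2 - (b + β)) - G (k + 1) (v.2 - b)| =
        G (k + 1) (v.2 - b) * |(2 * ((v.2 : ℝ) - b) - (k + 1)) / (k + 1)| := by
      rw [abs_div, abs_of_pos hk0, ← mul_div_assoc, ← h3]
      field_simp
    rw [h5]
    calc _ ≤ G (k + 1) (v.2 - b) * (η + ((2 * ((v.2 : ℝ) - b) - (k + 1)) / (k + 1)) ^ 4 / η ^ 3) :=
          mul_le_mul_of_nonneg_left h4 (G_nonneg _ _)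
      _ = _ := by
        push_cast
        rw [div_pow]
        ring
  refine (sum_le_sum h1).trans ?_
  rw [sum_add_distrib, ← mul_sum, ← mul_sum]
  have h2 : ∑ v ∈ S, G (v.1 - a) (v.2 - b) ≤ B := by
    have h3 := hB a b
    rwa [filter_true_of_mem] at h3
    intro v hv
    have := hS v hv
    omega
  exact add_le_add (mul_le_mul_of_nonneg_left h2 hη.le) (mul_le_mul_of_nonneg_left (quart hK hS) (by positivity))

/-- the shifted weights agree in the limit with the weights, in `ℓ¹` along sets of bounded potential -/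
theorem shift_lim (a : ℕ) : ∀ b : ℕ, b ≤ a → ∀ B ε : ℝ, 0 < ε → ∃ k0 : ℕ, ∀ S : Finset (ℕ × ℤ), Pot S B →
    (∀ v ∈ S, k0 ≤ v.1) → ∑ v ∈ S, |G (v.1 - a) (v.2 - b) - G v.1 v.2| ≤ ε := by
  induction a with
  | zero =>
    intro b hb B ε hε
    have : b = 0 := by omega
    subst this
    refine ⟨0, fun S _ _ => ?_⟩
    simp only [Nat.sub_zero, Nat.cast_zero, Int.sub_zero, sub_self, abs_zero, sum_const_zero]
    exact hε.le
  | succ a ih =>
    intro b hb B ε hε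
    obtain ⟨b', β, hb', hβ, hbb⟩ : ∃ b' : ℕ, ∃ β : ℤ, b' ≤ a ∧ (β = 0 ∨ β = 1) ∧ (b : ℤ) = b' + β := by
      rcases Nat.eq_zero_or_pos b with rfl | h
      · exact ⟨0, 0, by omega, Or.inl rfl, by simp⟩
      · exact ⟨b - 1, 1, by omega, Or.inr rfl, by omega⟩
    obtain ⟨k0, hk0⟩ := ih b' hb' B (ε / 3) (by positivity)
    set η : ℝ := ε / (3 * (|B| + 1)) with hη
    have hη0 : 0 < η := by positivity
    obtain ⟨K0, hK0⟩ := exists_nat_gt (1 / η ^ 3 * 6 * 3 / ε)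
    obtain ⟨K, hK1, hK⟩ : ∃ K : ℕ, 2 ≤ K ∧ 1 / η ^ 3 * 6 * 3 / ε < K :=
      ⟨K0 + 2, by omega, by push_cast; linarith⟩
    have hKpos : (0 : ℝ) < K := lt_of_le_of_lt (by positivity) hK
    refine ⟨max k0 (a + K), fun S hB hS => ?_⟩
    have h1 := hk0 S hB fun v hv => (le_max_left _ _).trans (hS v hv)
    have h2 := shift_one hη0 hB hK1 (fun v hv => (le_max_right _ _).trans (hS v hv)) hβ (b := b') (a := a)
    have h3 : η * B ≤ ε / 3 := by
      have g1 : η * B ≤ η * (|B| + 1) := mul_le_mul_of_nonneg_left (by linarith [le_abs_self B]) hη0.le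
      have g2 : η * (|B| + 1) = ε / 3 := by
        rw [hη]; field_simp
      linarith
    have h4 : 1 / η ^ 3 * ((6 : ℝ) / (K : ℝ)) ≤ ε / 3 := by
      rw [div_lt_iff₀ hε] at hK
      rw [← mul_div_assoc, div_le_iff₀ hKpos]
      linarith
    calc _ ≤ ∑ v ∈ S, (|G (v.1 - (a + 1)) (v.2 - (b' + β)) - G (v.1 - a) (v.2 - b')| +
          |G (v.1 - a) (v.2 - b') - G v.1 v.2|) := by
          apply sum_le_sum
          intro v _
          rw [hbb]
          exact abs_sub_le _ _ _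
      _ ≤ ε := by
          rw [sum_add_distrib]
          linarith

end Pool.Agent.R344.LS
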