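import Pool.Agent.R344.LS.J
import Pool.Agent.R344.LS.I

/-!
Level sums, part 11: the masses of the cells are asymptotically binomial, in `ℓ¹` along all sets of
cells of bounded potential.
-/

set_option autoImplicit false

namespace Pool.Agent.R344.LS

open Finset Filter Topology
open Pool.Agent.H499R2.LT
open Pool.Agent.H499R2.ND (Td Dn cop_of_not_dvd)
open Pool.Agent.H319R2.Lln (mu)

theorem er_zero {d : ℤ} (hd : Odd d) (F : Finset ℤ) {k : ℕ} {o : ℤ} (h : o < 0 ∨ (k : ℤ) + 1 < o) :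
    er d F (k, o) = 0 := by
  unfold er
  simp only
  rw [mm_zero hd F (k := k + 1) (by push_cast; omega), mm_zero hd F (k := k) (o := o) (by omega),
    mm_zero hd F (k := k) (o := o - 1) (by omega)]
  ring

theorem conv0 {f : ℤ → ℝ} {N : ℕ} (h : ∀ o : ℤ, o < 0 ∨ (N : ℤ) ≤ o → f o = 0) (o : ℤ) :
    ∑ p ∈ range N, f (p : ℤ) * G 0 (o - p) = f o := by
  by_cases ho' : 0 ≤ o ∧ o < N
  · obtain ⟨m, rfl⟩ : ∃ m : ℕ, o = (m : ℤ) := ⟨o.toNat, by omega⟩
    rw [sum_eq_single m]
    · rw [G_zero, if_pos (by ring), mul_one]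
    · intro p _ hp
      rw [G_zero, if_neg (by omega), mul_zero]
    · intro hm
      exact absurd (mem_range.2 (by omega)) hm
  · rw [h o (by omega)]
    apply sum_eq_zero
    intro p hp
    rw [mem_range] at hp
    rw [G_zero, if_neg (by omega), mul_zero]

/-- Green's formula -/
theorem green {d : ℤ} (hd : Odd d) (F : Finset ℤ) (K : ℕ) (n : ℕ) : ∀ o : ℤ,
    mm d F (K + n) o = ∑ p ∈ range (K + 1), mm d F K (p : ℤ) * G n (o - p) +
      ∑ j ∈ range n, ∑ p ∈ range (K + j + 2), er d F (K + j, (p : ℤ)) * G (n - 1 - j) (o - p) := by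
  induction n with
  | zero =>
    intro o
    simp only [range_zero, sum_empty, add_zero]
    exact (conv0 (f := fun o => mm d F K o) (fun o h => mm_zero hd F (by push_cast at h; omega)) o).symm
  | succ n ih =>
    intro o
    have h1 : mm d F (K + (n + 1)) o = er d F (K + n, o) + mm d F (K + n) o / 2 + mm d F (K + n) (o - 1) / 2 := by
      unfold er
      simp only
      rw [← add_assoc]
      ring
    rw [h1, ih o, ih (o - 1), sum_range_succ (fun j => ∑ p ∈ range (K + j + 2), er d F (K + j, (p : ℤ)) * G (n + 1 - 1 - j) (o - p)) n]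
    have h2 : ∑ p ∈ range (K + 1), mm d F K (p : ℤ) * G (n + 1) (o - p) =
        (∑ p ∈ range (K + 1), mm d F K (p : ℤ) * G n (o - p)) / 2 +
        (∑ p ∈ range (K + 1), mm d F K (p : ℤ) * G n (o - 1 - p)) / 2 := by
      rw [sum_div, sum_div, ← sum_add_distrib]
      apply sum_congr rfl
      intro p _
      rw [G_succ, show o - (p : ℤ) - 1 = o - 1 - p by ring]
      ring
    have h3 : ∑ j ∈ range n, ∑ p ∈ range (K + j + 2), er d F (K + j, (p : ℤ)) * G (n + 1 - 1 - j) (o - p) =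
        (∑ j ∈ range n, ∑ p ∈ range (K + j + 2), er d F (K + j, (p : ℤ)) * G (n - 1 - j) (o - p)) / 2 +
        (∑ j ∈ range n, ∑ p ∈ range (K + j + 2), er d F (K + j, (p : ℤ)) * G (n - 1 - j) (o - 1 - p)) / 2 := by
      rw [sum_div, sum_div, ← sum_add_distrib]
      apply sum_congr rfl
      intro j hj
      rw [mem_range] at hj
      rw [sum_div, sum_div, ← sum_add_distrib]
      apply sum_congr rfl
      intro p _
      rw [show n + 1 - 1 - j = (n - 1 - j) + 1 by omega, G_succ, show o - (p : ℤ) - 1 = o - 1 - p by ring]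
      ring
    have h4 : ∑ p ∈ range (K + n + 2), er d F (K + n, (p : ℤ)) * G (n + 1 - 1 - n) (o - p) = er d F (K + n, o) := by
      rw [show n + 1 - 1 - n = 0 by omega]
      exact conv0 (f := fun o => er d F (K + n, o)) (fun o h => er_zero hd F (by push_cast at h ⊢; omega)) o
    rw [h2, h3, h4]
    ring

theorem AT_nonneg {d : ℤ} (hd : Odd d) (F : Finset ℤ) (k : ℕ) : 0 ≤ AT d F k :=
  sum_nonneg fun _ _ => mm_nonneg hd F _ _

/-- THE UNIFORM LAW -/
theorem law_of_lim {d : ℤ} (hd : Odd d) (hd3 : IsCoprime d 3) (F : Finset ℤ) {c : ℝ}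
    (hc : Tendsto (AT d F) atTop (𝓝 c)) (B ε : ℝ) (hε : 0 < ε) : ∃ k0 : ℕ, ∀ S : Finset (ℕ × ℤ), Pot S B →
      (∀ v ∈ S, k0 ≤ v.1) → ∑ v ∈ S, |mm d F v.1 v.2 - c * G v.1 v.2| ≤ ε := by
  classical
  set ε1 : ℝ := ε / (4 * (|B| + 1)) with hε1
  have hε1' : 0 < ε1 := by positivity
  obtain ⟨C, hC, hE⟩ := er_sum hd hd3 F
  obtain ⟨X0, hX0, hX1⟩ := log_large (C := C) hε1' (M0 d F)
  obtain ⟨K', hK'⟩ := Metric.tendsto_atTop.1 hc ε1 hε1'
  set K := max (HX d F X0 + 1) K' with hK
  have hKH : HX d F X0 < K := by have := le_max_left (HX d F X0 + 1) K'; omega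
  have hKA : |AT d F K - c| ≤ ε1 := by
    have := hK' K (le_max_right _ _)
    rw [Real.dist_eq] at this
    exact this.le
  set A := AT d F K with hA
  have hA0 : 0 ≤ A := AT_nonneg hd F K
  set ε2 : ℝ := ε / (4 * (A + 1)) with hε2
  have hε2' : 0 < ε2 := by positivity
  have hsh : ∀ p : ℕ, ∃ k0 : ℕ, p ≤ K → ∀ S : Finset (ℕ × ℤ), Pot S B →
    (∀ v ∈ S, k0 ≤ v.1) → ∑ v ∈ S, |G (v.1 - K) (v.2 - p) - G v.1 v.2| ≤ ε2 := by
    intro p
    by_cases hp : p ≤ K
    · obtain ⟨k0, h⟩ := shift_lim K p hp B ε2 hε2'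
      exact ⟨k0, fun _ => h⟩
    · exact ⟨0, fun h => absurd h hp⟩
  choose kp hkp using hsh
  refine ⟨(range (K + 1)).sup kp + K + 1, fun S hB hS => ?_⟩
  have hB0 : 0 ≤ B := le_trans (sum_nonneg fun _ _ => G_nonneg _ _) (hB 0 0)
  have hBB : ε1 * B ≤ ε / 4 := by
    have g1 : ε1 * B ≤ ε1 * (|B| + 1) := mul_le_mul_of_nonneg_left (by linarith [le_abs_self B]) hε1'.le
    have g2 : ε1 * (|B| + 1) = ε / 4 := by
      rw [hε1]; field_simp
    linarith
  have hAA : A * ε2 ≤ ε / 4 := by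
    have g1 : A * ε2 ≤ (A + 1) * ε2 := mul_le_mul_of_nonneg_right (by linarith) hε2'.le
    have g2 : (A + 1) * ε2 = ε / 4 := by
      rw [hε2]; field_simp
    linarith
  have hSK : ∀ v ∈ S, K + 1 ≤ v.1 := fun v hv => by have := hS v hv; omega
  have hSp : ∀ p ≤ K, ∀ v ∈ S, kp p ≤ v.1 := by
    intro p hp v hv
    have h1 := hS v hv
    have h2 : kp p ≤ (range (K + 1)).sup kp := Finset.le_sup (f := kp) (mem_range.2 (by omega))
    omega
  -- part one
  set N := S.sup (fun v => v.1) + 1 with hN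
  have hNv : ∀ v ∈ S, v.1 < N := fun v hv => by
    have : v.1 ≤ S.sup (fun v => v.1) := Finset.le_sup (f := fun v : ℕ × ℤ => v.1) hv
    omega
  have p1 : ∑ v ∈ S, |mm d F v.1 v.2 - ∑ p ∈ range (K + 1), mm d F K (p : ℤ) * G (v.1 - K) (v.2 - p)| ≤ ε1 * B := by
    have h1 : ∀ v ∈ S, |mm d F v.1 v.2 - ∑ p ∈ range (K + 1), mm d F K (p : ℤ) * G (v.1 - K) (v.2 - p)| ≤
        ∑ j ∈ range N, ∑ p ∈ range (K + N + 2), |er d F (K + j, (p : ℤ))| *
          (if K + j + 1 ≤ v.1 then G (v.1 - (K + j + 1)) (v.2 - p) else 0) := by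
      intro v hv
      have h2 := hSK v hv
      have h3 := green hd F K (v.1 - K) v.2
      rw [show K + (v.1 - K) = v.1 by omega] at h3
      rw [h3, add_sub_cancel_left]
      refine (abs_sum_le_sum_abs _ _).trans ?_
      refine le_trans ?_ (sum_le_sum_of_subset_of_nonneg (s := range (v.1 - K)) (range_subset_range.2 (by have := hNv v hv; omega)) ?_)
      · apply sum_le_sum
        intro j hj
        rw [mem_range] at hj
        refine (abs_sum_le_sum_abs _ _).trans ?_
        refine le_trans ?_ (sum_le_sum_of_subset_of_nonneg (s := range (K + j + 2)) (range_subset_range.2 (by have := hNv v hv; omega)) ?_)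
        · apply sum_le_sum
          intro p _
          rw [if_pos (by omega), abs_mul, abs_of_nonneg (G_nonneg _ _), show v.1 - (K + j + 1) = v.1 - K - 1 - j by omega]
        · intro p _ _
          apply mul_nonneg (abs_nonneg _)
          split_ifs
          · exact G_nonneg _ _
          · exact le_rfl
      · intro j _ _
        apply sum_nonneg
        intro p _
        apply mul_nonneg (abs_nonneg _)
        split_ifs
        · exact G_nonneg _ _
        · exact le_rfl
    refine (sum_le_sum h1).trans ?_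
    rw [sum_comm]
    have h2 : ∀ j ∈ range N, ∑ v ∈ S, ∑ p ∈ range (K + N + 2), |er d F (K + j, (p : ℤ))| *
          (if K + j + 1 ≤ v.1 then G (v.1 - (K + j + 1)) (v.2 - p) else 0) ≤
          ∑ p ∈ range (K + N + 2), |er d F (K + j, (p : ℤ))| * B := by
      intro j _
      rw [sum_comm]
      apply sum_le_sum
      intro p _
      rw [← mul_sum]
      apply mul_le_mul_of_nonneg_left _ (abs_nonneg _)
      rw [← sum_filter]
      exact hB (K + j + 1) p
    refine (sum_le_sum h2).trans ?_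
    have h3 : ∑ j ∈ range N, ∑ p ∈ range (K + N + 2), |er d F (K + j, (p : ℤ))| * B =
        (∑ w ∈ ((range N) ×ˢ (range (K + N + 2))).image (fun q : ℕ × ℕ => (K + q.1, (q.2 : ℤ))), |er d F w|) * B := by
      rw [sum_image, sum_product, sum_mul]
      · apply sum_congr rfl
        intro j _
        rw [sum_mul]
      · rintro ⟨a1, a2⟩ _ ⟨b1, b2⟩ _ h
        simp only [Prod.mk.injEq] at h
        ext
        · simp only; omega
        · simp only; omega
    rw [h3]
    apply mul_le_mul_of_nonneg_right _ hB0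
    refine (hE X0 hX0 _ ?_).trans hX1
    intro w hw
    rw [mem_image] at hw
    obtain ⟨q, _, rfl⟩ := hw
    exact ⟨big hd (Or.inl (by omega)), big hd (Or.inl (by omega)), big hd (Or.inl (by omega))⟩
  -- part two
  have p2 : ∑ v ∈ S, |∑ p ∈ range (K + 1), mm d F K (p : ℤ) * G (v.1 - K) (v.2 - p) - A * G v.1 v.2| ≤ A * ε2 := by
    have h1 : ∀ v ∈ S, |∑ p ∈ range (K + 1), mm d F K (p : ℤ) * G (v.1 - K) (v.2 - p) - A * G v.1 v.2| ≤
        ∑ p ∈ range (K + 1), mm d F K (p : ℤ) * |G (v.1 - K) (v.2 - p) - G v.1 v.2| := by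
      intro v _
      have e : ∑ p ∈ range (K + 1), mm d F K (p : ℤ) * G (v.1 - K) (v.2 - p) - A * G v.1 v.2 =
          ∑ p ∈ range (K + 1), mm d F K (p : ℤ) * (G (v.1 - K) (v.2 - p) - G v.1 v.2) := by
        rw [hA]
        unfold AT
        rw [sum_mul, ← sum_sub_distrib]
        apply sum_congr rfl
        intro p _
        ring
      rw [e]
      refine (abs_sum_le_sum_abs _ _).trans (sum_le_sum fun p _ => ?_)
      rw [abs_mul, abs_of_nonneg (mm_nonneg hd F _ _)]
    refine (sum_le_sum h1).trans ?_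
    rw [sum_comm]
    have h2 : ∀ p ∈ range (K + 1), ∑ v ∈ S, mm d F K (p : ℤ) * |G (v.1 - K) (v.2 - p) - G v.1 v.2| ≤
        mm d F K (p : ℤ) * ε2 := by
      intro p hp
      rw [mem_range] at hp
      rw [← mul_sum]
      exact mul_le_mul_of_nonneg_left (hkp p (by omega) S hB (hSp p (by omega))) (mm_nonneg hd F _ _)
    refine (sum_le_sum h2).trans ?_
    rw [← sum_mul]
    exact le_rfl
  -- part three
  have p3 : ∑ v ∈ S, |A * G v.1 v.2 - c * G v.1 v.2| ≤ ε1 * B := by
    have h1 : ∀ v ∈ S, |A * G v.1 v.2 - c * G v.1 v.2| ≤ ε1 * G v.1 v.2 := by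
      intro v _
      rw [← sub_mul, abs_mul, abs_of_nonneg (G_nonneg v.1 v.2)]
      exact mul_le_mul_of_nonneg_right hKA (G_nonneg _ _)
    refine (sum_le_sum h1).trans ?_
    rw [← mul_sum]
    apply mul_le_mul_of_nonneg_left _ hε1'.le
    have h3 := hB 0 0
    rw [filter_true_of_mem (by intro v _; omega)] at h3
    simpa using h3
  calc ∑ v ∈ S, |mm d F v.1 v.2 - c * G v.1 v.2| ≤
      ∑ v ∈ S, (|mm d F v.1 v.2 - ∑ p ∈ range (K + 1), mm d F K (p : ℤ) * G (v.1 - K) (v.2 - p)| +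
        |∑ p ∈ range (K + 1), mm d F K (p : ℤ) * G (v.1 - K) (v.2 - p) - A * G v.1 v.2| +
        |A * G v.1 v.2 - c * G v.1 v.2|) := by
        apply sum_le_sum
        intro v _
        have g1 := abs_sub_le (mm d F v.1 v.2) (∑ p ∈ range (K + 1), mm d F K (p : ℤ) * G (v.1 - K) (v.2 - p)) (c * G v.1 v.2)
        have g2 := abs_sub_le (∑ p ∈ range (K + 1), mm d F K (p : ℤ) * G (v.1 - K) (v.2 - p)) (A * G v.1 v.2) (c * G v.1 v.2)
        linarith
    _ ≤ ε := by
        rw [sum_add_distrib, sum_add_distrib]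
        linarith

end Pool.Agent.R344.LS
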