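import Pool.Agent.R344.LS.K

/-!
Level sums, part 12: the three lines.
-/

set_option autoImplicit false

namespace Pool.Agent.R344.LS

open Finset Filter Topology
open Pool.Agent.H499R2.LT
open Pool.Agent.H499R2.ND (Td Dn cop_of_not_dvd side_odd)
open Pool.Agent.H319R2.Lln (mu)

theorem sumG_le_one (n : ℕ) (U : Finset ℤ) : ∑ o ∈ U, G n o ≤ 1 := by
  classical
  rw [← sum_filter_add_sum_filter_not U (fun o : ℤ => 0 ≤ o ∧ o ≤ (n : ℤ))]
  have h1 : ∑ o ∈ U.filter (fun o : ℤ => ¬ (0 ≤ o ∧ o ≤ (n : ℤ))), G n o = 0 := by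
    apply sum_eq_zero
    intro o ho'
    rw [mem_filter] at ho'
    exact G_supp (by have := ho'.2; omega)
  rw [h1, add_zero]
  have h2 : ∑ o ∈ U.filter (fun o : ℤ => 0 ≤ o ∧ o ≤ (n : ℤ)), G n o ≤ ∑ o ∈ (range (n + 1)).image (fun o : ℕ => (o : ℤ)), G n o := by
    apply sum_le_sum_of_subset_of_nonneg
    · intro o ho'
      rw [mem_filter] at ho'
      rw [mem_image]
      exact ⟨o.toNat, mem_range.2 (by omega), by omega⟩
    · intro _ _ _
      exact G_nonneg _ _
  rw [sum_image fun a _ b _ h => by exact_mod_cast h, (mom n).1] at h2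
  exact h2

/-- the cells of level `k` -/
noncomputable def lineT (k : ℕ) : Finset (ℕ × ℤ) := (range (k + 1)).image (fun o : ℕ => (k, (o : ℤ)))

theorem pot_T (k : ℕ) : Pot (lineT k) 1 := by
  classical
  intro a b
  unfold lineT
  rw [sum_filter, sum_image fun x _ y _ h => by simp only [Prod.mk.injEq, true_and] at h; exact_mod_cast h]
  by_cases h : a ≤ k
  · simp only [h, if_true]
    have h1 := sumG_le_one (k - a) ((range (k + 1)).image (fun o : ℕ => (o : ℤ) - b))
    rw [sum_image fun x _ y _ h => by omega] at h1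
    exact h1
  · simp only [h, if_false, sum_const_zero]
    norm_num

/-- the total weight on the line `k + o = m` -/
noncomputable def rr (m : ℕ) : ℝ := ∑ k ∈ range (m + 1), G k ((m : ℤ) - k)

theorem rr_step (m : ℕ) : rr (m + 2) = rr (m + 1) / 2 + rr m / 2 := by
  unfold rr
  rw [sum_range_succ', G_zero, if_neg (by push_cast; omega), add_zero]
  have h1 : ∀ k ∈ range (m + 1 + 1), G (k + 1) (((m + 2 : ℕ) : ℤ) - ((k + 1 : ℕ) : ℤ)) =
      G k (((m + 1 : ℕ) : ℤ) - k) / 2 + G k ((m : ℤ) - k) / 2 := by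
    intro k _
    rw [G_succ, show (((m + 2 : ℕ) : ℤ) - ((k + 1 : ℕ) : ℤ)) = ((m + 1 : ℕ) : ℤ) - k by push_cast; ring,
      show ((m + 1 : ℕ) : ℤ) - k - 1 = (m : ℤ) - k by push_cast; ring]
  rw [show m + 2 = m + 1 + 1 by ring] at h1 ⊢
  rw [sum_congr rfl h1, sum_add_distrib, ← sum_div, ← sum_div]
  congr 2
  rw [sum_range_succ, G_supp (Or.inl (by push_cast; omega)), add_zero]

theorem rr_val (m : ℕ) : rr m = 2 / 3 + (1 / 3) * (-1 / 2) ^ m ∧ rr (m + 1) = 2 / 3 + (1 / 3) * (-1 / 2) ^ (m + 1) := by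
  induction m with
  | zero =>
    have h0 : rr 0 = 1 := by
      unfold rr
      rw [sum_range_one, G_zero, if_pos (by simp)]
    have h1 : rr 1 = 1 / 2 := by
      unfold rr
      rw [sum_range_succ, sum_range_one, G_zero, if_neg (by simp)]
      have := G_nat 1 0
      simp only [Nat.cast_zero, Nat.choose_zero_right, Nat.cast_one, pow_one] at this
      rw [show (((1 : ℕ) : ℤ) - ((1 : ℕ) : ℤ)) = 0 by norm_num, this]
      norm_num
    rw [zero_add, h0, h1]
    norm_num
  | succ m ih =>
    obtain ⟨i1, i2⟩ := ih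
    refine ⟨i2, ?_⟩
    rw [show m + 1 + 1 = m + 2 by ring, rr_step, i1, i2]
    ring

theorem rr_le (m : ℕ) : rr m ≤ 1 := by
  rw [(rr_val m).1]
  have h : |(-1 / 2 : ℝ) ^ m| ≤ 1 := by
    rw [abs_pow]
    apply pow_le_one₀ (abs_nonneg _)
    rw [abs_le]; norm_num
  have := (abs_le.1 h).2
  linarith

theorem rr_lim : Tendsto rr atTop (𝓝 (2 / 3)) := by
  have h1 : Tendsto (fun m : ℕ => (2 / 3 : ℝ) + (1 / 3) * (-1 / 2) ^ m) atTop (𝓝 (2 / 3 + 1 / 3 * 0)) := by
    apply Tendsto.const_add
    apply Tendsto.const_mul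
    apply tendsto_pow_atTop_nhds_zero_of_abs_lt_one
    rw [abs_lt]; norm_num
  rw [mul_zero, add_zero] at h1
  exact h1.congr fun m => ((rr_val m).1).symm

/-- the cells with `k + o = j` -/
noncomputable def lineC (j : ℕ) : Finset (ℕ × ℤ) := (range (j + 1)).image (fun k : ℕ => (k, (j : ℤ) - k))

theorem pot_C (j : ℕ) : Pot (lineC j) 1 := by
  classical
  intro a b
  unfold lineC
  rw [sum_filter, sum_image fun x _ y _ h => by simp only [Prod.mk.injEq] at h; exact h.1]
  by_cases hm : a + b ≤ j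
  · obtain ⟨m, hm'⟩ : ∃ m, j = a + b + m := ⟨j - (a + b), by omega⟩
    refine le_trans ?_ (rr_le m)
    unfold rr
    have e : ∑ k ∈ range (j + 1), (if a ≤ k then G (k - a) ((j : ℤ) - k - b) else 0) ≤
        ∑ k ∈ (range (m + 1)).image (fun k => k + a), (if a ≤ k then G (k - a) ((j : ℤ) - k - b) else 0) := by
      rw [← sum_filter_add_sum_filter_not (range (j + 1)) (fun k => a ≤ k ∧ k ≤ m + a)]
      have h1 : ∑ k ∈ (range (j + 1)).filter (fun k => ¬ (a ≤ k ∧ k ≤ m + a)), (if a ≤ k then G (k - a) ((j : ℤ) - k - b) else 0) = 0 := by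
        apply sum_eq_zero
        intro k hk
        rw [mem_filter] at hk
        split_ifs with h2
        · exact G_supp (Or.inl (by have := hk.2; push_cast [hm']; omega))
        · rfl
      rw [h1, add_zero]
      apply sum_le_sum_of_subset_of_nonneg
      · intro k hk
        rw [mem_filter] at hk
        rw [mem_image]
        exact ⟨k - a, mem_range.2 (by omega), by omega⟩
      · intro k _ _
        split_ifs
        · exact G_nonneg _ _
        · exact le_rfl
    refine e.trans (le_of_eq ?_)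
    rw [sum_image fun x _ y _ h => by omega]
    apply sum_congr rfl
    intro k _
    rw [if_pos (by omega), show k + a - a = k by omega]
    congr 1
    push_cast [hm']
    ring
  · have h1 : ∑ k ∈ range (j + 1), (if a ≤ k then G (k - a) ((j : ℤ) - k - b) else 0) = 0 := by
      apply sum_eq_zero
      intro k hk
      split_ifs with h2
      · exact G_supp (Or.inl (by omega))
      · rfl
    rw [h1]
    norm_num

theorem colG_le (n : ℕ) (m : ℕ) : ∑ k ∈ range n, G k (m : ℤ) ≤ 2 := by
  have key : ∀ z : ℤ, 2 * ∑ k ∈ range n, G k z ≤ 2 * (if z = 0 then 1 else 0) + ∑ k ∈ range n, G k z +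
      ∑ k ∈ range n, G k (z - 1) := by
    intro z
    have h1 : ∑ k ∈ range (n + 1), G k z = (∑ k ∈ range n, G k z) / 2 + (∑ k ∈ range n, G k (z - 1)) / 2 + G 0 z := by
      rw [sum_range_succ', sum_div, sum_div, ← sum_add_distrib]
      congr 1
      apply sum_congr rfl
      intro k _
      rw [G_succ]
    have h2 : ∑ k ∈ range n, G k z ≤ ∑ k ∈ range (n + 1), G k z := by
      rw [sum_range_succ]
      linarith [G_nonneg n z]
    rw [h1, G_zero] at h2
    linarith
  induction m with
  | zero =>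
    have h1 := key 0
    have h2 : ∑ k ∈ range n, G k ((0 : ℤ) - 1) = 0 := sum_eq_zero fun k _ => G_supp (Or.inl (by omega))
    rw [if_pos rfl, h2] at h1
    rw [Nat.cast_zero]
    linarith
  | succ m ih =>
    have h1 := key ((m + 1 : ℕ) : ℤ)
    rw [if_neg (by push_cast; omega), show (((m + 1 : ℕ) : ℤ) - 1) = (m : ℤ) by push_cast; ring] at h1
    linarith

/-- the cells with `o` odd terms -/
noncomputable def lineO (o N : ℕ) : Finset (ℕ × ℤ) := (range N).image (fun k : ℕ => (k, (o : ℤ)))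

theorem pot_O (o N : ℕ) : Pot (lineO o N) 2 := by
  classical
  intro a b
  unfold lineO
  rw [sum_filter, sum_image fun x _ y _ h => by simp only [Prod.mk.injEq, and_true] at h; exact h]
  by_cases hb : b ≤ o
  · refine le_trans ?_ (colG_le N (o - b))
    have e : ∑ k ∈ range N, (if a ≤ k then G (k - a) ((o : ℤ) - b) else 0) ≤
        ∑ k ∈ (range N).image (fun k => k + a), (if a ≤ k then G (k - a) ((o : ℤ) - b) else 0) := by
      rw [← sum_filter_add_sum_filter_not (range N) (fun k => a ≤ k)]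
      have h1 : ∑ k ∈ (range N).filter (fun k => ¬ a ≤ k), (if a ≤ k then G (k - a) ((o : ℤ) - b) else 0) = 0 := by
        apply sum_eq_zero
        intro k hk
        rw [mem_filter] at hk
        rw [if_neg hk.2]
      rw [h1, add_zero]
      apply sum_le_sum_of_subset_of_nonneg
      · intro k hk
        rw [mem_filter, mem_range] at hk
        rw [mem_image]
        exact ⟨k - a, mem_range.2 (by omega), by omega⟩
      · intro k _ _
        split_ifs
        · exact G_nonneg _ _
        · exact le_rfl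
    refine e.trans (le_of_eq ?_)
    rw [sum_image fun x _ y _ h => by omega]
    apply sum_congr rfl
    intro k _
    rw [if_pos (by omega), show k + a - a = k by omega, Nat.cast_sub hb]
  · have h1 : ∑ k ∈ range N, (if a ≤ k then G (k - a) ((o : ℤ) - b) else 0) = 0 := by
      apply sum_eq_zero
      intro k hk
      split_ifs with h2
      · exact G_supp (Or.inl (by omega))
      · rfl
    rw [h1]
    norm_num

/-! ### the three laws -/

variable {d : ℤ} {F : Finset ℤ} {c : ℝ}

theorem tv_T (hd : Odd d) (hd3 : IsCoprime d 3) (hc : Tendsto (AT d F) atTop (𝓝 c)) :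
    Tendsto (fun k : ℕ => ∑ o ∈ range (k + 1), |mm d F k (o : ℤ) - c * G k (o : ℤ)|) atTop (𝓝 0) := by
  classical
  rw [Metric.tendsto_atTop]
  intro ε hε
  obtain ⟨k0, hk0⟩ := law_of_lim hd hd3 F hc 1 (ε / 2) (by positivity)
  refine ⟨k0, fun k hk => ?_⟩
  have h1 := hk0 (lineT k) (pot_T k) (by
    intro v hv
    unfold lineT at hv
    rw [mem_image] at hv
    obtain ⟨o, _, rfl⟩ := hv
    exact hk)
  unfold lineT at h1
  rw [sum_image fun x _ y _ h => by simp only [Prod.mk.injEq, true_and] at h; exact_mod_cast h] at h1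
  rw [Real.dist_eq, sub_zero, abs_of_nonneg (sum_nonneg fun _ _ => abs_nonneg _)]
  linarith

theorem tv_C (hd : Odd d) (hd3 : IsCoprime d 3) (hc : Tendsto (AT d F) atTop (𝓝 c)) :
    Tendsto (fun j : ℕ => ∑ k ∈ range (j + 1), |mm d F k ((j : ℤ) - k) - c * G k ((j : ℤ) - k)|) atTop (𝓝 0) := by
  classical
  rw [Metric.tendsto_atTop]
  intro ε hε
  obtain ⟨k0, hk0⟩ := law_of_lim hd hd3 F hc 1 (ε / 2) (by positivity)
  refine ⟨2 * k0, fun j hj => ?_⟩
  have h1 := hk0 ((lineC j).filter (fun v => k0 ≤ v.1)) (by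
    intro a b
    refine le_trans ?_ (pot_C j a b)
    apply sum_le_sum_of_subset_of_nonneg
    · intro v hv
      rw [mem_filter, mem_filter] at hv
      rw [mem_filter]
      exact ⟨hv.1.1, hv.2⟩
    · intro _ _ _
      exact G_nonneg _ _) (by
    intro v hv
    rw [mem_filter] at hv
    exact hv.2)
  rw [sum_filter] at h1
  unfold lineC at h1
  rw [sum_image fun x _ y _ h => by simp only [Prod.mk.injEq] at h; exact h.1] at h1
  rw [Real.dist_eq, sub_zero, abs_of_nonneg (sum_nonneg fun _ _ => abs_nonneg _)]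
  have h2 : ∑ k ∈ range (j + 1), |mm d F k ((j : ℤ) - k) - c * G k ((j : ℤ) - k)| =
      ∑ k ∈ range (j + 1), (if k0 ≤ k then |mm d F k ((j : ℤ) - k) - c * G k ((j : ℤ) - k)| else 0) := by
    apply sum_congr rfl
    intro k _
    split_ifs with h
    · rfl
    · rw [mm_zero hd F (Or.inr (by omega)), G_supp (Or.inr (by omega))]
      simp
  rw [h2]
  linarith

theorem tv_O (hd : Odd d) (hd3 : IsCoprime d 3) (hc : Tendsto (AT d F) atTop (𝓝 c)) {ε : ℝ} (hε : 0 < ε) :
    ∃ o0 : ℕ, ∀ o : ℕ, o0 ≤ o → ∀ N : ℕ, ∑ k ∈ range N, |mm d F k (o : ℤ) - c * G k (o : ℤ)| ≤ ε := by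
  classical
  obtain ⟨k0, hk0⟩ := law_of_lim hd hd3 F hc 2 ε hε
  refine ⟨k0, fun o ho' N => ?_⟩
  have h1 := hk0 ((lineO o N).filter (fun v => k0 ≤ v.1)) (by
    intro a b
    refine le_trans ?_ (pot_O o N a b)
    apply sum_le_sum_of_subset_of_nonneg
    · intro v hv
      rw [mem_filter, mem_filter] at hv
      rw [mem_filter]
      exact ⟨hv.1.1, hv.2⟩
    · intro _ _ _
      exact G_nonneg _ _) (by
    intro v hv
    rw [mem_filter] at hv
    exact hv.2)
  rw [sum_filter] at h1
  unfold lineO at h1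
  rw [sum_image fun x _ y _ h => by simp only [Prod.mk.injEq, and_true] at h; exact h] at h1
  have h2 : ∑ k ∈ range N, |mm d F k (o : ℤ) - c * G k (o : ℤ)| =
      ∑ k ∈ range N, (if k0 ≤ k then |mm d F k (o : ℤ) - c * G k (o : ℤ)| else 0) := by
    apply sum_congr rfl
    intro k _
    split_ifs with h
    · rfl
    · rw [mm_zero hd F (Or.inr (by omega)), G_supp (Or.inr (by omega))]
      simp
  rw [h2]
  exact h1

end Pool.Agent.R344.LS
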