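import Pool.Agent.R344.LS.L

/-!
Level sums, part 13: the laws for sums over integers, both signs.
-/

set_option autoImplicit false

namespace Pool.Agent.R344.LS

open Finset Filter Topology
open Pool.Agent.H499R2.LT
open Pool.Agent.H499R2.ND (Td Dn cop_of_not_dvd side_odd)
open Pool.Agent.H319R2.Lln (mu)

open Classical in
/-- the cell `(k, o)` -/
noncomputable def fX (d s : ℤ) (F : Finset ℤ) (k o : ℕ) (n : ℕ) : ℝ :=
  if 1 ≤ n ∧ FH d F k (s * n) ∧ od d k (s * n) = o then (1 : ℝ) / n else 0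

open Classical in
/-- the odd members of the cell `(k, o)` -/
noncomputable def fY (d s : ℤ) (F : Finset ℤ) (k o : ℕ) (n : ℕ) : ℝ :=
  if n % 2 = 1 ∧ FH d F k (s * n) ∧ od d k (s * n) = o then (1 : ℝ) / n else 0

theorem hasSum_X {d : ℤ} (hd : Odd d) (F : Finset ℤ) (k o : ℕ) : HasSum (fX d 1 F k o) (mm d F k (o : ℤ)) := by
  classical
  have e : mm d F k (o : ℤ) = ∑ w ∈ ({(k, (o : ℤ))} : Finset (ℕ × ℤ)), mm d F w.1 w.2 := by
    rw [sum_singleton]
  rw [e]
  apply hasSum_NW hd (P := fun n => FH d F k ((1 : ℤ) * n) ∧ od d k ((1 : ℤ) * n) = o)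
  · intro n h1 h2
    unfold fX
    rw [if_pos ⟨h1, h2⟩]
  · intro n h
    unfold fX
    rw [if_neg h]
  · intro n _
    simp only [one_mul, FH_iff, mem_singleton, Prod.mk.injEq]
    constructor
    · rintro ⟨⟨h1, rfl⟩, h3⟩
      exact ⟨h1, rfl, h3⟩
    · rintro ⟨h1, rfl, h3⟩
      exact ⟨⟨h1, rfl⟩, h3⟩

theorem fX_side {d : ℤ} (hd : Odd d) {s : ℤ} (hs : s = 1 ∨ s = -1) (F : Finset ℤ) (k o : ℕ) :
    fX d s F k o = fX (s * d) 1 (F.image (fun a => s * a)) k o := by
  classical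
  funext n
  unfold fX
  simp only [one_mul, FH_side hd hs, od_side hd hs]

theorem fY_side {d : ℤ} (hd : Odd d) {s : ℤ} (hs : s = 1 ∨ s = -1) (F : Finset ℤ) (k o : ℕ) :
    fY d s F k o = fY (s * d) 1 (F.image (fun a => s * a)) k o := by
  classical
  funext n
  unfold fY
  simp only [one_mul, FH_side hd hs, od_side hd hs]

/-- the odd members of a cell of large integers -/
theorem hasSum_Y {d : ℤ} (hd : Odd d) (F : Finset ℤ) (k o : ℕ) (ho' : HX d F (M0 d F) < o) :
    HasSum (fY d 1 F (k + 1) o) (mm d F (k + 1) (o : ℤ) - mm d F k (o : ℤ) / 2) := by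
  classical
  have h1 := hasSum_X hd F (k + 1) o
  have h1' := hasSum_X hd F k o
  set g : ℕ → ℝ := fun n => if n % 2 = 0 then fX d 1 F (k + 1) o n else 0 with hg
  have hlarge : ∀ n : ℕ, 1 ≤ n → (n : ℤ) ∈ RR d F → ho d F n = o → (M0 d F : ℤ) ≤ n := by
    intro n h3 g1 g2
    exact big hd (k := ht d F n) (o := (o : ℤ)) (Or.inr (Or.inl (by exact_mod_cast ho'))) n
      ((mem_LC hd).2 ⟨by omega, g1, rfl, g2⟩)
  have h2 : HasSum g (mm d F k (o : ℤ) / 2) := by
    have hinj : Function.Injective (fun m : ℕ => 2 * m) := fun a b h => by simp only at h; omega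
    rw [← hinj.hasSum_iff]
    · have e : g ∘ (fun m : ℕ => 2 * m) = fun m => fX d 1 F k o m / 2 := by
        funext m
        rw [Function.comp_apply, hg]
        simp only
        rw [if_pos (by omega)]
        rcases Nat.eq_zero_or_pos m with rfl | hm
        · unfold fX
          rw [if_neg (by omega), if_neg (by omega), zero_div]
        have hT : Td d (((2 * m : ℕ) : ℤ)) = m := by
          have := Td_even (d := d) (x := ((2 * m : ℕ) : ℤ)) (by push_cast; omega)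
          push_cast at this ⊢
          omega
        have key : (((2 * m : ℕ) : ℤ) ∈ RR d F ∧ ht d F ((2 * m : ℕ) : ℤ) = k + 1 ∧ ho d F ((2 * m : ℕ) : ℤ) = o) ↔
            ((m : ℤ) ∈ RR d F ∧ ht d F m = k ∧ ho d F m = o) := by
          constructor
          · rintro ⟨g1, g2, g5⟩
            have hxF : (((2 * m : ℕ) : ℤ)) ∉ F := fun h => by
              have h5 := (ht_zero_iff g1).2 h
              omega
            have g3 := (RR_step hxF).1 g1
            have g4 := ho_step hxF g1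
            have g6 := ht_step hxF g1
            rw [if_pos (by push_cast; omega), hT, zero_add] at g4
            rw [hT] at g3 g6
            exact ⟨g3, by omega, by rw [← g4]; exact g5⟩
          · rintro ⟨g1, g2, g7⟩
            have h5 := hlarge m hm g1 g7
            have hxF : (((2 * m : ℕ) : ℤ)) ∉ F := fun h => by
              have h6 := M0_F (d := d) h
              omega
            have g3 : ((2 * m : ℕ) : ℤ) ∈ RR d F := (RR_step hxF).2 (by rw [hT]; exact g1)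
            have g4 := ho_step hxF g3
            have g6 := ht_step hxF g3
            rw [if_pos (by push_cast; omega), hT, zero_add] at g4
            rw [hT] at g6
            exact ⟨g3, by omega, by rw [g4]; exact g7⟩
        have key' : (FH d F (k + 1) ((1 : ℤ) * ((2 * m : ℕ) : ℤ)) ∧ od d (k + 1) ((1 : ℤ) * ((2 * m : ℕ) : ℤ)) = o) ↔
            (FH d F k ((1 : ℤ) * (m : ℤ)) ∧ od d k ((1 : ℤ) * (m : ℤ)) = o) := by
          rw [one_mul, one_mul, FH_iff, FH_iff]
          constructor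
          · rintro ⟨⟨g1, g2⟩, g3⟩
            have g4 := key.1 ⟨g1, g2, by unfold ho; rw [g2]; exact g3⟩
            refine ⟨⟨g4.1, g4.2.1⟩, ?_⟩
            have g5 := g4.2.2
            unfold ho at g5
            rw [g4.2.1] at g5
            exact g5
          · rintro ⟨⟨g1, g2⟩, g3⟩
            have g4 := key.2 ⟨g1, g2, by unfold ho; rw [g2]; exact g3⟩
            refine ⟨⟨g4.1, g4.2.1⟩, ?_⟩
            have g5 := g4.2.2
            unfold ho at g5
            rw [g4.2.1] at g5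
            exact g5
        unfold fX
        by_cases h5 : FH d F k ((1 : ℤ) * (m : ℤ)) ∧ od d k ((1 : ℤ) * (m : ℤ)) = o
        · rw [if_pos ⟨by omega, key'.2 h5⟩, if_pos ⟨hm, h5⟩]
          push_cast
          ring
        · rw [if_neg (fun h => h5 (key'.1 h.2)), if_neg (fun h => h5 h.2), zero_div]
      rw [e]
      exact h1'.div_const 2
    · intro n hn
      rw [hg]
      simp only
      rw [if_neg]
      intro h
      exact hn ⟨n / 2, by simp only; omega⟩
  have h4 := h1.sub h2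
  have e2 : fY d 1 F (k + 1) o = fun n => fX d 1 F (k + 1) o n - g n := by
    funext n
    rw [hg]
    simp only
    rcases Nat.mod_two_eq_zero_or_one n with h | h
    · rw [if_pos h, sub_self]
      unfold fY
      rw [if_neg (fun h' => by omega)]
    · rw [if_neg (by omega), sub_zero]
      unfold fY fX
      by_cases h5 : FH d F (k + 1) ((1 : ℤ) * n) ∧ od d (k + 1) ((1 : ℤ) * n) = o
      · rw [if_pos ⟨h, h5⟩, if_pos ⟨by omega, h5⟩]
      · rw [if_neg (fun h' => h5 h'.2), if_neg (fun h' => h5 h'.2)]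
  rw [e2]
  exact h4

/-- THE LAWS OF THE CELLS -/
theorem cell_laws {d : ℤ} (hd : Odd d) (hd3 : ¬ (3 : ℤ) ∣ d) {s : ℤ} (hs : s = 1 ∨ s = -1) (F : Finset ℤ) :
    ∃ δ : ℝ, 0 ≤ δ ∧ ((∃ a ∈ F, 0 < s * a ∧ ¬ (3 : ℤ) ∣ a) → 0 < δ) ∧
    Dn (fun n : ℕ => ∃ k : ℕ, (Td d)^[k] (s * n) ∈ F) δ ∧
    (∀ k o, Summable (fX d s F k o)) ∧
    (∀ B ε : ℝ, 0 < ε → ∃ k0 : ℕ, ∀ S : Finset (ℕ × ℕ),
      (∀ a b : ℕ, ∑ v ∈ S with a ≤ v.1 ∧ b ≤ v.2, ((v.1 - a).choose (v.2 - b) : ℝ) / 2 ^ (v.1 - a) ≤ B) →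
      (∀ v ∈ S, k0 ≤ v.1) →
      ∑ v ∈ S, |∑' n, fX d s F v.1 v.2 n - Real.log (4 / 3) / 2 * δ * ((v.1.choose v.2 : ℝ) / 2 ^ v.1)| ≤ ε) ∧
    Tendsto (fun k : ℕ => ∑ o ∈ range (k + 1),
      |∑' n, fX d s F k o n - Real.log (4 / 3) / 2 * δ * ((k.choose o : ℝ) / 2 ^ k)|) atTop (𝓝 0) ∧
    Tendsto (fun j : ℕ => ∑ k ∈ range (j + 1),
      |∑' n, fX d s F k (j - k) n - Real.log (4 / 3) / 2 * δ * ((k.choose (j - k) : ℝ) / 2 ^ k)|) atTop (𝓝 0) ∧
    (∀ ε : ℝ, 0 < ε → ∃ o0 : ℕ, ∀ o : ℕ, o0 ≤ o → ∀ N : ℕ, ∑ k ∈ range N,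
      |∑' n, fX d s F k o n - Real.log (4 / 3) / 2 * δ * ((k.choose o : ℝ) / 2 ^ k)| ≤ ε) ∧
    (∀ ε : ℝ, 0 < ε → ∃ o0 : ℕ, ∀ o : ℕ, o0 ≤ o → ∀ N : ℕ, ∑ k ∈ range N,
      |∑' n, fY d s F (k + 1) o n - Real.log (4 / 3) / 2 * δ * ((k.choose (o - 1) : ℝ) / 2 ^ (k + 1))| ≤ ε) := by
  classical
  have hd' : Odd (s * d) := side_odd hd hs
  have hd3' : ¬ (3 : ℤ) ∣ s * d := by
    rcases hs with rfl | rfl
    · simpa using hd3
    · rw [neg_one_mul, dvd_neg]; exact hd3
  set F' : Finset ℤ := F.image (fun a => s * a) with hF'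
  obtain ⟨δ, h0, h1, h2, h3, h4, h5⟩ := limits hd' hd3' F'
  have hc3' := cop_of_not_dvd hd3'
  have hmu : mu = Real.log (4 / 3) / 2 := rfl
  have hX : ∀ k o : ℕ, ∑' n, fX d s F k o n = mm (s * d) F' k (o : ℤ) := fun k o => by
    rw [fX_side hd hs]; exact (hasSum_X hd' F' k o).tsum_eq
  have hcc : δ * mu = Real.log (4 / 3) / 2 * δ := by rw [hmu]; ring
  rw [hcc] at h3
  refine ⟨δ, h0, ?_, ?_, ?_, ?_, ?_, ?_, ?_, ?_⟩
  · rintro ⟨a, ha, h6, h7⟩
    apply h1
    refine ⟨s * a, mem_image_of_mem _ ha, h6, ?_⟩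
    rcases hs with rfl | rfl
    · simpa using h7
    · rw [neg_one_mul, dvd_neg]; exact h7
  · refine Tendsto.congr (fun N => ?_) h2
    have : (fun n : ℕ => (n : ℤ) ∈ RR (s * d) F') = fun n : ℕ => ∃ k : ℕ, (Td d)^[k] (s * n) ∈ F := by
      funext n
      unfold RR
      rw [Set.mem_ofPred_eq]
      exact propext (exists_congr fun k => hit_side hd hs F k n)
    rw [this]
  · intro k o
    rw [fX_side hd hs]
    exact (hasSum_X hd' F' k o).summable
  · intro B ε hε
    obtain ⟨k0, hk0⟩ := law_of_lim hd' hc3' F' h3 B ε hε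
    refine ⟨k0, fun S hB hS => ?_⟩
    have hinj : ∀ x ∈ S, ∀ y ∈ S, ((fun v : ℕ × ℕ => (v.1, (v.2 : ℤ))) x = (fun v : ℕ × ℕ => (v.1, (v.2 : ℤ))) y) → x = y := by
      intro x _ y _ h
      simp only [Prod.mk.injEq] at h
      ext
      · exact h.1
      · exact_mod_cast h.2
    have h6 := hk0 (S.image (fun v => (v.1, (v.2 : ℤ)))) (by
      intro a b
      rw [sum_filter, sum_image hinj]
      refine le_trans (le_of_eq ?_) (hB a b)
      rw [sum_filter]
      apply sum_congr rfl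
      intro v _
      simp only
      by_cases g1 : a ≤ v.1
      · by_cases g2 : b ≤ v.2
        · rw [if_pos g1, if_pos ⟨g1, g2⟩, show ((v.2 : ℤ) - (b : ℤ)) = ((v.2 - b : ℕ) : ℤ) by omega, G_nat]
        · rw [if_pos g1, if_neg (fun h => g2 h.2), G_supp (Or.inl (by omega))]
      · rw [if_neg g1, if_neg (fun h => g1 h.1)]) (by
      intro v hv
      rw [mem_image] at hv
      obtain ⟨w, hw, rfl⟩ := hv
      exact hS w hw)
    rw [sum_image hinj] at h6
    refine le_trans (le_of_eq ?_) h6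
    apply sum_congr rfl
    intro v _
    rw [hX, G_nat]
  · have h6 := tv_T hd' hc3' h3
    refine h6.congr fun k => ?_
    apply sum_congr rfl
    intro o _
    rw [hX, G_nat]
  · have h6 := tv_C hd' hc3' h3
    refine h6.congr fun j => ?_
    apply sum_congr rfl
    intro k hk
    rw [mem_range] at hk
    rw [hX, show ((j : ℤ) - k) = ((j - k : ℕ) : ℤ) by omega, G_nat]
  · intro ε hε
    obtain ⟨o0, h6⟩ := tv_O hd' hc3' h3 hε
    refine ⟨o0, fun o ho' N => ?_⟩
    refine le_trans (le_of_eq ?_) (h6 o ho' N)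
    apply sum_congr rfl
    intro k _
    rw [hX, G_nat]
  · intro ε hε
    obtain ⟨o0, h6⟩ := tv_O hd' hc3' h3 (show 0 < ε / 2 by positivity)
    refine ⟨max o0 (HX (s * d) F' (M0 (s * d) F') + 1), fun o ho' N => ?_⟩
    have g1 : o0 ≤ o := (le_max_left _ _).trans ho'
    have g2 : HX (s * d) F' (M0 (s * d) F') < o := by
      have := (le_max_right _ _).trans ho'
      omega
    have h7 := h6 o g1 (N + 1)
    have h8 : ∀ k ∈ range N, |∑' n, fY d s F (k + 1) o n - Real.log (4 / 3) / 2 * δ * ((k.choose (o - 1) : ℝ) / 2 ^ (k + 1))| ≤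
        |mm (s * d) F' (k + 1) (o : ℤ) - Real.log (4 / 3) / 2 * δ * G (k + 1) (o : ℤ)| +
        |mm (s * d) F' k (o : ℤ) - Real.log (4 / 3) / 2 * δ * G k (o : ℤ)| := by
      intro k _
      rw [fY_side hd hs, (hasSum_Y hd' F' k o g2).tsum_eq]
      have e1 : (k.choose (o - 1) : ℝ) / 2 ^ (k + 1) = G (k + 1) (o : ℤ) - G k (o : ℤ) / 2 := by
        rw [G_succ, show ((o : ℤ) - 1) = ((o - 1 : ℕ) : ℤ) by omega, G_nat, G_nat, pow_succ]
        ring
      rw [e1]
      have e2 : mm (s * d) F' (k + 1) (o : ℤ) - mm (s * d) F' k (o : ℤ) / 2 -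
          Real.log (4 / 3) / 2 * δ * (G (k + 1) (o : ℤ) - G k (o : ℤ) / 2) =
          (mm (s * d) F' (k + 1) (o : ℤ) - Real.log (4 / 3) / 2 * δ * G (k + 1) (o : ℤ)) -
          (mm (s * d) F' k (o : ℤ) - Real.log (4 / 3) / 2 * δ * G k (o : ℤ)) / 2 := by ring
      rw [e2]
      refine (abs_sub _ _).trans ?_
      rw [abs_div, abs_of_pos (show (0 : ℝ) < 2 by norm_num)]
      have := abs_nonneg (mm (s * d) F' k (o : ℤ) - Real.log (4 / 3) / 2 * δ * G k (o : ℤ))
      linarith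
    refine (sum_le_sum h8).trans ?_
    rw [sum_add_distrib]
    have h9 : ∑ k ∈ range N, |mm (s * d) F' k (o : ℤ) - Real.log (4 / 3) / 2 * δ * G k (o : ℤ)| ≤
        ∑ k ∈ range (N + 1), |mm (s * d) F' k (o : ℤ) - Real.log (4 / 3) / 2 * δ * G k (o : ℤ)| := by
      rw [sum_range_succ]
      linarith [abs_nonneg (mm (s * d) F' N (o : ℤ) - Real.log (4 / 3) / 2 * δ * G N (o : ℤ))]
    have h10 : ∑ k ∈ range N, |mm (s * d) F' (k + 1) (o : ℤ) - Real.log (4 / 3) / 2 * δ * G (k + 1) (o : ℤ)| ≤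
        ∑ k ∈ range (N + 1), |mm (s * d) F' k (o : ℤ) - Real.log (4 / 3) / 2 * δ * G k (o : ℤ)| := by
      rw [sum_range_succ']
      linarith [abs_nonneg (mm (s * d) F' 0 (o : ℤ) - Real.log (4 / 3) / 2 * δ * G 0 (o : ℤ))]
    linarith

end Pool.Agent.R344.LS
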