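import Pool.Agent.R344.LS.M
import Pool.Agent.H499R2.NDLln3

/-!
Level sums, part 14: forms for natural numbers.
-/

set_option autoImplicit false

namespace Pool.Agent.R344.LS

open Finset Filter Topology
open Pool.Agent.H499R2.LT
open Pool.Agent.H499R2.ND (Td Dn Tn Bas Bas_density cop_of_not_dvd side_odd cnt cnt_eq)

theorem tsum_cell {s : Set ℕ} {f : ℕ → ℝ} (h : ∀ n ∈ s, f n = (1 : ℝ) / n) (h' : ∀ n, n ∉ s → f n = 0) :
    ∑' n : s, (1 : ℝ) / ((n : ℕ) : ℝ) = ∑' n, f n := by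
  rw [tsum_subtype s (fun n : ℕ => (1 : ℝ) / (n : ℝ))]
  congr 1
  funext n
  by_cases hn : n ∈ s
  · rw [Set.indicator_of_mem hn, h n hn]
  · rw [Set.indicator_of_notMem hn, h' n hn]

theorem summable_cell {s : Set ℕ} {f : ℕ → ℝ} (h : ∀ n ∈ s, f n = (1 : ℝ) / n) (h' : ∀ n, n ∉ s → f n = 0)
    (hf : Summable f) : Summable (fun n : s => (1 : ℝ) / ((n : ℕ) : ℝ)) := by
  rw [← Function.comp_def (fun n : ℕ => (1 : ℝ) / (n : ℝ)) (fun n : s => (n : ℕ)), summable_subtype_iff_indicator]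
  refine hf.congr fun n => ?_
  by_cases hn : n ∈ s
  · rw [Set.indicator_of_mem hn, h n hn]
  · rw [Set.indicator_of_notMem hn, h' n hn]

theorem it {d s : ℤ} {f : ℕ → ℕ} (hf : ∀ n : ℕ, Td d (s * n) = s * ((f n : ℕ) : ℤ)) (k n : ℕ) :
    (Td d)^[k] (s * n) = s * ((f^[k] n : ℕ) : ℤ) := by
  induction k generalizing n with
  | zero => rfl
  | succ k ih => rw [Function.iterate_succ_apply, Function.iterate_succ_apply, hf, ih]

theorem od_count {d s : ℤ} (hs : s = 1 ∨ s = -1) {f : ℕ → ℕ} (hf : ∀ n : ℕ, Td d (s * n) = s * ((f n : ℕ) : ℤ))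
    (k n : ℕ) : od d k (s * n) = (((range k).filter (fun i => f^[i] n % 2 = 1)).card : ℤ) := by
  induction k generalizing n with
  | zero => simp [od]
  | succ k ih =>
    rw [od, hf, ih, card_filter, card_filter, sum_range_succ']
    push_cast
    have h1 : ∀ i : ℕ, f^[i + 1] n = f^[i] (f n) := fun i => Function.iterate_succ_apply f i n
    simp only [h1, Function.iterate_zero, id_eq]
    have h2 : (if s * (n : ℤ) % 2 = 0 then (0 : ℤ) else 1) = if n % 2 = 1 then 1 else 0 := by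
      rcases hs with rfl | rfl
      · split_ifs <;> omega
      · split_ifs <;> omega
    rw [h2]
    ring

theorem Tn_hf (n : ℕ) : Td 1 (1 * (n : ℤ)) = 1 * ((Tn n : ℕ) : ℤ) := by
  rw [one_mul, one_mul]
  unfold Td
  show _ = (((if n % 2 = 0 then n / 2 else (3 * n + 1) / 2 : ℕ)) : ℤ)
  split_ifs with h1 h2 h2
  · omega
  · omega
  · omega
  · omega

/-- `k` is the total stopping time of `n` -/
def Stops (k n : ℕ) : Prop := Tn^[k] n = 1 ∧ ∀ i < k, Tn^[i] n ≠ 1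

/-- number of odd terms -/
def odds (k n : ℕ) : ℕ := ((Finset.range k).filter fun i => Tn^[i] n % 2 = 1).card

theorem hit_one (k n : ℕ) : (Td 1)^[k] (1 * (n : ℤ)) ∈ ({1} : Finset ℤ) ↔ Tn^[k] n = 1 := by
  rw [it Tn_hf, one_mul, mem_singleton]
  exact_mod_cast Iff.rfl

theorem FH_one (k n : ℕ) : FH 1 {1} k (1 * (n : ℤ)) ↔ Stops k n := by
  unfold FH Stops
  rw [hit_one]
  apply and_congr_right
  intro _
  constructor
  · intro h i hi hc
    exact h i hi ((hit_one i n).2 hc)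
  · intro h i hi hc
    exact h i hi ((hit_one i n).1 hc)

theorem od_one (k n : ℕ) : od 1 k (1 * (n : ℤ)) = (odds k n : ℤ) := od_count (Or.inl rfl) Tn_hf k n

theorem Tn_half (n : ℕ) : n ≤ 2 * Tn n := by
  show n ≤ 2 * (if n % 2 = 0 then n / 2 else (3 * n + 1) / 2)
  split_ifs <;> omega

theorem le_two_pow (k n : ℕ) (h : Tn^[k] n = 1) : n ≤ 2 ^ k := by
  induction k generalizing n with
  | zero => simpa using (le_of_eq h)
  | succ k ih =>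
    rw [Function.iterate_succ_apply] at h
    have h1 := ih _ h
    have h2 := Tn_half n
    rw [pow_succ]
    omega

theorem Dn_ncard {P : ℕ → Prop} {δ : ℝ} (h : Dn P δ) :
    Tendsto (fun N : ℕ => ({n : ℕ | 1 ≤ n ∧ n ≤ N ∧ P n}.ncard : ℝ) / N) atTop (𝓝 δ) := by
  classical
  refine Tendsto.congr (fun N => ?_) h
  rw [cnt_eq]
  congr 2
  rw [← Set.ncard_coe_finset]
  congr 1
  ext n
  simp only [coe_filter, mem_Icc, Set.mem_ofPred_eq]
  tauto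

theorem dens_Tn {δ : ℝ} (h : Dn (fun n : ℕ => ∃ k : ℕ, (Td 1)^[k] (1 * (n : ℤ)) ∈ ({1} : Finset ℤ)) δ) :
    0 < δ ∧ δ ≤ 1 ∧ (δ = 1 ↔ ∀ n : ℕ, 1 ≤ n → ∃ k : ℕ, Tn^[k] n = 1) ∧
    Tendsto (fun N : ℕ => ({n : ℕ | 1 ≤ n ∧ n ≤ N ∧ ∃ k : ℕ, Tn^[k] n = 1}.ncard : ℝ) / N) atTop (𝓝 δ) := by
  obtain ⟨δ', h0, h1, h2, h3⟩ := Bas_density
  have hB : Dn Bas δ := by
    have e : (fun n : ℕ => ∃ k : ℕ, (Td 1)^[k] (1 * (n : ℤ)) ∈ ({1} : Finset ℤ)) = Bas :=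
      funext fun n => propext (exists_congr fun k => hit_one k n)
    rwa [e] at h
  have e : δ = δ' := tendsto_nhds_unique hB h3
  subst e
  exact ⟨h0, h1, h2, Dn_ncard h3⟩

/-- THE LAW OF THE LEVELS, steps of the accelerated map -/
theorem main_T : ∃ δ : ℝ, 0 < δ ∧ δ ≤ 1 ∧ (δ = 1 ↔ ∀ n : ℕ, 1 ≤ n → ∃ k : ℕ, Tn^[k] n = 1) ∧
    Tendsto (fun N : ℕ => ({n : ℕ | 1 ≤ n ∧ n ≤ N ∧ ∃ k : ℕ, Tn^[k] n = 1}.ncard : ℝ) / N) atTop (𝓝 δ) ∧
    (∀ k : ℕ, {n : ℕ | 1 ≤ n ∧ Stops k n}.Finite) ∧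
    Tendsto (fun k : ℕ => ∑ o ∈ range (k + 1),
      |∑' n : {n : ℕ | 1 ≤ n ∧ Stops k n ∧ odds k n = o}, (1 : ℝ) / ((n : ℕ) : ℝ) -
        Real.log (4 / 3) / 2 * δ * ((k.choose o : ℝ) / 2 ^ k)|) atTop (𝓝 0) ∧
    Tendsto (fun k : ℕ => ∑' n : {n : ℕ | 1 ≤ n ∧ Stops k n}, (1 : ℝ) / ((n : ℕ) : ℝ)) atTop
      (𝓝 (Real.log (4 / 3) / 2 * δ)) := by
  classical
  obtain ⟨δ, _, _, hD, _, _, hT, _⟩ := cell_laws (d := 1) odd_one (by omega) (s := 1) (Or.inl rfl) {1}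
  obtain ⟨δ', _, _, hD', _, _, _, _, hT', _⟩ := level_sums (d := 1) odd_one (by omega) (s := 1) (Or.inl rfl) {1}
  have e : δ' = δ := tendsto_nhds_unique hD' hD
  subst e
  obtain ⟨h0, h1, h2, h3⟩ := dens_Tn hD
  refine ⟨δ', h0, h1, h2, h3, ?_, ?_, ?_⟩
  · intro k
    apply (Set.finite_Iic (2 ^ k)).subset
    rintro n ⟨_, hn⟩
    exact le_two_pow k n hn.1
  · refine hT.congr fun k => ?_
    apply sum_congr rfl
    intro o _
    rw [tsum_cell (s := {n : ℕ | 1 ≤ n ∧ Stops k n ∧ odds k n = o}) (f := fX 1 1 {1} k o)]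
    · rintro n ⟨g1, g2, g3⟩
      unfold fX
      rw [if_pos ⟨g1, (FH_one k n).2 g2, by rw [od_one, g3]⟩]
    · intro n hn
      unfold fX
      rw [if_neg]
      rintro ⟨g1, g2, g3⟩
      rw [od_one] at g3
      exact hn ⟨g1, (FH_one k n).1 g2, by exact_mod_cast g3⟩
  · refine hT'.congr fun k => ?_
    rw [tsum_cell (s := {n : ℕ | 1 ≤ n ∧ Stops k n}) (f := fT 1 1 {1} k)]
    · rintro n ⟨g1, g2⟩
      unfold fT
      rw [if_pos ⟨g1, (FH_one k n).2 g2⟩]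
    · intro n hn
      unfold fT
      rw [if_neg]
      rintro ⟨g1, g2⟩
      exact hn ⟨g1, (FH_one k n).1 g2⟩

end Pool.Agent.R344.LS
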