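import Pool.Agent.R344.LS.U

/-!
Level sums, part 15: the law of large numbers on the levels.
-/

set_option autoImplicit false

namespace Pool.Agent.R344.LS

open Finset Filter Topology
open Pool.Agent.H499R2.LT
open Pool.Agent.H499R2.ND (Td Dn Tn Bas Bas_density cop_of_not_dvd side_odd cnt cnt_eq)

theorem tail_G {η : ℝ} (hη : 0 < η) {k : ℕ} (hk : 1 ≤ k) :
    ∑ o ∈ (range (k + 1)).filter (fun o : ℕ => η * k < |2 * (o : ℝ) - k|), G k (o : ℤ) ≤ 1 / (η ^ 2 * k) := by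
  have hk0 : (0 : ℝ) < k := by exact_mod_cast hk
  have h1 : ∑ o ∈ (range (k + 1)).filter (fun o : ℕ => η * k < |2 * (o : ℝ) - k|), G k (o : ℤ) ≤
      ∑ o ∈ range (k + 1), G k (o : ℤ) * (2 * (o : ℝ) - k) ^ 2 * (1 / (η * k) ^ 2) := by
    rw [sum_filter]
    apply sum_le_sum
    intro o _
    have hG := G_nonneg k (o : ℤ)
    split_ifs with h
    · have h2 : (η * k) ^ 2 ≤ (2 * (o : ℝ) - k) ^ 2 := by
        rw [← sq_abs (2 * (o : ℝ) - k)]
        exact pow_le_pow_left₀ (by positivity) h.le 2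
      rw [mul_assoc]
      calc G k (o : ℤ) = G k (o : ℤ) * 1 := (mul_one _).symm
        _ ≤ G k (o : ℤ) * ((2 * (o : ℝ) - k) ^ 2 * (1 / (η * k) ^ 2)) := by
          apply mul_le_mul_of_nonneg_left _ hG
          rw [mul_one_div, le_div_iff₀ (by positivity), one_mul]
          exact h2
    · positivity
  refine h1.trans (le_of_eq ?_)
  rw [← sum_mul, (mom k).2.1]
  field_simp

theorem odds_le (k n : ℕ) : odds k n ≤ k := by
  unfold odds
  exact (card_filter_le _ _).trans (by simp)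

/-- the members of the levels away from the diagonal have a vanishing mass -/
theorem off_T {δ : ℝ} {A : ℕ → Set ℕ} {η : ℝ} (hη : 0 < η) (k1 : ℕ)
    (hA : ∀ k ≥ k1, ∀ n ∈ A k, 1 ≤ n ∧ Stops k n ∧ η * k < |2 * (odds k n : ℝ) - k|)
    (hT : Tendsto (fun k : ℕ => ∑ o ∈ range (k + 1),
      |∑' n, fX 1 1 {1} k o n - Real.log (4 / 3) / 2 * δ * ((k.choose o : ℝ) / 2 ^ k)|) atTop (𝓝 0))
    (hs : ∀ k o, Summable (fX 1 1 {1} k o)) (hδ : 0 ≤ δ) :
    Tendsto (fun k : ℕ => ∑' n : A k, (1 : ℝ) / ((n : ℕ) : ℝ)) atTop (𝓝 0) := by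
  classical
  set c : ℝ := Real.log (4 / 3) / 2 * δ with hc
  have hc0 : 0 ≤ c := mul_nonneg (div_nonneg (Real.log_nonneg (by norm_num)) (by norm_num)) hδ
  have hfX : ∀ k o n, 0 ≤ fX 1 1 {1} k o n := by
    intro k o n
    unfold fX
    split_ifs
    · positivity
    · exact le_rfl
  have hb : Tendsto (fun k : ℕ => c * (1 / (η ^ 2 * k)) + ∑ o ∈ range (k + 1),
      |∑' n, fX 1 1 {1} k o n - c * ((k.choose o : ℝ) / 2 ^ k)|) atTop (𝓝 (c * 0 + 0)) := by
    apply Tendsto.add _ hT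
    apply Tendsto.const_mul
    apply Tendsto.div_atTop tendsto_const_nhds
    exact Tendsto.const_mul_atTop (by positivity) tendsto_natCast_atTop_atTop
  rw [mul_zero, add_zero] at hb
  refine tendsto_of_tendsto_of_tendsto_of_le_of_le' tendsto_const_nhds hb ?_ ?_
  · refine Eventually.of_forall fun k => ?_
    apply tsum_nonneg
    intro n
    positivity
  · filter_upwards [eventually_ge_atTop k1, eventually_ge_atTop 1] with k hk hk'
    set bad := (range (k + 1)).filter (fun o : ℕ => η * k < |2 * (o : ℝ) - k|) with hbad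
    have e1 : ∑' n : A k, (1 : ℝ) / ((n : ℕ) : ℝ) = ∑' n, (A k).indicator (fun n : ℕ => (1 : ℝ) / (n : ℝ)) n :=
      tsum_subtype (A k) (fun n : ℕ => (1 : ℝ) / (n : ℝ))
    have hpt : ∀ n, (A k).indicator (fun n : ℕ => (1 : ℝ) / (n : ℝ)) n ≤ ∑ o ∈ bad, fX 1 1 {1} k o n := by
      intro n
      by_cases hn : n ∈ A k
      · rw [Set.indicator_of_mem hn]
        obtain ⟨g1, g2, g3⟩ := hA k hk n hn
        have h5 : (1 : ℝ) / (n : ℝ) = fX 1 1 {1} k (odds k n) n := by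
          unfold fX
          rw [if_pos ⟨g1, (FH_one k n).2 g2, od_one k n⟩]
        rw [h5]
        apply single_le_sum (f := fun o => fX 1 1 {1} k o n) (fun o _ => hfX k o n)
        rw [hbad, mem_filter, mem_range]
        exact ⟨by have := odds_le k n; omega, g3⟩
      · rw [Set.indicator_of_notMem hn]
        exact sum_nonneg fun o _ => hfX k o n
    have hsb : Summable fun n => ∑ o ∈ bad, fX 1 1 {1} k o n := summable_sum fun o _ => hs k o
    have hsA : Summable ((A k).indicator (fun n : ℕ => (1 : ℝ) / (n : ℝ))) := by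
      refine Summable.of_nonneg_of_le (fun n => ?_) hpt hsb
      apply Set.indicator_nonneg
      intro _ _
      positivity
    rw [e1]
    refine (hsA.tsum_le_tsum hpt hsb).trans ?_
    rw [Summable.tsum_finsetSum (fun o _ => hs k o)]
    have h6 : ∀ o ∈ bad, ∑' n, fX 1 1 {1} k o n ≤ c * G k (o : ℤ) + |∑' n, fX 1 1 {1} k o n - c * ((k.choose o : ℝ) / 2 ^ k)| := by
      intro o _
      rw [G_nat]
      have := le_abs_self (∑' n, fX 1 1 {1} k o n - c * ((k.choose o : ℝ) / 2 ^ k))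
      linarith
    refine (sum_le_sum h6).trans ?_
    rw [sum_add_distrib, ← mul_sum]
    apply add_le_add
    · exact mul_le_mul_of_nonneg_left (tail_G hη hk') hc0
    · apply sum_le_sum_of_subset_of_nonneg (filter_subset _ _)
      intro _ _ _
      exact abs_nonneg _

/-- the size of the members of a level -/
theorem size_T : ∃ C : ℝ, 0 < C ∧ ∀ k n : ℕ, 1 ≤ n → Stops k n →
    |Real.log n + odds k n * Real.log 3 - k * Real.log 2| ≤ C := by
  obtain ⟨C, hC, h⟩ := size (d := 1) odd_one (by norm_num) {1}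
  refine ⟨C, hC, fun k n hn hs => ?_⟩
  have h1 := (FH_one k n).2 hs
  rw [one_mul, FH_iff] at h1
  have h2 := h n (by omega) h1.1
  have h3 : ho 1 {1} (n : ℤ) = (odds k n : ℤ) := by
    unfold ho
    rw [h1.2]
    have := od_one k n
    rwa [one_mul] at this
  rw [h3, h1.2] at h2
  simpa using h2

theorem mu_log : Real.log (4 / 3) = 2 * Real.log 2 - Real.log 3 := by
  rw [Real.log_div (by norm_num) (by norm_num), show (4 : ℝ) = 2 ^ 2 by norm_num, Real.log_pow]
  push_cast; ring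

/-- THE LAW OF THE LEVELS, steps of the accelerated map, with the law of large numbers -/
theorem main_T' : ∃ δ : ℝ, 0 < δ ∧ δ ≤ 1 ∧ (δ = 1 ↔ ∀ n : ℕ, 1 ≤ n → ∃ k : ℕ, Tn^[k] n = 1) ∧
    Tendsto (fun N : ℕ => ({n : ℕ | 1 ≤ n ∧ n ≤ N ∧ ∃ k : ℕ, Tn^[k] n = 1}.ncard : ℝ) / N) atTop (𝓝 δ) ∧
    (∀ k : ℕ, {n : ℕ | 1 ≤ n ∧ Stops k n}.Finite) ∧
    Tendsto (fun k : ℕ => ∑' n : {n : ℕ | 1 ≤ n ∧ Stops k n}, (1 : ℝ) / ((n : ℕ) : ℝ)) atTop
      (𝓝 (Real.log (4 / 3) / 2 * δ)) ∧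
    Tendsto (fun k : ℕ => ∑ o ∈ range (k + 1),
      |∑' n : {n : ℕ | 1 ≤ n ∧ Stops k n ∧ odds k n = o}, (1 : ℝ) / ((n : ℕ) : ℝ) -
        Real.log (4 / 3) / 2 * δ * ((k.choose o : ℝ) / 2 ^ k)|) atTop (𝓝 0) ∧
    ∀ ε : ℝ, 0 < ε → Tendsto (fun k : ℕ => ∑' n : {n : ℕ | 1 ≤ n ∧ Stops k n ∧
      ε * k < |(k : ℝ) - 2 / Real.log (4 / 3) * Real.log n|}, (1 : ℝ) / ((n : ℕ) : ℝ)) atTop (𝓝 0) := by
  classical
  obtain ⟨δ, h0, h1, h2, h3, h4, h5, h6⟩ := main_T
  obtain ⟨δ', _, _, hD, hs, _, hT, _⟩ := cell_laws (d := 1) odd_one (by omega) (s := 1) (Or.inl rfl) {1}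
  obtain ⟨_, _, _, h3'⟩ := dens_Tn hD
  have e : δ' = δ := tendsto_nhds_unique h3' h3
  subst e
  refine ⟨δ', h0, h1, h2, h3, h4, h6, h5, ?_⟩
  intro ε hε
  obtain ⟨C, hC, hsz⟩ := size_T
  have hl : 0 < Real.log (4 / 3) := Real.log_pos (by norm_num)
  have hl3 : 0 < Real.log 3 := Real.log_pos (by norm_num)
  set lam := Real.log (4 / 3) with hlam
  -- `|2 o - k| log 3 ≥ ε lam k - 2 C`
  obtain ⟨k1, hk1⟩ := exists_nat_gt (4 * C / (ε * lam))
  have hη : 0 < ε * lam / (4 * Real.log 3) := by positivity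
  apply off_T hη k1 _ hT hs h0.le
  rintro k hk n ⟨g1, g2, g3⟩
  refine ⟨g1, g2, ?_⟩
  have hkk : 4 * C < ε * lam * k := by
    rw [div_lt_iff₀ (by positivity)] at hk1
    have : (k1 : ℝ) ≤ k := by exact_mod_cast hk
    nlinarith [mul_le_mul_of_nonneg_right this (show 0 ≤ ε * lam by positivity)]
  have h7 := hsz k n g1 g2
  have h8 : ε * lam * k < |lam * k - 2 * Real.log n| := by
    have h9 : |(k : ℝ) - 2 / lam * Real.log n| * lam = |lam * k - 2 * Real.log n| := by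
      rw [← abs_of_pos hl, ← abs_mul, abs_of_pos hl]
      congr 1
      field_simp
    rw [← h9]
    nlinarith [mul_lt_mul_of_pos_right g3 hl]
  -- identity
  have h10 : lam * k - 2 * Real.log n = (2 * (odds k n : ℝ) - k) * Real.log 3 -
      2 * (Real.log n + odds k n * Real.log 3 - k * Real.log 2) := by
    rw [hlam, mu_log]; ring
  have h11 : |lam * k - 2 * Real.log n| ≤ |2 * (odds k n : ℝ) - k| * Real.log 3 + 2 * C := by
    rw [h10]
    refine (abs_sub _ _).trans ?_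
    rw [abs_mul, abs_mul, abs_of_pos hl3, abs_of_pos (show (0 : ℝ) < 2 by norm_num)]
    linarith
  have h12 : ε * lam / (4 * Real.log 3) * k * Real.log 3 < |2 * (odds k n : ℝ) - k| * Real.log 3 := by
    have e1 : ε * lam / (4 * Real.log 3) * k * Real.log 3 = ε * lam * k / 4 := by field_simp
    rw [e1]
    have : 0 < ε * lam * k := lt_trans (by positivity) hkk
    linarith
  exact lt_of_mul_lt_mul_right h12 hl3.le

end Pool.Agent.R344.LS
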