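import Pool.Agent.R344.LS.V
import Pool.Agent.H499R2.LT.R6

/-!
Level sums, part 16: the Collatz map `n / 2`, `3 n + 1`.
-/

set_option autoImplicit false

namespace Pool.Agent.R344.LS

open Finset Filter Topology
open Pool.Agent.H499R2.LT
open Pool.Agent.H499R2.ND (Td Dn Tn CC Bas Bas_density BasC cop_of_not_dvd side_odd cnt cnt_eq)

/-- `k` is the number of steps to 1 -/
def StopsC (k n : ℕ) : Prop := CC^[k] n = 1 ∧ ∀ i < k, CC^[i] n ≠ 1

/-- number of odd terms -/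
def oddsC (k n : ℕ) : ℕ := ((Finset.range k).filter fun i => CC^[i] n % 2 = 1).card

theorem oddsC_le (k n : ℕ) : oddsC k n ≤ k := by
  unfold oddsC
  exact (card_filter_le _ _).trans (by simp)

theorem FF_one : FF {1} = {1} := by
  ext g
  rw [mem_FF, Finset.mem_singleton, Finset.mem_singleton]
  omega

theorem cell_C (e o n : ℕ) : (StopsC (e + o) n ∧ oddsC (e + o) n = o) ↔
    (FH 1 {1} e (1 * (n : ℤ)) ∧ od 1 e (1 * (n : ℤ)) = o) := by
  have hiff : ∀ (n k : ℕ), Cz^[k] (1 * (n : ℤ)) ∈ ({1} : Finset ℤ) ↔ CC^[k] n = 1 := by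
    intro n k
    rw [one_mul, Cz_nat, Finset.mem_singleton]
    exact_mod_cast Iff.rfl
  have hlev : LevC {1} e o (1 * (n : ℤ)) ↔ (StopsC (e + o) n ∧ oddsC (e + o) n = o) := by
    unfold LevC LevT StopsC
    simp only [hiff]
    rw [one_mul, oC_nat]
    show _ ↔ _ ∧ ocn (e + o) n = o
    tauto
  rw [← hlev, levC_iff, FF_one]
  constructor
  · rintro ⟨g, hg, h7⟩
    have hg1 : g = 1 := Finset.mem_singleton.1 hg.2.1
    subst hg1
    rcases h7 with ⟨_, h7⟩ | ⟨h7, _⟩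
    · refine ⟨⟨?_, hg.2.2⟩, h7⟩
      rw [hg.1]; simp
    · exact absurd (Finset.mem_singleton.2 rfl) h7
  · rintro ⟨⟨h1, h2⟩, h3⟩
    exact ⟨1, ⟨Finset.mem_singleton.1 h1, by simp, h2⟩, Or.inl ⟨by simp, h3⟩⟩

theorem stopsC_iff (j n : ℕ) : StopsC j n ↔ ∃ k : ℕ, FH 1 {1} k (1 * (n : ℤ)) ∧ (k : ℤ) + od 1 k (1 * (n : ℤ)) = j := by
  constructor
  · intro h
    have hle := oddsC_le j n
    obtain ⟨h1, h2⟩ := (cell_C (j - oddsC j n) (oddsC j n) n).1 (by rw [Nat.sub_add_cancel hle]; exact ⟨h, rfl⟩)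
    exact ⟨j - oddsC j n, h1, by rw [h2]; omega⟩
  · rintro ⟨k, h1, h2⟩
    obtain ⟨o, ho⟩ := Int.eq_ofNat_of_zero_le (od_bd 1 k (1 * (n : ℤ))).1
    have h3 := (cell_C k o n).2 ⟨h1, ho⟩
    have : k + o = j := by omega
    rw [this] at h3
    exact h3.1

theorem CC_half (n : ℕ) : n ≤ 2 * CC n := by
  unfold CC
  split_ifs <;> omega

theorem le_two_powC (k n : ℕ) (h : CC^[k] n = 1) : n ≤ 2 ^ k := by
  induction k generalizing n with
  | zero => simpa using (le_of_eq h)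
  | succ k ih =>
    rw [Function.iterate_succ_apply] at h
    have h1 := ih _ h
    have h2 := CC_half n
    rw [pow_succ]
    omega

theorem dens_CC {δ : ℝ} (h : Dn (fun n : ℕ => ∃ k : ℕ, (Td 1)^[k] (1 * (n : ℤ)) ∈ ({1} : Finset ℤ)) δ) :
    0 < δ ∧ δ ≤ 1 ∧ (δ = 1 ↔ ∀ n : ℕ, 1 ≤ n → ∃ k : ℕ, CC^[k] n = 1) ∧
    Tendsto (fun N : ℕ => ({n : ℕ | 1 ≤ n ∧ n ≤ N ∧ ∃ k : ℕ, CC^[k] n = 1}.ncard : ℝ) / N) atTop (𝓝 δ) := by
  obtain ⟨h0, h1, h2, h3⟩ := dens_Tn h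
  have e : ∀ n : ℕ, (∃ k : ℕ, Tn^[k] n = 1) ↔ ∃ k : ℕ, CC^[k] n = 1 := fun n => BasC n
  refine ⟨h0, h1, ?_, ?_⟩
  · rw [h2]
    exact forall₂_congr fun n _ => e n
  · simpa only [e] using h3

theorem mass_C (e o : ℕ) :
    ∑' n : {n : ℕ | 1 ≤ n ∧ StopsC (e + o) n ∧ oddsC (e + o) n = o}, (1 : ℝ) / ((n : ℕ) : ℝ) =
      ∑' n, fX 1 1 {1} e o n := by
  classical
  apply tsum_cell
  · rintro n ⟨g1, g2⟩
    unfold fX
    rw [if_pos ⟨g1, (cell_C e o n).1 g2⟩]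
  · intro n hn
    unfold fX
    rw [if_neg]
    rintro ⟨g1, g2⟩
    exact hn ⟨g1, (cell_C e o n).2 g2⟩

/-- THE UNIFORM LAW, Collatz map -/
theorem main_C : ∃ δ : ℝ, 0 < δ ∧ δ ≤ 1 ∧ (δ = 1 ↔ ∀ n : ℕ, 1 ≤ n → ∃ k : ℕ, CC^[k] n = 1) ∧
    Tendsto (fun N : ℕ => ({n : ℕ | 1 ≤ n ∧ n ≤ N ∧ ∃ k : ℕ, CC^[k] n = 1}.ncard : ℝ) / N) atTop (𝓝 δ) ∧
    (∀ k : ℕ, {n : ℕ | 1 ≤ n ∧ StopsC k n}.Finite) ∧
    Tendsto (fun k : ℕ => ∑' n : {n : ℕ | 1 ≤ n ∧ StopsC k n}, (1 : ℝ) / ((n : ℕ) : ℝ)) atTop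
      (𝓝 (Real.log (4 / 3) / 3 * δ)) ∧
    (∀ B ε : ℝ, 0 < ε → ∃ k0 : ℕ, ∀ S : Finset (ℕ × ℕ),
      (∀ a b : ℕ, ∑ v ∈ S with a ≤ v.1 ∧ b ≤ v.2, ((v.1 - a).choose (v.2 - b) : ℝ) / 2 ^ (v.1 - a) ≤ B) →
      (∀ v ∈ S, k0 ≤ v.1) →
      ∑ v ∈ S, |∑' n : {n : ℕ | 1 ≤ n ∧ StopsC (v.1 + v.2) n ∧ oddsC (v.1 + v.2) n = v.2}, (1 : ℝ) / ((n : ℕ) : ℝ) -
        Real.log (4 / 3) / 2 * δ * ((v.1.choose v.2 : ℝ) / 2 ^ v.1)| ≤ ε) ∧
    Tendsto (fun j : ℕ => ∑ e ∈ range (j + 1),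
      |∑' n : {n : ℕ | 1 ≤ n ∧ StopsC (e + (j - e)) n ∧ oddsC (e + (j - e)) n = j - e}, (1 : ℝ) / ((n : ℕ) : ℝ) -
        Real.log (4 / 3) / 2 * δ * ((e.choose (j - e) : ℝ) / 2 ^ e)|) atTop (𝓝 0) := by
  classical
  obtain ⟨δ, _, _, hD, _, hU, _, hC, _⟩ := cell_laws (d := 1) odd_one (by omega) (s := 1) (Or.inl rfl) {1}
  obtain ⟨δ', _, _, hD', _, _, _, _, _, hC', _⟩ := level_sums (d := 1) odd_one (by omega) (s := 1) (Or.inl rfl) {1}
  have e : δ' = δ := tendsto_nhds_unique hD' hD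
  subst e
  obtain ⟨h0, h1, h2, h3⟩ := dens_CC hD
  refine ⟨δ', h0, h1, h2, h3, ?_, ?_, ?_, ?_⟩
  · intro k
    apply (Set.finite_Iic (2 ^ k)).subset
    rintro n ⟨_, hn⟩
    exact le_two_powC k n hn.1
  · refine hC'.congr fun k => ?_
    rw [tsum_cell (s := {n : ℕ | 1 ≤ n ∧ StopsC k n}) (f := fC 1 1 {1} k)]
    · rintro n ⟨g1, g2⟩
      unfold fC
      rw [if_pos ⟨g1, (stopsC_iff k n).1 g2⟩]
    · intro n hn
      unfold fC
      rw [if_neg]
      rintro ⟨g1, g2⟩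
      exact hn ⟨g1, (stopsC_iff k n).2 g2⟩
  · intro B ε hε
    obtain ⟨k0, hk0⟩ := hU B ε hε
    refine ⟨k0, fun S hB hS => ?_⟩
    refine le_trans (le_of_eq ?_) (hk0 S hB hS)
    apply sum_congr rfl
    intro v _
    rw [mass_C]
  · refine hC.congr fun j => ?_
    apply sum_congr rfl
    intro k _
    rw [mass_C]

/-- the members of the levels away from the diagonal have a vanishing mass -/
theorem off_C {δ : ℝ} {A : ℕ → Set ℕ} {η : ℝ} (hη : 0 < η) (k1 : ℕ)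
    (hA : ∀ j ≥ k1, ∀ n ∈ A j, 1 ≤ n ∧ StopsC j n ∧ η * ((j - oddsC j n : ℕ) : ℝ) < |2 * (oddsC j n : ℝ) - ((j - oddsC j n : ℕ) : ℝ)|)
    (hC : Tendsto (fun j : ℕ => ∑ k ∈ range (j + 1),
      |∑' n, fX 1 1 {1} k (j - k) n - Real.log (4 / 3) / 2 * δ * ((k.choose (j - k) : ℝ) / 2 ^ k)|) atTop (𝓝 0))
    (hs : ∀ k o, Summable (fX 1 1 {1} k o)) (hδ : 0 ≤ δ) :
    Tendsto (fun k : ℕ => ∑' n : A k, (1 : ℝ) / ((n : ℕ) : ℝ)) atTop (𝓝 0) := by
  classical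
  set c : ℝ := Real.log (4 / 3) / 2 * δ with hc
  have hc0 : 0 ≤ c := mul_nonneg (div_nonneg (Real.log_nonneg (by norm_num)) (by norm_num)) hδ
  have hfX : ∀ k o n, 0 ≤ fX 1 1 {1} k o n := by
    intro k o n
    unfold fX
    split_ifs
    · positivity
    · exact le_rfl
  have hb : Tendsto (fun j : ℕ => c * (1 / η ^ 4 * (6 / ((j / 2 : ℕ) : ℝ))) + ∑ k ∈ range (j + 1),
      |∑' n, fX 1 1 {1} k (j - k) n - c * ((k.choose (j - k) : ℝ) / 2 ^ k)|) atTop (𝓝 (c * (1 / η ^ 4 * 0) + 0)) := by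
    apply Tendsto.add _ hC
    apply Tendsto.const_mul
    apply Tendsto.const_mul
    apply Tendsto.div_atTop tendsto_const_nhds
    apply tendsto_natCast_atTop_atTop.comp
    exact tendsto_atTop_atTop.2 fun b => ⟨2 * b, fun a ha => by omega⟩
  rw [mul_zero, mul_zero, add_zero] at hb
  refine tendsto_of_tendsto_of_tendsto_of_le_of_le' tendsto_const_nhds hb ?_ ?_
  · refine Eventually.of_forall fun k => ?_
    apply tsum_nonneg
    intro n
    positivity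
  · filter_upwards [eventually_ge_atTop k1, eventually_ge_atTop 4] with j hj hj'
    set bad := (range (j + 1)).filter (fun e : ℕ => j ≤ 2 * e ∧ η * e < |2 * ((j - e : ℕ) : ℝ) - e|) with hbad
    have e1 : ∑' n : A j, (1 : ℝ) / ((n : ℕ) : ℝ) = ∑' n, (A j).indicator (fun n : ℕ => (1 : ℝ) / (n : ℝ)) n :=
      tsum_subtype (A j) (fun n : ℕ => (1 : ℝ) / (n : ℝ))
    have hpt : ∀ n, (A j).indicator (fun n : ℕ => (1 : ℝ) / (n : ℝ)) n ≤ ∑ e ∈ bad, fX 1 1 {1} e (j - e) n := by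
      intro n
      by_cases hn : n ∈ A j
      · rw [Set.indicator_of_mem hn]
        obtain ⟨g1, g2, g3⟩ := hA j hj n hn
        have hle := oddsC_le j n
        have g4 := (cell_C (j - oddsC j n) (oddsC j n) n).1 (by rw [Nat.sub_add_cancel hle]; exact ⟨g2, rfl⟩)
        have g5 : j - (j - oddsC j n) = oddsC j n := by omega
        have h5 : (1 : ℝ) / (n : ℝ) = fX 1 1 {1} (j - oddsC j n) (j - (j - oddsC j n)) n := by
          unfold fX
          rw [g5, if_pos ⟨g1, g4⟩]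
        rw [h5]
        apply single_le_sum (f := fun e => fX 1 1 {1} e (j - e) n) (fun o _ => hfX _ _ n)
        rw [hbad, mem_filter, mem_range]
        refine ⟨by omega, ?_, ?_⟩
        · have := (od_bd 1 (j - oddsC j n) (1 * (n : ℤ))).2
          rw [g4.2] at this
          omega
        · rw [g5]; exact g3
      · rw [Set.indicator_of_notMem hn]
        exact sum_nonneg fun o _ => hfX _ _ n
    have hsb : Summable fun n => ∑ e ∈ bad, fX 1 1 {1} e (j - e) n := summable_sum fun o _ => hs _ _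
    have hsA : Summable ((A j).indicator (fun n : ℕ => (1 : ℝ) / (n : ℝ))) := by
      refine Summable.of_nonneg_of_le (fun n => ?_) hpt hsb
      apply Set.indicator_nonneg
      intro _ _
      positivity
    rw [e1]
    refine (hsA.tsum_le_tsum hpt hsb).trans ?_
    rw [Summable.tsum_finsetSum (fun o _ => hs _ _)]
    have h6 : ∀ e ∈ bad, ∑' n, fX 1 1 {1} e (j - e) n ≤ c * G e ((j - e : ℕ) : ℤ) + |∑' n, fX 1 1 {1} e (j - e) n - c * ((e.choose (j - e) : ℝ) / 2 ^ e)| := by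
      intro o _
      rw [G_nat]
      have := le_abs_self (∑' n, fX 1 1 {1} o (j - o) n - c * ((o.choose (j - o) : ℝ) / 2 ^ o))
      linarith
    refine (sum_le_sum h6).trans ?_
    rw [sum_add_distrib, ← mul_sum]
    apply add_le_add
    · apply mul_le_mul_of_nonneg_left _ hc0
      have hq := quart (S := bad.image (fun e : ℕ => (e, ((j - e : ℕ) : ℤ)))) (a := 0) (b := 0) (K := j / 2) (by omega) (by
        intro v hv
        rw [mem_image] at hv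
        obtain ⟨e, he, rfl⟩ := hv
        rw [hbad, mem_filter] at he
        have := he.2.1
        simp only
        omega)
      rw [sum_image fun x _ y _ h => by simp only [Prod.mk.injEq] at h; exact h.1] at hq
      have h7 : ∑ e ∈ bad, G e ((j - e : ℕ) : ℤ) ≤ ∑ e ∈ bad, 1 / η ^ 4 * (G (e - 0) (((j - e : ℕ) : ℤ) - 0) *
          ((2 * ((((j - e : ℕ) : ℤ) : ℝ) - (0 : ℤ)) - ((e - 0 : ℕ) : ℝ)) ^ 4 / ((e - 0 : ℕ) : ℝ) ^ 4)) := by
        apply sum_le_sum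
        intro e he
        rw [hbad, mem_filter, mem_range] at he
        have he0 : (0 : ℝ) < e := by
          have : 0 < e := by omega
          exact_mod_cast this
        simp only [Nat.sub_zero, Int.cast_zero, sub_zero, Int.cast_natCast]
        have h8 : 1 ≤ 1 / η ^ 4 * ((2 * ((j - e : ℕ) : ℝ) - e) ^ 4 / (e : ℝ) ^ 4) := by
          have h9 : (η * e) ^ 4 ≤ (2 * ((j - e : ℕ) : ℝ) - e) ^ 4 := by
            rw [← Even.pow_abs (by decide : Even 4) (2 * ((j - e : ℕ) : ℝ) - e)]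
            exact pow_le_pow_left₀ (by positivity) he.2.2.le 4
          rw [← mul_div_assoc, one_div_mul_eq_div, div_div, le_div_iff₀ (by positivity), one_mul, ← mul_pow]
          exact h9
        have hG := G_nonneg e ((j - e : ℕ) : ℤ)
        calc G e ((j - e : ℕ) : ℤ) = G e ((j - e : ℕ) : ℤ) * 1 := (mul_one _).symm
          _ ≤ G e ((j - e : ℕ) : ℤ) * (1 / η ^ 4 * ((2 * ((j - e : ℕ) : ℝ) - e) ^ 4 / (e : ℝ) ^ 4)) :=
            mul_le_mul_of_nonneg_left h8 hG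
          _ = _ := by ring
      refine h7.trans ?_
      rw [← mul_sum]
      apply mul_le_mul_of_nonneg_left _ (by positivity)
      exact hq
    · apply sum_le_sum_of_subset_of_nonneg (filter_subset _ _)
      intro _ _ _
      exact abs_nonneg _

/-- the size of the members of a level -/
theorem size_C : ∃ C : ℝ, 0 < C ∧ ∀ j n : ℕ, 1 ≤ n → StopsC j n →
    |Real.log n + oddsC j n * Real.log 3 - ((j - oddsC j n : ℕ) : ℝ) * Real.log 2| ≤ C := by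
  obtain ⟨C, hC, h⟩ := size (d := 1) odd_one (by norm_num) {1}
  refine ⟨C, hC, fun j n hn hs => ?_⟩
  have hle := oddsC_le j n
  have g4 := (cell_C (j - oddsC j n) (oddsC j n) n).1 (by rw [Nat.sub_add_cancel hle]; exact ⟨hs, rfl⟩)
  obtain ⟨h1, h1'⟩ := g4
  rw [one_mul] at h1 h1'
  rw [FH_iff] at h1
  have h2 := h n (by omega) h1.1
  have h3 : ho 1 {1} (n : ℤ) = (oddsC j n : ℤ) := by
    unfold ho
    rw [h1.2]
    exact h1'
  rw [h3, h1.2] at h2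
  simpa using h2

/-- THE LAW OF THE LEVELS, steps of the Collatz map, with the law of large numbers -/
theorem main_C' : ∃ δ : ℝ, 0 < δ ∧ δ ≤ 1 ∧ (δ = 1 ↔ ∀ n : ℕ, 1 ≤ n → ∃ k : ℕ, CC^[k] n = 1) ∧
    Tendsto (fun N : ℕ => ({n : ℕ | 1 ≤ n ∧ n ≤ N ∧ ∃ k : ℕ, CC^[k] n = 1}.ncard : ℝ) / N) atTop (𝓝 δ) ∧
    Tendsto (fun j : ℕ => ∑ o ∈ range (j + 1),
      |∑' n : {n : ℕ | 1 ≤ n ∧ StopsC j n ∧ oddsC j n = o}, (1 : ℝ) / ((n : ℕ) : ℝ) -
        Real.log (4 / 3) / 2 * δ * (((j - o).choose o : ℝ) / 2 ^ (j - o))|) atTop (𝓝 0) ∧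
    ∀ ε : ℝ, 0 < ε → Tendsto (fun k : ℕ => ∑' n : {n : ℕ | 1 ≤ n ∧ StopsC k n ∧
      ε * k < |(k : ℝ) - 3 / Real.log (4 / 3) * Real.log n|}, (1 : ℝ) / ((n : ℕ) : ℝ)) atTop (𝓝 0) := by
  classical
  obtain ⟨δ, h0, h1, h2, h3, _, _, _, h5⟩ := main_C
  obtain ⟨δ', _, _, hD, hs, _, _, hC, _⟩ := cell_laws (d := 1) odd_one (by omega) (s := 1) (Or.inl rfl) {1}
  obtain ⟨_, _, _, h3'⟩ := dens_CC hD
  have e : δ' = δ := tendsto_nhds_unique h3' h3
  subst e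
  refine ⟨δ', h0, h1, h2, h3, ?_, ?_⟩
  · refine h5.congr fun j => ?_
    rw [← sum_range_reflect]
    apply sum_congr rfl
    intro o ho'
    rw [mem_range] at ho'
    have key : ∀ a b : ℕ, a = j - o → b = o →
        |∑' n : {n : ℕ | 1 ≤ n ∧ StopsC (a + b) n ∧ oddsC (a + b) n = b}, (1 : ℝ) / ((n : ℕ) : ℝ) -
          Real.log (4 / 3) / 2 * δ' * ((a.choose b : ℝ) / 2 ^ a)| =
        |∑' n : {n : ℕ | 1 ≤ n ∧ StopsC j n ∧ oddsC j n = o}, (1 : ℝ) / ((n : ℕ) : ℝ) -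
          Real.log (4 / 3) / 2 * δ' * (((j - o).choose o : ℝ) / 2 ^ (j - o))| := by
      rintro a b rfl rfl
      have e3 : j - b + b = j := by omega
      rw [e3]
    exact key _ _ (by omega) (by omega)
  intro ε hε
  obtain ⟨C, hC0, hsz⟩ := size_C
  have hl : 0 < Real.log (4 / 3) := Real.log_pos (by norm_num)
  have hl3 : 0 < Real.log 3 := Real.log_pos (by norm_num)
  have hl2 : 0 < Real.log 2 := Real.log_pos (by norm_num)
  set lam := Real.log (4 / 3) with hlam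
  obtain ⟨k1, hk1⟩ := exists_nat_gt (6 * C / (ε * lam))
  -- `lam j - 3 log n = (2 o - e) (log 2 + log 3) - 3 (...)`
  have hη : 0 < ε * lam / (4 * (Real.log 2 + Real.log 3)) := by positivity
  apply off_C hη k1 _ hC hs h0.le
  rintro k hk n ⟨g1, g2, g3⟩
  refine ⟨g1, g2, ?_⟩
  have hle := oddsC_le k n
  have hkk : 6 * C < ε * lam * k := by
    rw [div_lt_iff₀ (by positivity)] at hk1
    have : (k1 : ℝ) ≤ k := by exact_mod_cast hk
    nlinarith [mul_le_mul_of_nonneg_right this (show 0 ≤ ε * lam by positivity)]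
  have h7 := hsz k n g1 g2
  have h8 : ε * lam * k < |lam * k - 3 * Real.log n| := by
    have h9 : |(k : ℝ) - 3 / lam * Real.log n| * lam = |lam * k - 3 * Real.log n| := by
      rw [← abs_of_pos hl, ← abs_mul, abs_of_pos hl]
      congr 1
      field_simp
    rw [← h9]
    nlinarith [mul_lt_mul_of_pos_right g3 hl]
  have hcast : ((k - oddsC k n : ℕ) : ℝ) = (k : ℝ) - oddsC k n := by
    rw [Nat.cast_sub hle]
  rw [hcast] at h7 ⊢
  have h10 : lam * k - 3 * Real.log n = (2 * (oddsC k n : ℝ) - ((k : ℝ) - oddsC k n)) * (Real.log 2 + Real.log 3) -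
      3 * (Real.log n + oddsC k n * Real.log 3 - ((k : ℝ) - oddsC k n) * Real.log 2) := by
    rw [hlam, mu_log]; ring
  have h11 : |lam * k - 3 * Real.log n| ≤ |2 * (oddsC k n : ℝ) - ((k : ℝ) - oddsC k n)| * (Real.log 2 + Real.log 3) + 3 * C := by
    rw [h10]
    refine (abs_sub _ _).trans ?_
    rw [abs_mul, abs_mul, abs_of_pos (show 0 < Real.log 2 + Real.log 3 by positivity), abs_of_pos (show (0 : ℝ) < 3 by norm_num)]
    linarith
  have h12 : ε * lam / (4 * (Real.log 2 + Real.log 3)) * ((k : ℝ) - oddsC k n) * (Real.log 2 + Real.log 3) <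
      |2 * (oddsC k n : ℝ) - ((k : ℝ) - oddsC k n)| * (Real.log 2 + Real.log 3) := by
    have e1 : ε * lam / (4 * (Real.log 2 + Real.log 3)) * ((k : ℝ) - oddsC k n) * (Real.log 2 + Real.log 3) =
        ε * lam * ((k : ℝ) - oddsC k n) / 4 := by field_simp
    rw [e1]
    have h13 : 0 < ε * lam * k := lt_trans (by positivity) hkk
    have h14 : ε * lam * ((k : ℝ) - oddsC k n) ≤ ε * lam * k := by
      apply mul_le_mul_of_nonneg_left _ (by positivity)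
      have : (0 : ℝ) ≤ oddsC k n := Nat.cast_nonneg _
      linarith
    linarith
  exact lt_of_mul_lt_mul_right h12 (by positivity)

end Pool.Agent.R344.LS
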