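import Pool.Agent.R344.LS.W
import Pool.Agent.W26.HN.D

/-!
Level sums, part 17: the Syracuse map.
-/

set_option autoImplicit false

namespace Pool.Agent.R344.LS

open Finset Filter Topology
open Pool.Agent.H499R2.LT
open Pool.Agent.H499R2.ND (Td Dn Tn Bas Bas_density cop_of_not_dvd side_odd cnt cnt_eq)
open Pool.Agent.W26.HN (Sy En E step od_step Sy_eq exists_pow)

/-- the first letter of the step is the valuation -/
theorem step_val {x : ℤ} (hx : x % 2 = 1) : 1 ≤ padicValInt 2 (3 * x + 1) ∧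
    (Td 1)^[padicValInt 2 (3 * x + 1)] x = Sy x ∧
    (∀ i, 1 ≤ i → i < padicValInt 2 (3 * x + 1) → (Td 1)^[i] x % 2 = 0) ∧ Sy x % 2 = 1 := by
  obtain ⟨v, hv, h1, h2, h3⟩ := step hx
  obtain ⟨w, M, g1, g2⟩ := exists_pow _ (3 * x + 1) (by omega) le_rfl
  have hM0 : M ≠ 0 := by rintro rfl; norm_num at g2
  have hval : padicValInt 2 (3 * x + 1) = w := by
    rw [g1, padicValInt.mul (by positivity) hM0]
    have h2 : padicValInt 2 M = 0 := padicValInt.eq_zero_of_not_dvd (by
      intro h3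
      have : (2 : ℤ) ∣ M := by exact_mod_cast h3
      omega)
    have h3 : padicValInt 2 ((2 : ℤ) ^ w) = w := by
      have e : ((2 : ℤ) ^ w) = ((2 ^ w : ℕ) : ℤ) := by push_cast; ring
      rw [e, padicValInt.of_nat, padicValNat.prime_pow]
    rw [h2, h3, add_zero]
  have hw : w ≠ 0 := by
    rintro rfl
    rw [pow_zero, one_mul] at g1
    omega
  obtain ⟨u, rfl⟩ : ∃ u, w = u + 1 := ⟨w - 1, by omega⟩
  have hS : Sy x = M := Sy_eq g1 g2
  have hT : Td 1 x = 2 ^ u * M := by
    unfold Td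
    rw [if_neg (by omega), g1, pow_succ]
    have : (2 : ℤ) ^ u * 2 * M = 2 * (2 ^ u * M) := by ring
    rw [this]
    omega
  rw [hval]
  refine ⟨by omega, ?_, ?_, by rw [hS]; exact g2⟩
  · rw [Function.iterate_succ_apply, hT, Pool.Agent.W26.HN.Td_pow u M u le_rfl, hS]
    simp
  · intro i hi hiv
    obtain ⟨j, rfl⟩ : ∃ j, i = j + 1 := ⟨i - 1, by omega⟩
    rw [Function.iterate_succ_apply, hT, Pool.Agent.W26.HN.Td_pow u M j (by omega)]
    obtain ⟨r, hr⟩ : ∃ r, u - j = r + 1 := ⟨u - j - 1, by omega⟩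
    rw [hr, pow_succ]
    have : (2 : ℤ) ^ r * 2 * M = 2 * (2 ^ r * M) := by ring
    rw [this]
    omega

/-- the sum of the first `j` exponents -/
def tot (j : ℕ) (x : ℤ) : ℕ := ∑ i ∈ range j, padicValInt 2 (3 * Sy^[i] x + 1)

theorem tot_succ (j : ℕ) (x : ℤ) : tot (j + 1) x = padicValInt 2 (3 * x + 1) + tot j (Sy x) := by
  unfold tot
  rw [sum_range_succ', add_comm]
  simp only [Function.iterate_zero, id_eq]
  congr 1

theorem joint {F : Finset ℤ} (hF : ∀ y ∈ F, y % 2 = 1) (j : ℕ) : ∀ x : ℤ, x % 2 = 1 → ∀ k : ℕ,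
    (En F j x ∧ tot j x = k) ↔ (FH 1 F k x ∧ od 1 k x = j) := by
  induction j with
  | zero =>
    intro x hx k
    constructor
    · rintro ⟨h1, h2⟩
      have h3 : k = 0 := by rw [← h2]; rfl
      subst h3
      exact ⟨⟨h1.1, fun i hi => by omega⟩, by simp [od]⟩
    · rintro ⟨h1, h2⟩
      have hk : k = 0 := by
        by_contra hk
        obtain ⟨m, rfl⟩ : ∃ m, k = m + 1 := ⟨k - 1, by omega⟩
        rw [od, if_neg (by omega)] at h2
        have := (od_bd 1 m (Td 1 x)).1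
        push_cast at h2
        omega
      subst hk
      exact ⟨⟨h1.1, fun i hi => by omega⟩, rfl⟩
  | succ j ih =>
    intro x hx k
    obtain ⟨hv, h1, h2, h3⟩ := step_val hx
    rw [tot_succ]
    set v := padicValInt 2 (3 * x + 1) with hvdef
    constructor
    · rintro ⟨g1, g2⟩
      have hxF : x ∉ F := g1.2 0 (by omega)
      have g3 : En F j (Sy x) := ⟨by
        have := g1.1
        rwa [Function.iterate_succ_apply] at this, fun i hi => by
        have := g1.2 (i + 1) (by omega)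
        rwa [Function.iterate_succ_apply] at this⟩
      obtain ⟨g4, g5⟩ := (ih (Sy x) h3 (tot j (Sy x))).1 ⟨g3, rfl⟩
      rw [← g2]
      refine ⟨⟨?_, ?_⟩, ?_⟩
      · rw [Nat.add_comm, Function.iterate_add_apply, h1]; exact g4.1
      · intro i hi
        by_cases hiv : i < v
        · rcases Nat.eq_zero_or_pos i with hi0 | hi0
          · subst hi0; exact hxF
          · intro h4
            have h5 := h2 i hi0 hiv
            have h6 := hF _ h4
            omega
        · have e : i = (i - v) + v := by omega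
          rw [e, Function.iterate_add_apply, h1]
          exact g4.2 _ (by omega)
      · rw [od_add, od_step hx hv h2, h1, g5]
        push_cast
        ring
    · rintro ⟨g1, g2⟩
      have hk0 : 0 < k := by
        by_contra hk
        have : k = 0 := by omega
        subst this
        rw [od] at g2
        push_cast at g2
        omega
      have hxF : x ∉ F := g1.2 0 hk0
      have hvk : v ≤ k := by
        by_contra hlt
        have h4 := h2 k hk0 (by omega)
        have h5 := hF _ g1.1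
        omega
      have h6 : FH 1 F (k - v) (Sy x) := by
        constructor
        · rw [← h1, ← Function.iterate_add_apply, Nat.sub_add_cancel hvk]; exact g1.1
        · intro i hi
          rw [← h1, ← Function.iterate_add_apply]
          exact g1.2 _ (by omega)
      have h7 : od 1 (k - v) (Sy x) = j := by
        have e : k = v + (k - v) := by omega
        rw [e, od_add, od_step hx hv h2, h1] at g2
        have e2 : v + (k - v) - v = k - v := by omega
        push_cast at g2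
        linarith
      obtain ⟨g3, g4⟩ := (ih (Sy x) h3 (k - v)).2 ⟨h6, h7⟩
      refine ⟨⟨?_, ?_⟩, by omega⟩
      · rw [Function.iterate_succ_apply]; exact g3.1
      · intro i hi
        rcases i with _ | i
        · exact hxF
        · rw [Function.iterate_succ_apply]; exact g3.2 i (by omega)

/-- THE LAW FOR THE SYRACUSE MAP, both signs, any finite set of odd integers -/
theorem syr_law {s : ℤ} (hs : s = 1 ∨ s = -1) {F : Finset ℤ} (hF : ∀ y ∈ F, y % 2 = 1) : ∃ δ : ℝ, 0 ≤ δ ∧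
    ((∃ a ∈ F, 0 < s * a ∧ ¬ (3 : ℤ) ∣ a) → 0 < δ) ∧
    Dn (fun n : ℕ => ∃ k : ℕ, (Td 1)^[k] (s * n) ∈ F) δ ∧
    (∀ j : ℕ, Summable (fun n : {n : ℕ | n % 2 = 1 ∧ En F j (s * n)} => (1 : ℝ) / ((n : ℕ) : ℝ))) ∧
    Tendsto (fun j : ℕ => ∑' n : {n : ℕ | n % 2 = 1 ∧ En F j (s * n)}, (1 : ℝ) / ((n : ℕ) : ℝ)) atTop
      (𝓝 (Real.log (4 / 3) / 2 * δ)) ∧
    (∀ ε : ℝ, 0 < ε → ∃ j0 : ℕ, ∀ j : ℕ, j0 ≤ j → ∀ K : ℕ, ∑ k ∈ range K,
      |∑' n : {n : ℕ | n % 2 = 1 ∧ En F j (s * n) ∧ tot j (s * n) = k + 1}, (1 : ℝ) / ((n : ℕ) : ℝ) -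
        Real.log (4 / 3) / 2 * δ * ((k.choose (j - 1) : ℝ) / 2 ^ (k + 1))| ≤ ε) := by
  classical
  obtain ⟨δ, h0, h1, hD, _, _, _, _, _, hO⟩ := cell_laws (d := 1) odd_one (by omega) hs F
  obtain ⟨δ', _, _, hD', _, _, _, hSm, _, _, _, hS⟩ := level_sums (d := 1) odd_one (by omega) hs F
  have e : δ' = δ := tendsto_nhds_unique hD' hD
  subst e
  have hodd : ∀ n : ℕ, n % 2 = 1 → (s * (n : ℤ)) % 2 = 1 := by
    intro n hn
    rcases hs with rfl | rfl
    · omega
    · omega
  have hlev : ∀ j n : ℕ, n % 2 = 1 → (En F j (s * n) ↔ ∃ k : ℕ, FH 1 F k (s * n) ∧ od 1 k (s * n) = j) := by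
    intro j n hn
    constructor
    · intro h
      exact ⟨tot j (s * n), (joint hF j _ (hodd n hn) _).1 ⟨h, rfl⟩⟩
    · rintro ⟨k, hk⟩
      exact ((joint hF j _ (hodd n hn) k).2 hk).1
  have hin : ∀ j : ℕ, ∀ n ∈ {n : ℕ | n % 2 = 1 ∧ En F j (s * n)}, fS 1 s F j n = (1 : ℝ) / n := by
    rintro j n ⟨g1, g2⟩
    unfold fS
    rw [if_pos ⟨g1, (hlev j n g1).1 g2⟩]
  have hout : ∀ j : ℕ, ∀ n, n ∉ {n : ℕ | n % 2 = 1 ∧ En F j (s * n)} → fS 1 s F j n = 0 := by
    intro j n hn
    unfold fS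
    rw [if_neg]
    rintro ⟨g1, g2⟩
    exact hn ⟨g1, (hlev j n g1).2 g2⟩
  refine ⟨δ', h0, h1, hD, ?_, ?_, ?_⟩
  · intro j
    exact summable_cell (hin j) (hout j) (hSm j)
  · refine hS.congr fun j => ?_
    rw [tsum_cell (hin j) (hout j)]
  · intro ε hε
    obtain ⟨j0, hj0⟩ := hO ε hε
    refine ⟨j0, fun j hj K => ?_⟩
    refine le_trans (le_of_eq ?_) (hj0 j hj K)
    apply sum_congr rfl
    intro k _
    rw [tsum_cell (s := {n : ℕ | n % 2 = 1 ∧ En F j (s * n) ∧ tot j (s * n) = k + 1}) (f := fY 1 s F (k + 1) j)]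
    · rintro n ⟨g1, g2⟩
      unfold fY
      rw [if_pos ⟨g1, (joint hF j _ (hodd n g1) (k + 1)).1 g2⟩]
    · intro n hn
      unfold fY
      rw [if_neg]
      rintro ⟨g1, g2⟩
      exact hn ⟨g1, (joint hF j _ (hodd n g1) (k + 1)).2 g2⟩

end Pool.Agent.R344.LS
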