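import Pool.Agent.R344.LS.U
import Pool.Agent.H499R2.LT.Q1

/-!
Level sums, part 18: sums over all nonzero integers.
-/

set_option autoImplicit false

namespace Pool.Agent.R344.LS

open Finset Filter Topology
open Pool.Agent.H499R2.LT
open Pool.Agent.H499R2.ND (Td Dn cop_of_not_dvd side_odd cnt cnt_eq)

/-- the nonzero integers whose orbit meets `F` for the first time at time `k` -/
def LZ (d : ℤ) (F : Finset ℤ) (k : ℕ) : Set ℤ := {x : ℤ | x ≠ 0 ∧ FH d F k x}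

theorem hasSum_Z {d : ℤ} {F : Finset ℤ} {k : ℕ} {a b : ℝ} (ha : HasSum (fT d 1 F k) a)
    (hb : HasSum (fT d (-1) F k) b) :
    HasSum (fun x : LZ d F k => (1 : ℝ) / |((x : ℤ) : ℝ)|) (a + b) := by
  classical
  rw [← Function.comp_def (fun x : ℤ => (1 : ℝ) / |(x : ℝ)|) (fun x : LZ d F k => (x : ℤ)),
    hasSum_subtype_iff_indicator]
  apply HasSum.of_nat_of_neg_add_one
  · convert ha using 1
    funext n
    unfold fT
    by_cases h : 1 ≤ n ∧ FH d F k (1 * (n : ℤ))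
    · rw [if_pos h, Set.indicator_of_mem]
      · rw [Int.cast_natCast, Nat.abs_cast]
      · refine ⟨by have := h.1; omega, ?_⟩
        have := h.2
        rwa [one_mul] at this
    · rw [if_neg h, Set.indicator_of_notMem]
      rintro ⟨h1, h2⟩
      exact h ⟨by omega, by rwa [one_mul]⟩
  · have hb' : HasSum (fun n : ℕ => fT d (-1) F k (n + 1)) b := by
      have h0 : fT d (-1) F k 0 = 0 := by
        unfold fT
        rw [if_neg (by omega)]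
      have := (hasSum_nat_add_iff' (f := fT d (-1) F k) 1).2 hb
      rwa [sum_range_one, h0, sub_zero] at this
    convert hb' using 1
    funext n
    unfold fT
    have e : (-1 : ℤ) * ((n + 1 : ℕ) : ℤ) = -((n : ℤ) + 1) := by push_cast; ring
    rw [e]
    by_cases h : FH d F k (-((n : ℤ) + 1))
    · rw [if_pos ⟨by omega, h⟩, Set.indicator_of_mem]
      · push_cast
        rw [abs_neg, abs_of_nonneg (by positivity)]
      · exact ⟨by omega, h⟩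
    · rw [if_neg (fun h' => h h'.2), Set.indicator_of_notMem]
      exact fun h' => h h'.2

theorem Dn_le_one {P : ℕ → Prop} {δ : ℝ} (h : Dn P δ) : δ ≤ 1 := by
  classical
  apply le_of_tendsto h
  filter_upwards [eventually_ge_atTop 1] with N hN
  have hN0 : (0 : ℝ) < N := by exact_mod_cast hN
  rw [cnt_eq, div_le_one hN0]
  have h1 := card_filter_le (Icc 1 N) P
  rw [Nat.card_Icc, Nat.add_sub_cancel] at h1
  exact_mod_cast h1

theorem Dn_one {P : ℕ → Prop} (h : ∀ n, 1 ≤ n → P n) : Dn P 1 := by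
  classical
  refine (tendsto_const_nhds (x := (1 : ℝ))).congr' ?_
  filter_upwards [eventually_gt_atTop 0] with N hN
  rw [cnt_eq, filter_true_of_mem (fun n hn => h n (mem_Icc.1 hn).1), Nat.card_Icc, Nat.add_sub_cancel, div_self]
  exact_mod_cast hN.ne'

/-- THE LEVEL SUMS over all nonzero integers -/
theorem both {d : ℤ} (hd : Odd d) (hd3 : ¬ (3 : ℤ) ∣ d) (F : Finset ℤ) : ∃ δ₁ δ₂ : ℝ,
    0 ≤ δ₁ ∧ δ₁ ≤ 1 ∧ 0 ≤ δ₂ ∧ δ₂ ≤ 1 ∧
    Dn (fun n : ℕ => ∃ k : ℕ, (Td d)^[k] (1 * n) ∈ F) δ₁ ∧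
    Dn (fun n : ℕ => ∃ k : ℕ, (Td d)^[k] (-1 * n) ∈ F) δ₂ ∧
    (∀ k : ℕ, Summable (fun x : LZ d F k => (1 : ℝ) / |((x : ℤ) : ℝ)|)) ∧
    Tendsto (fun k : ℕ => ∑' x : LZ d F k, (1 : ℝ) / |((x : ℤ) : ℝ)|) atTop
      (𝓝 (Real.log (4 / 3) / 2 * (δ₁ + δ₂))) := by
  obtain ⟨δ₁, h0, _, h1, h2, _, _, _, h3, _⟩ := level_sums hd hd3 (s := 1) (Or.inl rfl) F
  obtain ⟨δ₂, g0, _, g1, g2, _, _, _, g3, _⟩ := level_sums hd hd3 (s := -1) (Or.inr rfl) F
  have key : ∀ k, HasSum (fun x : LZ d F k => (1 : ℝ) / |((x : ℤ) : ℝ)|)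
    (∑' n, fT d 1 F k n + ∑' n, fT d (-1) F k n) := fun k => hasSum_Z (h2 k).hasSum (g2 k).hasSum
  refine ⟨δ₁, δ₂, h0, Dn_le_one h1, g0, Dn_le_one g1, h1, g1, fun k => (key k).summable, ?_⟩
  have h4 := h3.add g3
  rw [← mul_add] at h4
  refine h4.congr fun k => ?_
  exact (key k).tsum_eq.symm

theorem log43_pos : 0 < Real.log (4 / 3) := Real.log_pos (by norm_num)

/-- finite targets -/
theorem both_iff {d : ℤ} (hd : Odd d) (hd3 : ¬ (3 : ℤ) ∣ d) :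
    (∃ F : Finset ℤ, ∀ x : ℤ, ∃ k : ℕ, (Td d)^[k] x ∈ F) ↔
    ∃ F : Finset ℤ, Tendsto (fun k : ℕ => ∑' x : LZ d F k, (1 : ℝ) / |((x : ℤ) : ℝ)|) atTop
      (𝓝 (Real.log (4 / 3))) := by
  constructor
  · rintro ⟨F, hF⟩
    refine ⟨F, ?_⟩
    obtain ⟨δ₁, δ₂, _, _, _, _, h1, h2, _, h3⟩ := both hd hd3 F
    have e1 : δ₁ = 1 := tendsto_nhds_unique h1 (Dn_one fun n _ => hF _)
    have e2 : δ₂ = 1 := tendsto_nhds_unique h2 (Dn_one fun n _ => hF _)
    rw [e1, e2] at h3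
    have e3 : Real.log (4 / 3) / 2 * (1 + 1) = Real.log (4 / 3) := by ring
    rwa [e3] at h3
  · rintro ⟨F, hF⟩
    obtain ⟨δ₁, δ₂, _, g1, _, g2, h1, h2, _, h3⟩ := both hd hd3 F
    have e := tendsto_nhds_unique hF h3
    have hl := log43_pos
    have e1 : δ₁ + δ₂ = 2 := by
      have : Real.log (4 / 3) * (δ₁ + δ₂ - 2) = 0 := by linarith
      rcases mul_eq_zero.1 this with h | h
      · linarith
      · linarith
    have e2 : δ₁ = 1 := by linarith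
    have e3 : δ₂ = 1 := by linarith
    subst e2
    subst e3
    apply zero_one hd hd3 F
    · simpa only [one_mul] using h1
    · simpa only [neg_one_mul] using h2

/-! ### the `3x+1` map on the integers -/

/-- the Collatz map on the integers -/
def Ci (x : ℤ) : ℤ := if x % 2 = 0 then x / 2 else 3 * x + 1

theorem Ci_even {x : ℤ} (h : x % 2 = 0) : Ci x = Td 1 x := by
  unfold Ci Td; rw [if_pos h, if_pos h]

theorem Ci_odd {x : ℤ} (h : ¬ x % 2 = 0) : Ci (Ci x) = Td 1 x := by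
  unfold Ci Td
  rw [if_neg h, if_neg h, if_pos (by omega)]

theorem T_in_C (k : ℕ) (x : ℤ) : ∃ m : ℕ, (Td 1)^[k] x = Ci^[m] x := by
  induction k with
  | zero => exact ⟨0, rfl⟩
  | succ k ih =>
    obtain ⟨m, hm⟩ := ih
    rw [Function.iterate_succ_apply', hm]
    by_cases h : (Ci^[m] x) % 2 = 0
    · exact ⟨m + 1, by rw [Function.iterate_succ_apply', Ci_even h]⟩
    · exact ⟨m + 2, by rw [Function.iterate_succ_apply', Function.iterate_succ_apply', Ci_odd h]⟩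

theorem C_in_T (k : ℕ) (x : ℤ) : ∃ j : ℕ, (Td 1)^[j] x = Ci^[k] x ∨ (Td 1)^[j] x = Ci^[k + 1] x := by
  induction k with
  | zero => exact ⟨0, Or.inl rfl⟩
  | succ k ih =>
    obtain ⟨j, hj | hj⟩ := ih
    · by_cases h : (Ci^[k] x) % 2 = 0
      · refine ⟨j + 1, Or.inl ?_⟩
        rw [Function.iterate_succ_apply', hj, Function.iterate_succ_apply', Ci_even h]
      · refine ⟨j + 1, Or.inr ?_⟩
        rw [Function.iterate_succ_apply', hj, Function.iterate_succ_apply', Function.iterate_succ_apply', Ci_odd h]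
    · exact ⟨j, Or.inl hj⟩

theorem reach_iff {Z : Finset ℤ} (hZ : ∀ y ∈ Z, Ci y ∈ Z) (x : ℤ) :
    (∃ k : ℕ, Ci^[k] x ∈ Z) ↔ ∃ k : ℕ, (Td 1)^[k] x ∈ Z := by
  constructor
  · rintro ⟨k, hk⟩
    obtain ⟨j, hj | hj⟩ := C_in_T k x
    · exact ⟨j, by rw [hj]; exact hk⟩
    · exact ⟨j, by rw [hj, Function.iterate_succ_apply']; exact hZ _ hk⟩
  · rintro ⟨k, hk⟩
    obtain ⟨m, hm⟩ := T_in_C k x
    exact ⟨m, by rw [← hm]; exact hk⟩

theorem Td_closed {Z : Finset ℤ} (hZ : ∀ y ∈ Z, Ci y ∈ Z) : ∀ y ∈ Z, Td 1 y ∈ Z := by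
  intro y hy
  by_cases h : y % 2 = 0
  · rw [← Ci_even h]; exact hZ y hy
  · rw [← Ci_odd h]; exact hZ _ (hZ y hy)

theorem Td_iter_closed {Z : Finset ℤ} (hZ : ∀ y ∈ Z, Td 1 y ∈ Z) (k : ℕ) : ∀ y ∈ Z, (Td 1)^[k] y ∈ Z := by
  induction k with
  | zero => exact fun y hy => hy
  | succ k ih =>
    intro y hy
    rw [Function.iterate_succ_apply']
    exact hZ _ (ih y hy)

theorem sign_Td {s x : ℤ} (hs : s = 1 ∨ s = -1) (h : 0 < s * x) : 0 < s * Td 1 x := by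
  unfold Td
  rcases hs with rfl | rfl
  · split_ifs <;> omega
  · split_ifs <;> omega

theorem sign_iter {s : ℤ} (hs : s = 1 ∨ s = -1) (k : ℕ) : ∀ x : ℤ, 0 < s * x → 0 < s * (Td 1)^[k] x := by
  induction k with
  | zero => exact fun x h => h
  | succ k ih =>
    intro x h
    rw [Function.iterate_succ_apply']
    exact sign_Td hs (ih x h)

/-- almost all means all -/
theorem all_of_one {s : ℤ} (hs : s = 1 ∨ s = -1) {Z : Finset ℤ} (hZ : ∀ y ∈ Z, Td 1 y ∈ Z)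
    (h1 : Dn (fun n : ℕ => ∃ k : ℕ, (Td 1)^[k] (s * n) ∈ Z) 1) (x : ℤ) (hx : 0 < s * x) :
    ∃ k : ℕ, (Td 1)^[k] x ∈ Z := by
  have hx0 : x ≠ 0 := by rintro rfl; simp at hx
  obtain ⟨k0, hk0⟩ := Pool.Agent.H499R2.ND.exists_prime3' (d := 1) odd_one (by omega) _ x hx0 le_rfl
  by_contra hcon
  push Not at hcon
  obtain ⟨f, hf, j, hj⟩ := Q1_hits (d := 1) odd_one (by omega) hs Z h1 (z := (Td 1)^[k0] x) hk0
    (sign_iter hs k0 x hx) (fun k => by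
      rw [← Function.iterate_add_apply]
      exact hcon _)
  apply hcon k0
  rw [← hj]
  exact Td_iter_closed hZ j f hf

/-- THE LEVEL SUMS FOR A FINITE UNION OF CYCLES -/
theorem cycles_main {Z : Finset ℤ} (hZ : ∀ y ∈ Z, Ci y ∈ Z) : ∃ δ₁ δ₂ : ℝ,
    0 ≤ δ₁ ∧ δ₁ ≤ 1 ∧ 0 ≤ δ₂ ∧ δ₂ ≤ 1 ∧
    (δ₁ = 1 ↔ ∀ x : ℤ, 0 < x → ∃ k : ℕ, Ci^[k] x ∈ Z) ∧
    (δ₂ = 1 ↔ ∀ x : ℤ, x < 0 → ∃ k : ℕ, Ci^[k] x ∈ Z) ∧
    Tendsto (fun N : ℕ => ({n : ℕ | 1 ≤ n ∧ n ≤ N ∧ ∃ k : ℕ, Ci^[k] (n : ℤ) ∈ Z}.ncard : ℝ) / N) atTop (𝓝 δ₁) ∧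
    Tendsto (fun N : ℕ => ({n : ℕ | 1 ≤ n ∧ n ≤ N ∧ ∃ k : ℕ, Ci^[k] (-(n : ℤ)) ∈ Z}.ncard : ℝ) / N) atTop (𝓝 δ₂) ∧
    (∀ k : ℕ, Summable (fun x : LZ 1 Z k => (1 : ℝ) / |((x : ℤ) : ℝ)|)) ∧
    Tendsto (fun k : ℕ => ∑' x : LZ 1 Z k, (1 : ℝ) / |((x : ℤ) : ℝ)|) atTop
      (𝓝 (Real.log (4 / 3) / 2 * (δ₁ + δ₂))) ∧
    ((∀ x : ℤ, x ≠ 0 → ∃ k : ℕ, Ci^[k] x ∈ Z) ↔
      Tendsto (fun k : ℕ => ∑' x : LZ 1 Z k, (1 : ℝ) / |((x : ℤ) : ℝ)|) atTop (𝓝 (Real.log (4 / 3)))) := by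
  obtain ⟨δ₁, δ₂, a0, a1, b0, b1, h1, h2, h3, h4⟩ := both (d := 1) odd_one (by omega) Z
  have hT := Td_closed hZ
  have e1 : δ₁ = 1 ↔ ∀ x : ℤ, 0 < x → ∃ k : ℕ, Ci^[k] x ∈ Z := by
    constructor
    · rintro rfl x hx
      rw [reach_iff hZ]
      exact all_of_one (Or.inl rfl) hT h1 x (by omega)
    · intro h
      exact tendsto_nhds_unique h1 (Dn_one fun n hn => by
        rw [← reach_iff hZ, one_mul]
        exact h n (by omega))
  have e2 : δ₂ = 1 ↔ ∀ x : ℤ, x < 0 → ∃ k : ℕ, Ci^[k] x ∈ Z := by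
    constructor
    · rintro rfl x hx
      rw [reach_iff hZ]
      exact all_of_one (Or.inr rfl) hT h2 x (by omega)
    · intro h
      exact tendsto_nhds_unique h2 (Dn_one fun n hn => by
        rw [← reach_iff hZ, neg_one_mul]
        exact h _ (by omega))
  refine ⟨δ₁, δ₂, a0, a1, b0, b1, e1, e2, ?_, ?_, h3, h4, ?_⟩
  · have := Dn_ncard h1
    simpa only [one_mul, ← reach_iff hZ] using this
  · have := Dn_ncard h2
    simpa only [neg_one_mul, ← reach_iff hZ] using this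
  · constructor
    · intro h
      have g1 : δ₁ = 1 := e1.2 fun x hx => h x (by omega)
      have g2 : δ₂ = 1 := e2.2 fun x hx => h x (by omega)
      rw [g1, g2] at h4
      have e3 : Real.log (4 / 3) / 2 * (1 + 1) = Real.log (4 / 3) := by ring
      rwa [e3] at h4
    · intro h
      have e := tendsto_nhds_unique h h4
      have hl := log43_pos
      have g : δ₁ + δ₂ = 2 := by
        have : Real.log (4 / 3) * (δ₁ + δ₂ - 2) = 0 := by linarith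
        rcases mul_eq_zero.1 this with h | h
        · linarith
        · linarith
      intro x hx
      rcases lt_or_gt_of_ne hx with hx' | hx'
      · exact e2.1 (by linarith) x hx'
      · exact e1.1 (by linarith) x hx'

end Pool.Agent.R344.LS
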