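import Pool.Agent.R344.LS.Y

/-!
Level sums, part 19: the cells, over all nonzero integers.
-/

set_option autoImplicit false

namespace Pool.Agent.R344.LS

open Finset Filter Topology
open Pool.Agent.H499R2.LT
open Pool.Agent.H499R2.ND (Td Dn cop_of_not_dvd side_odd cnt cnt_eq)

theorem hasSum_P {P : ℤ → Prop} {f g : ℕ → ℝ} {a b : ℝ}
    (hf : ∀ n : ℕ, 1 ≤ n → P n → f n = 1 / n) (hf' : ∀ n : ℕ, ¬ (1 ≤ n ∧ P n) → f n = 0)
    (hg : ∀ n : ℕ, 1 ≤ n → P (-(n : ℤ)) → g n = 1 / n) (hg' : ∀ n : ℕ, ¬ (1 ≤ n ∧ P (-(n : ℤ))) → g n = 0)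
    (ha : HasSum f a) (hb : HasSum g b) :
    HasSum (fun x : {x : ℤ | x ≠ 0 ∧ P x} => (1 : ℝ) / |((x : ℤ) : ℝ)|) (a + b) := by
  classical
  rw [← Function.comp_def (fun x : ℤ => (1 : ℝ) / |(x : ℝ)|) (fun x : {x : ℤ | x ≠ 0 ∧ P x} => (x : ℤ)),
    hasSum_subtype_iff_indicator]
  apply HasSum.of_nat_of_neg_add_one
  · convert ha using 1
    funext n
    by_cases h : 1 ≤ n ∧ P n
    · rw [hf n h.1 h.2, Set.indicator_of_mem]
      · rw [Int.cast_natCast, Nat.abs_cast]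
      · exact ⟨by have := h.1; omega, h.2⟩
    · rw [hf' n h, Set.indicator_of_notMem]
      rintro ⟨h1, h2⟩
      exact h ⟨by omega, h2⟩
  · have hb' : HasSum (fun n : ℕ => g (n + 1)) b := by
      have h0 : g 0 = 0 := hg' 0 (by omega)
      have := (hasSum_nat_add_iff' (f := g) 1).2 hb
      rwa [sum_range_one, h0, sub_zero] at this
    convert hb' using 1
    funext n
    have e : -(((n + 1 : ℕ) : ℤ)) = -((n : ℤ) + 1) := by push_cast; ring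
    by_cases h : P (-((n : ℤ) + 1))
    · rw [hg (n + 1) (by omega) (by rw [e]; exact h), Set.indicator_of_mem]
      · push_cast
        rw [abs_neg, abs_of_nonneg (by positivity)]
      · exact ⟨by omega, h⟩
    · rw [hg' (n + 1) (by rw [e]; exact fun h' => h h'.2), Set.indicator_of_notMem]
      exact fun h' => h h'.2

/-- THE CELLS over all nonzero integers: the uniform law -/
theorem both_cells {d : ℤ} (hd : Odd d) (hd3 : ¬ (3 : ℤ) ∣ d) (F : Finset ℤ) : ∃ δ₁ δ₂ : ℝ,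
    0 ≤ δ₁ ∧ δ₁ ≤ 1 ∧ 0 ≤ δ₂ ∧ δ₂ ≤ 1 ∧
    Dn (fun n : ℕ => ∃ k : ℕ, (Td d)^[k] (1 * n) ∈ F) δ₁ ∧
    Dn (fun n : ℕ => ∃ k : ℕ, (Td d)^[k] (-1 * n) ∈ F) δ₂ ∧
    (∀ k : ℕ, Summable (fun x : LZ d F k => (1 : ℝ) / |((x : ℤ) : ℝ)|)) ∧
    Tendsto (fun k : ℕ => ∑' x : LZ d F k, (1 : ℝ) / |((x : ℤ) : ℝ)|) atTop
      (𝓝 (Real.log (4 / 3) / 2 * (δ₁ + δ₂))) ∧
    ∀ B ε : ℝ, 0 < ε → ∃ k0 : ℕ, ∀ S : Finset (ℕ × ℕ),
      (∀ a b : ℕ, ∑ v ∈ S with a ≤ v.1 ∧ b ≤ v.2, ((v.1 - a).choose (v.2 - b) : ℝ) / 2 ^ (v.1 - a) ≤ B) →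
      (∀ v ∈ S, k0 ≤ v.1) →
      ∑ v ∈ S, |∑' x : {x : ℤ | x ≠ 0 ∧ (FH d F v.1 x ∧ od d v.1 x = v.2)}, (1 : ℝ) / |((x : ℤ) : ℝ)| -
        Real.log (4 / 3) / 2 * (δ₁ + δ₂) * ((v.1.choose v.2 : ℝ) / 2 ^ v.1)| ≤ ε := by
  classical
  obtain ⟨δ₁, δ₂, a0, a1, b0, b1, h1, h2, h3, h4⟩ := both hd hd3 F
  obtain ⟨δ₁', _, _, c1, s1, u1, _⟩ := cell_laws hd hd3 (s := 1) (Or.inl rfl) F
  obtain ⟨δ₂', _, _, c2, s2, u2, _⟩ := cell_laws hd hd3 (s := -1) (Or.inr rfl) F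
  have e1 : δ₁' = δ₁ := tendsto_nhds_unique c1 h1
  have e2 : δ₂' = δ₂ := tendsto_nhds_unique c2 h2
  subst e1
  subst e2
  refine ⟨δ₁', δ₂', a0, a1, b0, b1, h1, h2, h3, h4, ?_⟩
  intro B ε hε
  obtain ⟨k1, hk1⟩ := u1 B (ε / 2) (by positivity)
  obtain ⟨k2, hk2⟩ := u2 B (ε / 2) (by positivity)
  refine ⟨max k1 k2, fun S hB hS => ?_⟩
  have g1 := hk1 S hB fun v hv => (le_max_left _ _).trans (hS v hv)
  have g2 := hk2 S hB fun v hv => (le_max_right _ _).trans (hS v hv)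
  have key : ∀ k o : ℕ, ∑' x : {x : ℤ | x ≠ 0 ∧ (FH d F k x ∧ od d k x = o)}, (1 : ℝ) / |((x : ℤ) : ℝ)| =
      ∑' n, fX d 1 F k o n + ∑' n, fX d (-1) F k o n := by
    intro k o
    apply HasSum.tsum_eq
    apply hasSum_P (P := fun x => FH d F k x ∧ od d k x = o) _ _ _ _ (s1 k o).hasSum (s2 k o).hasSum
    · intro n hn hP
      unfold fX
      rw [one_mul, if_pos ⟨hn, hP⟩]
    · intro n hn
      unfold fX
      rw [one_mul, if_neg hn]
    · intro n hn hP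
      unfold fX
      rw [neg_one_mul, if_pos ⟨hn, hP⟩]
    · intro n hn
      unfold fX
      rw [neg_one_mul, if_neg hn]
  calc _ ≤ ∑ v ∈ S, (|∑' n, fX d 1 F v.1 v.2 n - Real.log (4 / 3) / 2 * δ₁' * ((v.1.choose v.2 : ℝ) / 2 ^ v.1)| +
        |∑' n, fX d (-1) F v.1 v.2 n - Real.log (4 / 3) / 2 * δ₂' * ((v.1.choose v.2 : ℝ) / 2 ^ v.1)|) := by
        apply sum_le_sum
        intro v _
        rw [key]
        refine le_trans (le_of_eq ?_) (abs_add_le _ _)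
        congr 1
        ring
    _ ≤ ε := by
        rw [sum_add_distrib]
        linarith

/-- number of odd terms -/
theorem od_card (d : ℤ) (k : ℕ) (x : ℤ) :
    od d k x = (((Finset.range k).filter fun i => (Td d)^[i] x % 2 = 1).card : ℤ) := by
  induction k generalizing x with
  | zero => simp [od]
  | succ k ih =>
    rw [od, ih, card_filter, card_filter, sum_range_succ']
    push_cast
    have h1 : ∀ i : ℕ, (Td d)^[i + 1] x = (Td d)^[i] (Td d x) := fun i => Function.iterate_succ_apply (Td d) i x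
    simp only [h1, Function.iterate_zero, id_eq]
    have h2 : (if x % 2 = 0 then (0 : ℤ) else 1) = if x % 2 = 1 then 1 else 0 := by
      split_ifs <;> omega
    rw [h2]
    ring

end Pool.Agent.R344.LS
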